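import Mathlib

section

/-!
Definitions for the disproof of `MP_a2fd8c_co`.
-/

namespace Pool.Agent.Lib.MP_a2fd8c_co

/-- the generalised Desargues configuration in a bipartite relation `E` -/
structure IsNeck {X Y : Type*} (E : X → Y → Prop) (m : ℕ) (O : X) (b : Y)
    (A Q R : ℕ → X) (s k l : ℕ → Y) : Prop where
  A_m : A m = A 0
  Q_m : Q m = Q 0
  Os : ∀ i < m, E O (s i)
  As : ∀ i < m, E (A i) (s i)
  Qs : ∀ i < m, E (Q i) (s i)
  Ak : ∀ i < m, E (A i) (k i)
  Ak' : ∀ i < m, E (A (i + 1)) (k i)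
  Ql : ∀ i < m, E (Q i) (l i)
  Ql' : ∀ i < m, E (Q (i + 1)) (l i)
  Rk : ∀ i < m, E (R i) (k i)
  Rl : ∀ i < m, E (R i) (l i)
  Rb : ∀ i < m, E (R i) b
  A_O : ∀ i < m, A i ≠ O
  Q_O : ∀ i < m, Q i ≠ O
  R_O : ∀ i < m, R i ≠ O
  s_b : ∀ i < m, s i ≠ b
  k_b : ∀ i < m, k i ≠ b
  l_b : ∀ i < m, l i ≠ b
  AA : ∀ i < m, ∀ j < m, A i = A j → i = j
  QQ : ∀ i < m, ∀ j < m, Q i = Q j → i = j
  RR : ∀ i < m, ∀ j < m, R i = R j → i = j
  ss : ∀ i < m, ∀ j < m, s i = s j → i = j
  kk : ∀ i < m, ∀ j < m, k i = k j → i = j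
  ll : ∀ i < m, ∀ j < m, l i = l j → i = j
  AQ : ∀ i < m, ∀ j < m, A i ≠ Q j
  AR : ∀ i < m, ∀ j < m, A i ≠ R j
  QR : ∀ i < m, ∀ j < m, Q i ≠ R j
  sk : ∀ i < m, ∀ j < m, s i ≠ k j
  sl : ∀ i < m, ∀ j < m, s i ≠ l j
  kl : ∀ i < m, ∀ j < m, k i ≠ l j

/-- `E` contains the configuration -/
def Neck {X Y : Type*} (E : X → Y → Prop) (m : ℕ) : Prop :=
  ∃ (O : X) (b : Y) (A Q R : ℕ → X) (s k l : ℕ → Y), IsNeck E m O b A Q R s k l

/-- the vertices of the graph `H` -/
inductive HV (m : ℕ) : Type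
  | O : HV m
  | b : HV m
  | A : Fin m → HV m
  | Q : Fin m → HV m
  | R : Fin m → HV m
  | s : Fin m → HV m
  | k : Fin m → HV m
  | l : Fin m → HV m
  deriving DecidableEq, Fintype

/-- incidences of the configuration, without the incidence of `R (m - 1)` and `b` -/
def hrel {m : ℕ} : HV m → HV m → Prop
  | HV.O, HV.s _ => True
  | HV.A i, HV.s j => i = j
  | HV.Q i, HV.s j => i = j
  | HV.A i, HV.k j => i = j ∨ (i : ℕ) = (j + 1) % m
  | HV.Q i, HV.l j => i = j ∨ (i : ℕ) = (j + 1) % m
  | HV.R i, HV.k j => i = j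
  | HV.R i, HV.l j => i = j
  | HV.R i, HV.b => (i : ℕ) + 1 < m
  | _, _ => False

/-- the graph `H` -/
def HG (m : ℕ) : SimpleGraph (HV m) := SimpleGraph.fromRel hrel

/-- the host graph on `F × F`: `(x,y) ~ (a,b)` iff `y + b = x a` -/
def host (F : Type*) [Field F] : SimpleGraph (F × F) :=
  SimpleGraph.fromRel fun v w => v.2 + w.2 = v.1 * w.1

end Pool.Agent.Lib.MP_a2fd8c_co
end

section

/-!
Counting edges of a bipartite relation, and the peeling lemma.
-/

namespace Pool.Agent.Lib.MP_a2fd8c_co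

open Finset
open scoped Classical

/-- indicator of a relation -/
noncomputable def ind {X Y : Type*} (E : X → Y → Prop) (x : X) (y : Y) : ℝ := if E x y then 1 else 0

/-- number of edges between two finite sets -/
noncomputable def ec {X Y : Type*} (E : X → Y → Prop) (S : Finset X) (T : Finset Y) : ℝ :=
  ∑ x ∈ S, ∑ y ∈ T, ind E x y

section
variable {X Y : Type*} (E : X → Y → Prop)

lemma ind_nonneg (x : X) (y : Y) : 0 ≤ ind E x y := by
  unfold ind; split_ifs <;> norm_num

lemma ind_le_one (x : X) (y : Y) : ind E x y ≤ 1 := by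
  unfold ind; split_ifs <;> norm_num

lemma ind_sq (x : X) (y : Y) : ind E x y * ind E x y = ind E x y := by
  unfold ind; split_ifs <;> norm_num

lemma sum_ind (x : X) (T : Finset Y) : ∑ y ∈ T, ind E x y = ((T.filter fun y => E x y).card : ℝ) := by
  unfold ind
  rw [Finset.sum_boole]

lemma sum_ind' (y : Y) (S : Finset X) : ∑ x ∈ S, ind E x y = ((S.filter fun x => E x y).card : ℝ) := by
  unfold ind
  rw [Finset.sum_boole]

lemma ec_nonneg (S : Finset X) (T : Finset Y) : 0 ≤ ec E S T :=
  Finset.sum_nonneg fun _ _ => Finset.sum_nonneg fun _ _ => ind_nonneg E _ _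

lemma ec_comm (S : Finset X) (T : Finset Y) : ec E S T = ∑ y ∈ T, ∑ x ∈ S, ind E x y := by
  unfold ec
  rw [Finset.sum_comm]

lemma ec_swap (S : Finset X) (T : Finset Y) : ec E S T = ec (fun y x => E x y) T S := by
  rw [ec_comm]; rfl

lemma ec_le_card_mul (S : Finset X) (T : Finset Y) : ec E S T ≤ S.card * T.card := by
  unfold ec
  calc ∑ x ∈ S, ∑ y ∈ T, ind E x y ≤ ∑ x ∈ S, ∑ y ∈ T, (1 : ℝ) :=
        Finset.sum_le_sum fun _ _ => Finset.sum_le_sum fun _ _ => ind_le_one E _ _
    _ = S.card * T.card := by simp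

lemma ec_mono {S S' : Finset X} {T T' : Finset Y} (hS : S ⊆ S') (hT : T ⊆ T') :
    ec E S T ≤ ec E S' T' := by
  unfold ec
  calc ∑ x ∈ S, ∑ y ∈ T, ind E x y ≤ ∑ x ∈ S, ∑ y ∈ T', ind E x y :=
        Finset.sum_le_sum fun _ _ =>
          Finset.sum_le_sum_of_subset_of_nonneg hT fun _ _ _ => ind_nonneg E _ _
    _ ≤ ∑ x ∈ S', ∑ y ∈ T', ind E x y :=
        Finset.sum_le_sum_of_subset_of_nonneg hS fun _ _ _ =>
          Finset.sum_nonneg fun _ _ => ind_nonneg E _ _

lemma ec_eq_card (S : Finset X) (T : Finset Y) :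
    ec E S T = (((S ×ˢ T).filter fun p => E p.1 p.2).card : ℝ) := by
  unfold ec ind
  rw [← Finset.sum_product' (f := fun x y => if E x y then (1 : ℝ) else 0), Finset.sum_boole]

lemma ec_sdiff_left {S S' : Finset X} (hS : S' ⊆ S) (T : Finset Y) :
    ec E (S \ S') T = ec E S T - ec E S' T := by
  unfold ec
  rw [eq_sub_iff_add_eq]
  exact Finset.sum_sdiff hS

lemma ec_sdiff_right (S : Finset X) {T T' : Finset Y} (hT : T' ⊆ T) :
    ec E S (T \ T') = ec E S T - ec E S T' := by
  rw [ec_swap E S (T \ T'), ec_sdiff_left _ hT, ec_swap E S T, ec_swap E S T']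

end

/-- the peeling lemma -/
theorem peel {L R : Type*} (E : L → R → Prop)
    (L0 : Finset L) (R0 : Finset R) (α β : ℝ) :
    ∃ L' ⊆ L0, ∃ R' ⊆ R0,
      ec E L0 R0 - α * (L0.card : ℝ) - β * (R0.card : ℝ) ≤
        ec E L' R' - α * (L'.card : ℝ) - β * (R'.card : ℝ) ∧
      (∀ x ∈ L', α ≤ ∑ y ∈ R', ind E x y) ∧
      (∀ y ∈ R', β ≤ ∑ x ∈ L', ind E x y) := by
  obtain ⟨⟨L', R'⟩, hmem, hmax⟩ := Finset.exists_max_image (L0.powerset ×ˢ R0.powerset)
    (fun p => ec E p.1 p.2 - α * (p.1.card : ℝ) - β * (p.2.card : ℝ))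
    ⟨(L0, R0), by simp⟩
  simp only [Finset.mem_product, Finset.mem_powerset] at hmem
  refine ⟨L', hmem.1, R', hmem.2, ?_, ?_, ?_⟩
  · exact hmax (L0, R0) (by simp)
  · intro x hx
    by_contra hlt
    push Not at hlt
    have h := hmax (L'.erase x, R') (by
      simp only [Finset.mem_product, Finset.mem_powerset]
      exact ⟨(Finset.erase_subset _ _).trans hmem.1, hmem.2⟩)
    simp only at h
    have h1 : ec E (L'.erase x) R' = ec E L' R' - ∑ y ∈ R', ind E x y := by
      unfold ec
      rw [eq_sub_iff_add_eq, Finset.sum_erase_add _ _ hx]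
    have h2 : ((L'.erase x).card : ℝ) = (L'.card : ℝ) - 1 := by
      rw [Finset.card_erase_of_mem hx, Nat.cast_sub (Finset.card_pos.2 ⟨x, hx⟩)]
      simp
    rw [h1, h2] at h
    linarith
  · intro y hy
    by_contra hlt
    push Not at hlt
    have h := hmax (L', R'.erase y) (by
      simp only [Finset.mem_product, Finset.mem_powerset]
      exact ⟨hmem.1, (Finset.erase_subset _ _).trans hmem.2⟩)
    simp only at h
    have h1 : ec E L' (R'.erase y) = ec E L' R' - ∑ x ∈ L', ind E x y := by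
      rw [ec_comm, ec_comm, eq_sub_iff_add_eq, Finset.sum_erase_add _ _ hy]
    have h2 : ((R'.erase y).card : ℝ) = (R'.card : ℝ) - 1 := by
      rw [Finset.card_erase_of_mem hy, Nat.cast_sub (Finset.card_pos.2 ⟨y, hy⟩)]
      simp
    rw [h1, h2] at h
    linarith

end Pool.Agent.Lib.MP_a2fd8c_co
end

section

namespace Pool.Agent.Lib.MP_a2fd8c_co

open Finset

namespace CW

variable {V : Type*} [Fintype V] [DecidableEq V]

/-- prepend a vertex to an infinite sequence -/
def cons (v : V) (f : ℕ → V) : ℕ → V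
  | 0 => v
  | t + 1 => f t

/-- weighted sum over walks of length `n` starting at `v` (constant after time `n`) -/
noncomputable def E (P : Matrix V V ℝ) : ℕ → V → ((ℕ → V) → ℝ) → ℝ
  | 0, v, g => g (fun _ => v)
  | n + 1, v, g => ∑ w, P v w * E P n w (fun f => g (cons v f))

omit [DecidableEq V] in
lemma E_zero_val (P : Matrix V V ℝ) (n : ℕ) (v : V) (g : V → (ℕ → V) → ℝ) :
    E P n v (fun f => g (f 0) f) = E P n v (fun f => g v f) := by
  cases n with
  | zero => rfl
  | succ n => rfl

lemma E_last (P : Matrix V V ℝ) (n : ℕ) (v : V) (φ : V → ℝ) :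
    E P n v (fun f => φ (f n)) = ∑ z, (P ^ n) v z * φ z := by
  induction n generalizing v with
  | zero =>
    simp [E, Matrix.one_apply]
  | succ n ih =>
    have h1 : E P (n + 1) v (fun f => φ (f (n + 1))) =
        ∑ w, P v w * E P n w (fun f => φ (f n)) := rfl
    rw [h1]
    simp_rw [ih]
    rw [pow_succ']
    simp_rw [Matrix.mul_apply, Finset.mul_sum, Finset.sum_mul]
    rw [Finset.sum_comm]
    refine Finset.sum_congr rfl fun z _ => Finset.sum_congr rfl fun w _ => by ring

lemma E_two (P : Matrix V V ℝ) (j n : ℕ) (hj : j ≤ n) (v : V) (φ : V → V → ℝ) :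
    E P n v (fun f => φ (f j) (f n)) =
      ∑ y, ∑ z, (P ^ j) v y * (P ^ (n - j)) y z * φ y z := by
  induction j generalizing n v with
  | zero =>
    rw [E_zero_val P n v (fun a f => φ a (f n)), E_last]
    simp [Matrix.one_apply]
  | succ j ih =>
    obtain ⟨n, rfl⟩ : ∃ m, n = m + 1 := ⟨n - 1, by omega⟩
    have h1 : E P (n + 1) v (fun f => φ (f (j + 1)) (f (n + 1))) =
        ∑ w, P v w * E P n w (fun f => φ (f j) (f n)) := rfl
    rw [h1]
    have hj' : j ≤ n := by omega
    simp_rw [ih n hj']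
    have h2 : n + 1 - (j + 1) = n - j := by omega
    rw [h2, pow_succ']
    simp_rw [Matrix.mul_apply (M := P) (N := P ^ j), Finset.mul_sum, Finset.sum_mul]
    rw [Finset.sum_comm]
    refine Finset.sum_congr rfl fun y _ => ?_
    rw [Finset.sum_comm]
    refine Finset.sum_congr rfl fun z _ => Finset.sum_congr rfl fun w _ => by ring

lemma E_three (P : Matrix V V ℝ) (i j n : ℕ) (hij : i ≤ j) (hj : j ≤ n) (v : V)
    (φ : V → V → V → ℝ) :
    E P n v (fun f => φ (f i) (f j) (f n)) =
      ∑ x, ∑ y, ∑ z, (P ^ i) v x * (P ^ (j - i)) x y * (P ^ (n - j)) y z * φ x y z := by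
  induction i generalizing j n v with
  | zero =>
    rw [E_zero_val P n v (fun a f => φ a (f j) (f n)), E_two P j n hj]
    simp [Matrix.one_apply]
  | succ i ih =>
    obtain ⟨n, rfl⟩ : ∃ m, n = m + 1 := ⟨n - 1, by omega⟩
    obtain ⟨j, rfl⟩ : ∃ m, j = m + 1 := ⟨j - 1, by omega⟩
    have h1 : E P (n + 1) v (fun f => φ (f (i + 1)) (f (j + 1)) (f (n + 1))) =
        ∑ w, P v w * E P n w (fun f => φ (f i) (f j) (f n)) := rfl
    rw [h1]
    simp_rw [ih j n (by omega) (by omega)]
    have h2 : n + 1 - (j + 1) = n - j := by omega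
    have h3 : j + 1 - (i + 1) = j - i := by omega
    rw [h2, h3, pow_succ']
    simp_rw [Matrix.mul_apply (M := P) (N := P ^ i), Finset.mul_sum, Finset.sum_mul]
    rw [Finset.sum_comm]
    refine Finset.sum_congr rfl fun x _ => ?_
    rw [Finset.sum_comm]
    refine Finset.sum_congr rfl fun y _ => ?_
    rw [Finset.sum_comm]
    refine Finset.sum_congr rfl fun z _ => Finset.sum_congr rfl fun w _ => by ring

omit [DecidableEq V] in
lemma E_mono (P : Matrix V V ℝ) (G : V → V → Prop) (hP : ∀ u v, 0 ≤ P u v)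
    (hP0 : ∀ u v, ¬ G u v → P u v = 0) (n : ℕ) (v : V) (g h : (ℕ → V) → ℝ)
    (hgh : ∀ f : ℕ → V, f 0 = v → (∀ i < n, G (f i) (f (i + 1))) → g f ≤ h f) :
    E P n v g ≤ E P n v h := by
  induction n generalizing v g h with
  | zero => exact hgh _ rfl (by simp)
  | succ n ih =>
    refine Finset.sum_le_sum fun w _ => ?_
    by_cases hw : G v w
    · refine mul_le_mul_of_nonneg_left (ih _ _ _ ?_) (hP _ _)
      intro f hf0 hf
      apply hgh _ rfl
      intro i hi
      cases i with
      | zero => simpa [cons, hf0] using hw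
      | succ i => exact hf i (by omega)
    · rw [hP0 _ _ hw]; simp

omit [DecidableEq V] in
lemma E_sum (P : Matrix V V ℝ) (n : ℕ) (v : V) {ι : Type*} (s : Finset ι)
    (g : ι → (ℕ → V) → ℝ) :
    E P n v (fun f => ∑ p ∈ s, g p f) = ∑ p ∈ s, E P n v (g p) := by
  induction n generalizing v g with
  | zero => rfl
  | succ n ih =>
    have h1 : E P (n + 1) v (fun f => ∑ p ∈ s, g p f) =
        ∑ w, P v w * E P n w (fun f => ∑ p ∈ s, g p (cons v f)) := rfl
    rw [h1]
    simp_rw [ih _ (fun p f => g p (cons v f))]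
    simp_rw [Finset.mul_sum]
    rw [Finset.sum_comm]
    rfl

end CW

open CW

theorem closed_walk {V : Type*} [Fintype V] [DecidableEq V] [Nonempty V]
    (G : V → V → Prop) [DecidableRel G] (hG : ∀ u v, G u v → G v u)
    (conf : V → V → Prop) [DecidableRel conf] (hc : ∀ u v, conf u v → conf v u)
    (ε : ℝ) (hε : 0 ≤ ε) (k : ℕ) (hk : 1 ≤ k)
    (hdeg : ∀ v, 0 < (univ.filter fun w => G v w).card)
    (hconf : ∀ u v, ((univ.filter fun w => G v w ∧ conf w u).card : ℝ) ≤
      ε * ((univ.filter fun w => G v w).card : ℝ))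
    (hbig : (4 * (k : ℝ) ^ 4 * ε) ^ k * (Fintype.card V : ℝ) < 1) :
    ∃ f : ℕ → V, f (2 * k) = f 0 ∧ (∀ i < 2 * k, G (f i) (f (i + 1))) ∧
      ∀ i < 2 * k, ∀ j < 2 * k, i ≠ j → ¬ conf (f i) (f j) := by
  classical
  by_contra hno
  push Not at hno
  set deg : V → ℝ := fun v => ((univ.filter fun w => G v w).card : ℝ) with hdegdef
  have hdegpos : ∀ v, 0 < deg v := fun v => by
    simp only [hdegdef]; exact_mod_cast hdeg v
  have hsq : ∀ v, 0 < √(deg v) := fun v => Real.sqrt_pos.mpr (hdegpos v)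
  have hsqsq : ∀ v, √(deg v) * √(deg v) = deg v := fun v => Real.mul_self_sqrt (hdegpos v).le
  set P : Matrix V V ℝ := fun u v => if G u v then 1 / (√(deg u) * √(deg v)) else 0 with hPdef
  have hPapp : ∀ u v, P u v = if G u v then 1 / (√(deg u) * √(deg v)) else 0 := fun u v => rfl
  have hP : ∀ u v, 0 ≤ P u v := by
    intro u v
    rw [hPapp]
    split_ifs
    · have := hsq u; have := hsq v; positivity
    · exact le_rfl
  have hP0 : ∀ u v, ¬ G u v → P u v = 0 := by
    intro u v h
    rw [hPapp, if_neg h]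
  have hPT : P.transpose = P := by
    ext u v
    rw [Matrix.transpose_apply, hPapp, hPapp]
    by_cases h : G u v
    · rw [if_pos h, if_pos (hG _ _ h), mul_comm]
    · rw [if_neg h, if_neg (fun h' => h (hG _ _ h'))]
  have hPnT : ∀ n, (P ^ n).transpose = P ^ n := by
    intro n; rw [Matrix.transpose_pow, hPT]
  have hPnsymm : ∀ n u v, (P ^ n) u v = (P ^ n) v u := by
    intro n u v
    conv_lhs => rw [← hPnT n]
    rfl
  have hPn : ∀ n u v, 0 ≤ (P ^ n) u v := by
    intro n
    induction n with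
    | zero => intro u v; simp only [pow_zero, Matrix.one_apply]; split_ifs <;> norm_num
    | succ n ih =>
      intro u v
      rw [pow_succ, Matrix.mul_apply]
      exact Finset.sum_nonneg fun w _ => mul_nonneg (ih _ _) (hP _ _)
  set t : ℕ → ℝ := fun n => ∑ u, ∑ v, ((P ^ n) u v) ^ 2 with htdef
  have htapp : ∀ n, t n = ∑ u, ∑ v, ((P ^ n) u v) ^ 2 := fun n => rfl
  -- trace formula
  have htrace : ∀ a b n : ℕ, a + b = 2 * n → ∑ u, ∑ v, (P ^ a) u v * (P ^ b) v u = t n := by
    intro a b n hab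
    have h1 : ∀ a b : ℕ, ∑ u, ∑ v, (P ^ a) u v * (P ^ b) v u = ∑ u, (P ^ (a + b)) u u := by
      intro a b
      rw [pow_add]
      rfl
    rw [h1, hab, two_mul, ← h1 n n, htapp]
    refine Finset.sum_congr rfl fun u _ => Finset.sum_congr rfl fun v _ => ?_
    rw [hPnsymm n v u, sq]
  have ht0 : t 0 = (Fintype.card V : ℝ) := by
    rw [htapp]
    simp [Matrix.one_apply]
  -- eigenvector
  have hPφ : ∀ u, ∑ v, P u v * √(deg v) = √(deg u) := by
    intro u
    have h1 : ∀ v, P u v * √(deg v) = if G u v then 1 / √(deg u) else 0 := by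
      intro v
      rw [hPapp]
      split_ifs
      · have := hsq u; have := hsq v; field_simp
      · simp
    simp_rw [h1]
    rw [← Finset.sum_filter, Finset.sum_const, nsmul_eq_mul]
    have h2 : ((univ.filter fun w => G u w).card : ℝ) = √(deg u) * √(deg u) := by
      rw [hsqsq]
    rw [h2]
    have := hsq u
    field_simp
  have hPnφ : ∀ n u, ∑ v, (P ^ n) u v * √(deg v) = √(deg u) := by
    intro n
    induction n with
    | zero => intro u; simp [Matrix.one_apply]
    | succ n ih =>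
      intro u
      rw [pow_succ']
      simp_rw [Matrix.mul_apply, Finset.sum_mul]
      rw [Finset.sum_comm]
      have : ∀ w, ∑ v, P u w * (P ^ n) w v * √(deg v) = P u w * √(deg w) := by
        intro w
        rw [← ih w, Finset.mul_sum]
        refine Finset.sum_congr rfl fun v _ => by ring
      simp_rw [this]
      exact hPφ u
  have htot : 0 < ∑ v, deg v := Finset.sum_pos (fun v _ => hdegpos v) univ_nonempty
  have ht1 : ∀ n, 1 ≤ t n := by
    intro n
    have h1 : ∀ u, deg u ≤ (∑ v, ((P ^ n) u v) ^ 2) * ∑ v, deg v := by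
      intro u
      have := Finset.sum_mul_sq_le_sq_mul_sq univ (fun v => (P ^ n) u v) (fun v => √(deg v))
      rw [hPnφ n u] at this
      have h2 : ∀ v, √(deg v) ^ 2 = deg v := fun v => by rw [sq, hsqsq]
      simp_rw [h2] at this
      exact this
    have h2 : ∑ u, deg u ≤ t n * ∑ v, deg v := by
      rw [htapp, Finset.sum_mul]
      exact Finset.sum_le_sum fun u _ => h1 u
    by_contra hlt
    push Not at hlt
    have : t n * ∑ v, deg v < 1 * ∑ v, deg v := mul_lt_mul_of_pos_right hlt htot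
    linarith
  have htpos : ∀ n, 0 < t n := fun n => lt_of_lt_of_le one_pos (ht1 n)
  -- log convexity
  have hlc : ∀ n, t (n + 1) ^ 2 ≤ t n * t (n + 2) := by
    intro n
    have h1 := htrace n (n + 2) (n + 1) (by ring)
    rw [← h1]
    have h2 := Finset.sum_mul_sq_le_sq_mul_sq (univ : Finset (V × V))
      (fun p => (P ^ n) p.1 p.2) (fun p => (P ^ (n + 2)) p.2 p.1)
    rw [Fintype.sum_prod_type, Fintype.sum_prod_type, Fintype.sum_prod_type] at h2
    refine h2.trans (le_of_eq ?_)
    rw [htapp n, htapp (n + 2)]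
    congr 1
    refine Finset.sum_congr rfl fun u _ => Finset.sum_congr rfl fun v _ => ?_
    simp only
    rw [hPnsymm]
  have hratio : ∀ n, t n ^ (n + 1) ≤ t 0 * t (n + 1) ^ n := by
    intro n
    induction n with
    | zero => simp
    | succ n ih =>
      have h1 : (t (n + 1) ^ 2) ^ (n + 1) ≤ (t n * t (n + 2)) ^ (n + 1) :=
        pow_le_pow_left₀ (by positivity) (hlc n) _
      rw [mul_pow] at h1
      have h2 : t n ^ (n + 1) * t (n + 2) ^ (n + 1) ≤
          (t 0 * t (n + 1) ^ n) * t (n + 2) ^ (n + 1) :=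
        mul_le_mul_of_nonneg_right ih (by have := htpos (n + 2); positivity)
      have h3 : t (n + 1) ^ n * t (n + 1) ^ (n + 2) ≤
          t (n + 1) ^ n * (t 0 * t (n + 2) ^ (n + 1)) := by
        calc t (n + 1) ^ n * t (n + 1) ^ (n + 2) = (t (n + 1) ^ 2) ^ (n + 1) := by ring
          _ ≤ _ := h1
          _ ≤ _ := h2
          _ = _ := by ring
      exact le_of_mul_le_mul_left h3 (by have := htpos (n + 1); positivity)
  -- conflict sums
  set S : ℕ → ℝ := fun d => ∑ x, ∑ z, (P ^ d) x z * (P ^ (2 * k - d)) z x *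
    (if conf x z then 1 else 0) with hSdef
  have hSapp : ∀ d, S d = ∑ x, ∑ z, (P ^ d) x z * (P ^ (2 * k - d)) z x *
    (if conf x z then 1 else 0) := fun d => rfl
  have hSbound1 : ∀ d, 1 ≤ d → d ≤ k → S d ^ 2 ≤ ε * t (k - 1) * t k := by
    intro d hd1 hdk
    -- pc
    set pc : V → V → V → ℝ := fun x x2 y => ∑ z, (P ^ (d - 1)) x2 z * (P ^ (k - d)) z y *
      (if conf x z then 1 else 0) with hpcdef
    have hpcapp : ∀ x x2 y, pc x x2 y = ∑ z, (P ^ (d - 1)) x2 z * (P ^ (k - d)) z y *
      (if conf x z then 1 else 0) := fun _ _ _ => rfl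
    have hpc0 : ∀ x x2 y, 0 ≤ pc x x2 y := by
      intro x x2 y
      refine Finset.sum_nonneg fun z _ => mul_nonneg (mul_nonneg (hPn _ _ _) (hPn _ _ _)) ?_
      split_ifs <;> norm_num
    have hpk : ∀ x2 y, ∑ z, (P ^ (d - 1)) x2 z * (P ^ (k - d)) z y = (P ^ (k - 1)) x2 y := by
      intro x2 y
      have : k - 1 = (d - 1) + (k - d) := by omega
      rw [this, pow_add]
      rfl
    have hpcle : ∀ x x2 y, pc x x2 y ≤ (P ^ (k - 1)) x2 y := by
      intro x x2 y
      rw [← hpk]
      refine Finset.sum_le_sum fun z _ => ?_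
      have := mul_nonneg (hPn (d - 1) x2 z) (hPn (k - d) z y)
      split_ifs
      · simp
      · simpa using this
    have hSeq : S d = ∑ p : V × V × V,
        ((if G p.1 p.2.1 then 1 / √(deg p.2.1) else 0) * pc p.1 p.2.1 p.2.2) *
        ((if G p.1 p.2.1 then 1 / √(deg p.1) else 0) * (P ^ k) p.2.2 p.1) := by
      rw [hSapp, Fintype.sum_prod_type]
      simp_rw [Fintype.sum_prod_type]
      refine Finset.sum_congr rfl fun x _ => ?_
      have h1 : ∀ z, (P ^ d) x z = ∑ x2, P x x2 * (P ^ (d - 1)) x2 z := by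
        intro z
        have : d = (d - 1) + 1 := by omega
        conv_lhs => rw [this, pow_succ']
        rfl
      have h2 : ∀ z, (P ^ (2 * k - d)) z x = ∑ y, (P ^ (k - d)) z y * (P ^ k) y x := by
        intro z
        have : 2 * k - d = (k - d) + k := by omega
        rw [this, pow_add]
        rfl
      have h3 : ∀ z, (P ^ d) x z * (P ^ (2 * k - d)) z x * (if conf x z then 1 else 0) =
          ∑ x2, ∑ y, P x x2 * (P ^ k) y x * ((P ^ (d - 1)) x2 z * (P ^ (k - d)) z y *
            (if conf x z then 1 else 0)) := by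
        intro z
        rw [h1, h2, Finset.sum_mul_sum, Finset.sum_mul]
        refine Finset.sum_congr rfl fun x2 _ => ?_
        rw [Finset.sum_mul]
        refine Finset.sum_congr rfl fun y _ => ?_
        ring
      simp_rw [h3]
      rw [Finset.sum_comm]
      refine Finset.sum_congr rfl fun x2 _ => ?_
      rw [Finset.sum_comm]
      refine Finset.sum_congr rfl fun y _ => ?_
      rw [← Finset.mul_sum, ← hpcapp, hPapp]
      by_cases h : G x x2
      · simp only [if_pos h]
        have := hsq x; have := hsq x2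
        field_simp
      · simp only [if_neg h]
        ring
    have hCS := Finset.sum_mul_sq_le_sq_mul_sq (univ : Finset (V × V × V))
      (fun p => (if G p.1 p.2.1 then 1 / √(deg p.2.1) else 0) * pc p.1 p.2.1 p.2.2)
      (fun p => (if G p.1 p.2.1 then 1 / √(deg p.1) else 0) * (P ^ k) p.2.2 p.1)
    rw [← hSeq] at hCS
    refine hCS.trans ?_
    have hsecond : ∑ p : V × V × V, ((if G p.1 p.2.1 then 1 / √(deg p.1) else 0) *
        (P ^ k) p.2.2 p.1) ^ 2 = t k := by
      rw [Fintype.sum_prod_type]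
      simp_rw [Fintype.sum_prod_type]
      rw [htapp]
      refine Finset.sum_congr rfl fun x _ => ?_
      rw [Finset.sum_comm]
      refine Finset.sum_congr rfl fun y _ => ?_
      have h1 : ∀ x2, ((if G x x2 then 1 / √(deg x) else 0) * (P ^ k) y x) ^ 2 =
          if G x x2 then (1 / deg x) * ((P ^ k) y x) ^ 2 else 0 := by
        intro x2
        split_ifs
        · rw [mul_pow, div_pow, one_pow, sq (√(deg x)), hsqsq]
        · simp
      simp_rw [h1]
      rw [← Finset.sum_filter, Finset.sum_const, nsmul_eq_mul]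
      have h2 : ((univ.filter fun w => G x w).card : ℝ) = deg x := rfl
      rw [h2, ← mul_assoc, mul_one_div_cancel (hdegpos x).ne', one_mul, hPnsymm]
    have hfirst : ∑ p : V × V × V, ((if G p.1 p.2.1 then 1 / √(deg p.2.1) else 0) *
        pc p.1 p.2.1 p.2.2) ^ 2 ≤ ε * t (k - 1) := by
      rw [Fintype.sum_prod_type]
      simp_rw [Fintype.sum_prod_type]
      rw [Finset.sum_comm, htapp, Finset.mul_sum]
      refine Finset.sum_le_sum fun x2 _ => ?_
      rw [Finset.sum_comm, Finset.mul_sum]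
      refine Finset.sum_le_sum fun y _ => ?_
      have h1 : ∀ x, ((if G x x2 then 1 / √(deg x2) else 0) * pc x x2 y) ^ 2 ≤
          (1 / deg x2) * (P ^ (k - 1)) x2 y * ((if G x2 x then 1 else 0) * pc x x2 y) := by
        intro x
        by_cases h : G x x2
        · rw [if_pos h, if_pos (hG _ _ h), mul_pow, div_pow, one_pow, sq (√(deg x2)), hsqsq,
            one_mul, mul_assoc]
          refine mul_le_mul_of_nonneg_left ?_ (by have := hdegpos x2; positivity)
          rw [sq]
          exact mul_le_mul_of_nonneg_right (hpcle _ _ _) (hpc0 _ _ _)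
        · rw [if_neg h, if_neg (fun h' => h (hG _ _ h'))]
          simp
      refine (Finset.sum_le_sum fun x _ => h1 x).trans ?_
      rw [← Finset.mul_sum]
      have h2 : ∑ x, ((if G x2 x then 1 else 0) * pc x x2 y) ≤
          ε * deg x2 * (P ^ (k - 1)) x2 y := by
        simp_rw [hpcapp, Finset.mul_sum]
        rw [Finset.sum_comm, ← hpk, Finset.mul_sum]
        refine Finset.sum_le_sum fun z _ => ?_
        have h3 : ∀ x, (if G x2 x then (1 : ℝ) else 0) * ((P ^ (d - 1)) x2 z * (P ^ (k - d)) z y *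
            (if conf x z then 1 else 0)) = ((P ^ (d - 1)) x2 z * (P ^ (k - d)) z y) *
            (if G x2 x ∧ conf x z then 1 else 0) := by
          intro x
          by_cases hA : G x2 x <;> by_cases hB : conf x z <;> simp [hA, hB]
        simp_rw [h3]
        rw [← Finset.mul_sum, Finset.sum_boole, mul_comm]
        exact mul_le_mul_of_nonneg_right (hconf z x2) (mul_nonneg (hPn _ _ _) (hPn _ _ _))
      refine (mul_le_mul_of_nonneg_left h2 (mul_nonneg (by have := hdegpos x2; positivity)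
        (hPn _ _ _))).trans (le_of_eq ?_)
      have := hdegpos x2
      field_simp
    rw [hsecond]
    exact mul_le_mul_of_nonneg_right hfirst (htpos k).le
  have hSsymm : ∀ d, d ≤ 2 * k → S (2 * k - d) = S d := by
    intro d hd
    rw [hSapp, hSapp, Finset.sum_comm]
    refine Finset.sum_congr rfl fun x _ => Finset.sum_congr rfl fun z _ => ?_
    have h1 : 2 * k - (2 * k - d) = d := by omega
    rw [h1]
    have h2 : (if conf z x then (1 : ℝ) else 0) = if conf x z then 1 else 0 := by
      by_cases h : conf x z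
      · rw [if_pos h, if_pos (hc _ _ h)]
      · rw [if_neg h, if_neg (fun h' => h (hc _ _ h'))]
    rw [h2]
    ring
  have hSbound : ∀ d, 1 ≤ d → d < 2 * k → S d ≤ √(ε * t (k - 1) * t k) := by
    intro d hd1 hd2
    by_cases hdk : d ≤ k
    · exact Real.le_sqrt_of_sq_le (hSbound1 d hd1 hdk)
    · rw [← hSsymm d hd2.le]
      exact Real.le_sqrt_of_sq_le (hSbound1 (2 * k - d) (by omega) (by omega))
  -- union bound
  have hunion : t k ≤ ∑ p ∈ ((range (2 * k)) ×ˢ (range (2 * k))).filter (fun p => p.1 < p.2),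
      S (p.2 - p.1) := by
    have h1 : t k = ∑ v, E P (2 * k) v (fun f => if f (2 * k) = v then 1 else 0) := by
      rw [← htrace k k k (by ring)]
      have h2 : ∀ v, E P (2 * k) v (fun f => if f (2 * k) = v then (1 : ℝ) else 0) =
          (P ^ (2 * k)) v v := by
        intro v
        rw [E_last P (2 * k) v (fun z => if z = v then (1 : ℝ) else 0)]
        simp
      simp_rw [h2, two_mul, pow_add]
      rfl
    rw [h1]
    have h3 : ∀ v, E P (2 * k) v (fun f => if f (2 * k) = v then 1 else 0) ≤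
        E P (2 * k) v (fun f => ∑ p ∈ ((range (2 * k)) ×ˢ (range (2 * k))).filter
          (fun p => p.1 < p.2), if f (2 * k) = v ∧ conf (f p.1) (f p.2) then 1 else 0) := by
      intro v
      apply E_mono P G hP hP0
      intro f hf0 hf
      split_ifs with hv
      · obtain ⟨i, hi, j, hj, hij, hcf⟩ := hno f (by rw [hv, hf0]) hf
        obtain ⟨a, b, ha, hb, hab, hcab⟩ : ∃ a b, a < 2 * k ∧ b < 2 * k ∧ a < b ∧
            conf (f a) (f b) := by
          rcases lt_or_gt_of_ne hij with h | h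
          · exact ⟨i, j, hi, hj, h, hcf⟩
          · exact ⟨j, i, hj, hi, h, hc _ _ hcf⟩
        have hmem : (a, b) ∈ ((range (2 * k)) ×ˢ (range (2 * k))).filter
            (fun p => p.1 < p.2) := by
          simp [ha, hb, hab]
        have := Finset.single_le_sum (f := fun p : ℕ × ℕ =>
          if f (2 * k) = v ∧ conf (f p.1) (f p.2) then (1 : ℝ) else 0)
          (fun p _ => by split_ifs <;> norm_num) hmem
        refine le_trans ?_ this
        simp [hv, hcab]
      · exact Finset.sum_nonneg fun p _ => by split_ifs <;> norm_num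
    refine (Finset.sum_le_sum fun v _ => h3 v).trans (le_of_eq ?_)
    simp_rw [E_sum P (2 * k) _ _
      (fun (p : ℕ × ℕ) (f : ℕ → V) => if f (2 * k) = _ ∧ conf (f p.1) (f p.2) then (1 : ℝ) else 0)]
    rw [Finset.sum_comm]
    refine Finset.sum_congr rfl fun p hp => ?_
    simp only [mem_filter, mem_product, mem_range] at hp
    obtain ⟨⟨hp1, hp2⟩, hp3⟩ := hp
    have h4 : ∀ v, E P (2 * k) v
        (fun f => if f (2 * k) = v ∧ conf (f p.1) (f p.2) then (1 : ℝ) else 0) =
        ∑ x, ∑ y, (P ^ p.1) v x * (P ^ (p.2 - p.1)) x y * (P ^ (2 * k - p.2)) y v *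
          (if conf x y then 1 else 0) := by
      intro v
      rw [E_three P p.1 p.2 (2 * k) hp3.le hp2.le v
        (fun x y z => if z = v ∧ conf x y then (1 : ℝ) else 0)]
      refine Finset.sum_congr rfl fun x _ => Finset.sum_congr rfl fun y _ => ?_
      rw [Finset.sum_eq_single v]
      · simp
      · intro z _ hz
        simp [hz]
      · intro h; exact absurd (mem_univ v) h
    simp_rw [h4]
    rw [Finset.sum_comm, hSapp]
    refine Finset.sum_congr rfl fun x _ => ?_
    rw [Finset.sum_comm]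
    refine Finset.sum_congr rfl fun y _ => ?_
    have h5 : 2 * k - (p.2 - p.1) = (2 * k - p.2) + p.1 := by omega
    rw [h5, pow_add, Matrix.mul_apply, Finset.mul_sum, Finset.sum_mul]
    refine Finset.sum_congr rfl fun v _ => ?_
    ring
  have hcard : ((((range (2 * k)) ×ˢ (range (2 * k))).filter (fun p : ℕ × ℕ => p.1 < p.2)).card : ℝ)
      ≤ 2 * (k : ℝ) ^ 2 := by
    have h1 : 2 * (((range (2 * k)) ×ˢ (range (2 * k))).filter
        (fun p : ℕ × ℕ => p.1 < p.2)).card ≤ (2 * k) * (2 * k) := by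
      have h2 : (((range (2 * k)) ×ˢ (range (2 * k))).filter
        (fun p : ℕ × ℕ => p.1 < p.2)).card = (((range (2 * k)) ×ˢ (range (2 * k))).filter
        (fun p : ℕ × ℕ => p.2 < p.1)).card := by
        refine Finset.card_bij (fun p _ => (p.2, p.1)) ?_ ?_ ?_
        · intro p hp
          simp only [mem_filter, mem_product, mem_range] at hp ⊢
          tauto
        · rintro ⟨a, b⟩ _ ⟨c, d⟩ _ h
          simp only [Prod.mk.injEq] at h ⊢
          tauto
        · rintro ⟨a, b⟩ hb
          simp only [mem_filter, mem_product, mem_range] at hb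
          refine ⟨(b, a), ?_, rfl⟩
          simp only [mem_filter, mem_product, mem_range]
          tauto
      have h3 : Disjoint (((range (2 * k)) ×ˢ (range (2 * k))).filter
          (fun p : ℕ × ℕ => p.1 < p.2)) (((range (2 * k)) ×ˢ (range (2 * k))).filter
          (fun p : ℕ × ℕ => p.2 < p.1)) := by
        rw [Finset.disjoint_filter]
        intro p _ h1 h2
        omega
      have h4 : (((range (2 * k)) ×ˢ (range (2 * k))).filter
          (fun p : ℕ × ℕ => p.1 < p.2) ∪ ((range (2 * k)) ×ˢ (range (2 * k))).filter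
          (fun p : ℕ × ℕ => p.2 < p.1)).card ≤ ((range (2 * k)) ×ˢ (range (2 * k))).card := by
        refine Finset.card_le_card ?_
        exact Finset.union_subset (Finset.filter_subset _ _) (Finset.filter_subset _ _)
      rw [Finset.card_union_of_disjoint h3, ← h2, Finset.card_product, Finset.card_range] at h4
      omega
    have h5 : (2 : ℝ) * ((((range (2 * k)) ×ˢ (range (2 * k))).filter
        (fun p : ℕ × ℕ => p.1 < p.2)).card : ℝ) ≤ (2 * k) * (2 * k) := by
      exact_mod_cast h1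
    nlinarith
  have hfin : t k ≤ 2 * (k : ℝ) ^ 2 * √(ε * t (k - 1) * t k) := by
    refine hunion.trans ?_
    have h1 : ∑ p ∈ ((range (2 * k)) ×ˢ (range (2 * k))).filter (fun p => p.1 < p.2),
        S (p.2 - p.1) ≤ ∑ p ∈ ((range (2 * k)) ×ˢ (range (2 * k))).filter (fun p => p.1 < p.2),
        √(ε * t (k - 1) * t k) := by
      refine Finset.sum_le_sum fun p hp => ?_
      simp only [mem_filter, mem_product, mem_range] at hp
      exact hSbound _ (by omega) (by omega)
    refine h1.trans ?_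
    rw [Finset.sum_const, nsmul_eq_mul]
    exact mul_le_mul_of_nonneg_right hcard (Real.sqrt_nonneg _)
  have hsq2 : t k ^ 2 ≤ 4 * (k : ℝ) ^ 4 * (ε * t (k - 1) * t k) := by
    have h1 : t k ^ 2 ≤ (2 * (k : ℝ) ^ 2 * √(ε * t (k - 1) * t k)) ^ 2 :=
      pow_le_pow_left₀ (htpos k).le hfin 2
    have h2 : 0 ≤ ε * t (k - 1) * t k := by
      have := htpos (k - 1); have := htpos k; positivity
    rw [mul_pow, Real.sq_sqrt h2] at h1
    refine h1.trans (le_of_eq ?_)
    ring
  have hlin : t k ≤ 4 * (k : ℝ) ^ 4 * ε * t (k - 1) := by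
    have h1 : t k * t k ≤ t k * (4 * (k : ℝ) ^ 4 * ε * t (k - 1)) := by
      calc t k * t k = t k ^ 2 := by ring
        _ ≤ _ := hsq2
        _ = _ := by ring
    exact le_of_mul_le_mul_left h1 (htpos k)
  have hpow : t k ^ k ≤ (4 * (k : ℝ) ^ 4 * ε) ^ k * (t 0 * t k ^ (k - 1)) := by
    have h1 : t k ^ k ≤ (4 * (k : ℝ) ^ 4 * ε * t (k - 1)) ^ k :=
      pow_le_pow_left₀ (htpos k).le hlin k
    rw [mul_pow] at h1
    refine h1.trans (mul_le_mul_of_nonneg_left ?_ (by positivity))
    have h2 := hratio (k - 1)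
    rwa [Nat.sub_add_cancel hk] at h2
  have hlast : t k ≤ (4 * (k : ℝ) ^ 4 * ε) ^ k * (Fintype.card V : ℝ) := by
    have h1 : t k ^ (k - 1) * t k ≤
        t k ^ (k - 1) * ((4 * (k : ℝ) ^ 4 * ε) ^ k * (Fintype.card V : ℝ)) := by
      calc t k ^ (k - 1) * t k = t k ^ k := by
            rw [← pow_succ, Nat.sub_add_cancel hk]
        _ ≤ _ := hpow
        _ = _ := by rw [ht0]; ring
    exact le_of_mul_le_mul_left h1 (by have := htpos k; positivity)
  have := ht1 k
  linarith

end Pool.Agent.Lib.MP_a2fd8c_co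
end
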