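import Mathlib
import Pool.Agent.Lib.MP_a2fd8c_co.ClosedWalk

section

/-!
The host graph for the disproof of `MP_a2fd8c_co`: closure theorem, `K_{2,2}`-freeness, edges.
-/

namespace Pool.Agent.Lib.MP_a2fd8c_co

section Bform

variable {F : Type*} [Field F]

/-- the symmetric form whose zeros are the incidences of the host graph -/
def Bf (v w : F × F) : F := v.2 + w.2 - v.1 * w.1

theorem Bf_comm (v w : F × F) : Bf v w = Bf w v := by
  unfold Bf; ring

theorem host_adj_iff (v w : F × F) : (host F).Adj v w ↔ v ≠ w ∧ Bf v w = 0 := by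
  unfold host Bf
  rw [SimpleGraph.fromRel_adj]
  constructor
  · rintro ⟨h1, h2 | h2⟩
    · exact ⟨h1, by rw [h2]; ring⟩
    · exact ⟨h1, by linear_combination h2⟩
  · rintro ⟨h1, h2⟩
    exact ⟨h1, Or.inl (by linear_combination h2)⟩

theorem Bf_affine {s v w u : F × F} (hv : Bf s v = 0) (hw : Bf s w = 0) (hu : Bf s u = 0)
    (hne : v ≠ w) :
    ∃ α β : F, α + β = 1 ∧ ∀ l : F × F, Bf l u = α * Bf l v + β * Bf l w := by
  unfold Bf at hv hw hu
  have h1 : v.1 ≠ w.1 := by
    intro h
    apply hne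
    ext
    · exact h
    · have : s.1 * v.1 = s.1 * w.1 := by rw [h]
      linear_combination hv - hw + this
  have h1' : v.1 - w.1 ≠ 0 := sub_ne_zero.2 h1
  refine ⟨(u.1 - w.1) / (v.1 - w.1), (v.1 - u.1) / (v.1 - w.1), ?_, ?_⟩
  · rw [← add_div]
    rw [div_eq_one_iff_eq h1']
    ring
  · intro l
    unfold Bf
    field_simp
    linear_combination (v.1 - w.1) * hu - (u.1 - w.1) * hv - (v.1 - u.1) * hw

theorem cross {α β p q p' q' : F} (h : α + β = 1) (h1 : α * p + β * q = 0)
    (h2 : α * p' + β * q' = 0) : p * q' = q * p' := by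
  have e1 : α * (p * q' - q * p') = 0 := by linear_combination q' * h1 - q * h2
  have e2 : β * (p * q' - q * p') = 0 := by linear_combination p * h2 - p' * h1
  have : (α + β) * (p * q' - q * p') = 0 := by rw [add_mul, e1, e2, add_zero]
  rw [h, one_mul] at this
  exact sub_eq_zero.1 this

end Bform

theorem host_closure (F : Type*) [Field F] (m : ℕ) (hm : 2 ≤ m) :
    IsEmpty (HG m ↪g host F) := by
  refine ⟨fun f => ?_⟩
  have hm0 : 0 < m := by omega
  -- zero of the form at incidences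
  have zero : ∀ x y : HV m, hrel x y → x ≠ y → Bf (f x) (f y) = 0 := by
    intro x y hxy hne
    have : (HG m).Adj x y := by
      rw [HG, SimpleGraph.fromRel_adj]
      exact ⟨hne, Or.inl hxy⟩
    exact ((host_adj_iff _ _).1 (f.map_rel_iff.2 this)).2
  -- nonzero at non-incidences
  have nonzero : ∀ x y : HV m, ¬ hrel x y → ¬ hrel y x → x ≠ y → Bf (f x) (f y) ≠ 0 := by
    intro x y h1 h2 hne h0
    have h3 : (host F).Adj (f x) (f y) := (host_adj_iff _ _).2 ⟨fun h => hne (f.injective h), h0⟩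
    have h4 : (HG m).Adj x y := f.map_rel_iff.1 h3
    rw [HG, SimpleGraph.fromRel_adj] at h4
    rcases h4.2 with h | h
    · exact h1 h
    · exact h2 h
  -- notation
  let idx : ℕ → Fin m := fun i => ⟨i % m, Nat.mod_lt _ hm0⟩
  have idx_lt : ∀ i, i < m → ((idx i : Fin m) : ℕ) = i := fun i hi => Nat.mod_eq_of_lt hi
  have idx_m : idx m = idx 0 := by
    apply Fin.ext; simp [idx]
  let Ov : F × F := f HV.O
  let bv : F × F := f HV.b
  let Av : ℕ → F × F := fun i => f (HV.A (idx i))
  let Qv : ℕ → F × F := fun i => f (HV.Q (idx i))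
  let Rv : ℕ → F × F := fun i => f (HV.R (idx i))
  let sv : ℕ → F × F := fun i => f (HV.s (idx i))
  let kv : ℕ → F × F := fun i => f (HV.k (idx i))
  let lv : ℕ → F × F := fun i => f (HV.l (idx i))
  have succ_idx : ∀ i, i < m → ((idx (i + 1) : Fin m) : ℕ) = ((idx i : Fin m) + 1) % m := by
    intro i hi
    simp [idx]
  have Os : ∀ i, Bf (sv i) Ov = 0 := by
    intro i
    rw [Bf_comm]
    exact zero _ _ (by trivial) (by simp)
  have As : ∀ i, Bf (sv i) (Av i) = 0 := by
    intro i
    rw [Bf_comm]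
    exact zero _ _ rfl (by simp)
  have Qs : ∀ i, Bf (sv i) (Qv i) = 0 := by
    intro i
    rw [Bf_comm]
    exact zero _ _ rfl (by simp)
  have Ak : ∀ i, Bf (kv i) (Av i) = 0 := by
    intro i
    rw [Bf_comm]
    exact zero _ _ (Or.inl rfl) (by simp)
  have Ak' : ∀ i < m, Bf (kv i) (Av (i + 1)) = 0 := by
    intro i hi
    rw [Bf_comm]
    exact zero _ _ (Or.inr (succ_idx i hi)) (by simp)
  have Ql : ∀ i, Bf (lv i) (Qv i) = 0 := by
    intro i
    rw [Bf_comm]
    exact zero _ _ (Or.inl rfl) (by simp)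
  have Ql' : ∀ i < m, Bf (lv i) (Qv (i + 1)) = 0 := by
    intro i hi
    rw [Bf_comm]
    exact zero _ _ (Or.inr (succ_idx i hi)) (by simp)
  have Rk : ∀ i, Bf (kv i) (Rv i) = 0 := by
    intro i
    rw [Bf_comm]
    exact zero _ _ rfl (by simp)
  have Rl : ∀ i, Bf (lv i) (Rv i) = 0 := by
    intro i
    rw [Bf_comm]
    exact zero _ _ rfl (by simp)
  have Rb : ∀ i, i + 1 < m → Bf bv (Rv i) = 0 := by
    intro i hi
    rw [Bf_comm]
    refine zero _ _ ?_ (by simp)
    change ((idx i : Fin m) : ℕ) + 1 < m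
    rw [idx_lt i (by omega)]
    exact hi
  have Rb' : Bf bv (Rv (m - 1)) ≠ 0 := by
    rw [Bf_comm]
    refine nonzero _ _ ?_ (by simp [hrel]) (by simp)
    change ¬ (((idx (m - 1) : Fin m) : ℕ) + 1 < m)
    rw [idx_lt (m - 1) (by omega)]
    omega
  have ho : ∀ i, Bf (lv i) Ov ≠ 0 := fun i => nonzero _ _ (by simp [hrel]) (by simp [hrel]) (by simp)
  have ha : ∀ i j, Bf (lv i) (Av j) ≠ 0 := fun i j =>
    nonzero _ _ (by simp [hrel]) (by simp [hrel]) (by simp)
  have hb : ∀ i, Bf bv (Av i) ≠ 0 := fun i => nonzero _ _ (by simp [hrel]) (by simp [hrel]) (by simp)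
  have hOA : ∀ i, Ov ≠ Av i := by
    intro i h
    have := f.injective h
    simp at this
  have hAA : ∀ i < m, Av i ≠ Av (i + 1) := by
    intro i hi h
    have h1 := f.injective h
    simp only [HV.A.injEq] at h1
    have h2 := congrArg Fin.val h1
    rw [succ_idx i hi, idx_lt i hi] at h2
    rcases Nat.lt_or_ge (i + 1) m with h3 | h3
    · rw [Nat.mod_eq_of_lt h3] at h2
      omega
    · have : i + 1 = m := by omega
      rw [this, Nat.mod_self] at h2
      omega
  -- relations from Q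
  have relQ : ∀ i < m, Bf (lv (i + 1)) Ov * Bf (lv i) (Av (i + 1)) =
      Bf (lv (i + 1)) (Av (i + 1)) * Bf (lv i) Ov := by
    intro i hi
    obtain ⟨α, β, hab, hl⟩ := Bf_affine (Os (i + 1)) (As (i + 1)) (Qs (i + 1)) (hOA (i + 1))
    refine cross hab ?_ ?_
    · rw [← hl]; exact Ql (i + 1)
    · rw [← hl]; exact Ql' i hi
  have relR : ∀ i, i + 1 < m → Bf (lv i) (Av i) * Bf bv (Av (i + 1)) =
      Bf (lv i) (Av (i + 1)) * Bf bv (Av i) := by
    intro i hi
    obtain ⟨α, β, hab, hl⟩ := Bf_affine (Ak i) (Ak' i (by omega)) (Rk i) (hAA i (by omega))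
    refine cross hab ?_ ?_
    · rw [← hl]; exact Rl i
    · rw [← hl]; exact Rb i hi
  have main : ∀ j < m, Bf (lv j) (Av j) * Bf (lv 0) Ov * Bf bv (Av 0) =
      Bf (lv 0) (Av 0) * Bf (lv j) Ov * Bf bv (Av j) := by
    intro j
    induction j with
    | zero => intro _; ring
    | succ j ih =>
      intro hj
      have ih' := ih (by omega)
      have q := relQ j (by omega)
      have r := relR j hj
      have hne : Bf (lv j) Ov * Bf (lv j) (Av j) ≠ 0 := mul_ne_zero (ho j) (ha j j)
      apply mul_left_cancel₀ hne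
      set oj := Bf (lv j) Ov
      set aj := Bf (lv j) (Av j)
      set a1 := Bf (lv (j + 1)) (Av (j + 1))
      set o1 := Bf (lv (j + 1)) Ov
      set a' := Bf (lv j) (Av (j + 1))
      set b1 := Bf bv (Av (j + 1))
      set bj := Bf bv (Av j)
      set o0 := Bf (lv 0) Ov
      set b0 := Bf bv (Av 0)
      set a0 := Bf (lv 0) (Av 0)
      -- q : o1 * a' = a1 * oj ; r : aj * b1 = a' * bj ; ih' : aj * o0 * b0 = a0 * oj * bj
      linear_combination (-(aj * o0 * b0)) * q + (o1 * a') * ih' - (a0 * o1 * oj) * r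
  have hlast := main (m - 1) (by omega)
  have hm1 : m - 1 + 1 = m := by omega
  have q := relQ (m - 1) (by omega)
  rw [hm1] at q
  have lvm : lv m = lv 0 := by simp only [lv, idx_m]
  have Avm : Av m = Av 0 := by simp only [Av, idx_m]
  rw [lvm, Avm] at q
  have hk := Ak' (m - 1) (by omega)
  have hAm := hAA (m - 1) (by omega)
  rw [hm1, Avm] at hk hAm
  obtain ⟨α, β, hab, hl⟩ := Bf_affine (Ak (m - 1)) hk (Rk (m - 1)) hAm
  have hR := hl (lv (m - 1))
  rw [Rl (m - 1)] at hR
  have hB := hl bv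
  apply Rb'
  have e1 : Bf (lv (m - 1)) (Av (m - 1)) * Bf bv (Av 0) =
      Bf (lv (m - 1)) (Av 0) * Bf bv (Av (m - 1)) := by
    apply mul_left_cancel₀ (ho 0)
    linear_combination hlast - (Bf bv (Av (m - 1))) * q
  apply (mul_eq_zero.1 (_ : Bf (lv (m - 1)) (Av (m - 1)) * Bf bv (Rv (m - 1)) = 0)).resolve_left
    (ha _ _)
  rw [hB]
  linear_combination β * e1 - (Bf bv (Av (m - 1))) * hR

theorem host_free (F : Type*) [Field F] :
    (completeBipartiteGraph (Fin 2) (Fin 2)).Free (host F) := by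
  rintro ⟨f⟩
  have adj : ∀ i j : Fin 2, Bf (f (Sum.inl i)) (f (Sum.inr j)) = 0 := by
    intro i j
    have h1 : (completeBipartiteGraph (Fin 2) (Fin 2)).Adj (Sum.inl i) (Sum.inr j) := by
      simp [completeBipartiteGraph]
    exact ((host_adj_iff _ _).1 (f.toHom.map_adj h1)).2
  have hl : f (Sum.inl 0) ≠ f (Sum.inl 1) := by
    intro h
    have := f.injective h
    simp at this
  have hr : f (Sum.inr 0) ≠ f (Sum.inr 1) := by
    intro h
    have := f.injective h
    simp at this
  have h00 := adj 0 0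
  have h01 := adj 0 1
  have h10 := adj 1 0
  have h11 := adj 1 1
  generalize f (Sum.inl 0) = v at *
  generalize f (Sum.inl 1) = w at *
  generalize f (Sum.inr 0) = c at *
  generalize f (Sum.inr 1) = d at *
  unfold Bf at h00 h01 h10 h11
  have h1 : v.1 ≠ w.1 := by
    intro h
    apply hl
    ext
    · exact h
    · linear_combination h00 - h10 + c.1 * h
  have h2 : c.1 = d.1 := by
    have : (v.1 - w.1) * (c.1 - d.1) = 0 := by
      linear_combination h10 - h00 - h11 + h01
    exact sub_eq_zero.1 ((mul_eq_zero.1 this).resolve_left (sub_ne_zero.2 h1))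
  apply hr
  ext
  · exact h2
  · linear_combination h00 - h01 + v.1 * h2

theorem host_edges (p : ℕ) [Fact p.Prime] :
    (p : ℝ) ^ 2 * (p - 1) / 2 ≤ ((host (ZMod p)).edgeSet.ncard : ℝ) := by
  classical
  have hp1 : 1 ≤ p := (Fact.out : p.Prime).one_lt.le
  have deg : ∀ v : ZMod p × ZMod p, p - 1 ≤ (host (ZMod p)).degree v := by
    intro v
    rw [← SimpleGraph.card_neighborFinset_eq_degree]
    have hsub : (Finset.univ.image fun a : ZMod p => (a, v.1 * a - v.2)).erase v ⊆
        (host (ZMod p)).neighborFinset v := by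
      intro w hw
      rw [Finset.mem_erase, Finset.mem_image] at hw
      obtain ⟨hne, a, -, rfl⟩ := hw
      rw [SimpleGraph.mem_neighborFinset, host_adj_iff]
      refine ⟨hne.symm, ?_⟩
      unfold Bf
      ring
    refine le_trans ?_ (Finset.card_le_card hsub)
    have hc : (Finset.univ.image fun a : ZMod p => (a, v.1 * a - v.2)).card = p := by
      rw [Finset.card_image_of_injective]
      · simp [ZMod.card]
      · intro a b hab
        exact (Prod.ext_iff.1 hab).1
    have := Finset.pred_card_le_card_erase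
      (s := Finset.univ.image fun a : ZMod p => (a, v.1 * a - v.2)) (a := v)
    rw [hc] at this
    exact this
  have hsum := SimpleGraph.sum_degrees_eq_twice_card_edges (host (ZMod p))
  have hle : p ^ 2 * (p - 1) ≤ 2 * (host (ZMod p)).edgeFinset.card := by
    rw [← hsum]
    calc p ^ 2 * (p - 1) = ∑ _v : ZMod p × ZMod p, (p - 1) := by
          rw [Finset.sum_const, Finset.card_univ, Fintype.card_prod, ZMod.card, smul_eq_mul]
          ring
      _ ≤ _ := Finset.sum_le_sum fun v _ => deg v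
  have hnc : (host (ZMod p)).edgeSet.ncard = (host (ZMod p)).edgeFinset.card := by
    rw [← SimpleGraph.coe_edgeFinset, Set.ncard_coe_finset]
  rw [hnc]
  have hle' : ((p ^ 2 * (p - 1) : ℕ) : ℝ) ≤ ((2 * (host (ZMod p)).edgeFinset.card : ℕ) : ℝ) := by
    exact_mod_cast hle
  push_cast [Nat.cast_sub hp1] at hle'
  linarith

end Pool.Agent.Lib.MP_a2fd8c_co
end

section

/-!
Final assembly of the disproof of `MP_a2fd8c_co`: from the upper bound for the extremal number of
the configuration, and the host graphs.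
-/

namespace Pool.Agent.Lib.MP_a2fd8c_co

open Finset
open scoped Classical

/-! ### A bipartition with at least half of the edges -/

/-- flip the colour of one vertex -/
def flipAt {n : ℕ} (i : Fin n) : (Fin n → Bool) ≃ (Fin n → Bool) where
  toFun c := Function.update c i (!(c i))
  invFun c := Function.update c i (!(c i))
  left_inv c := by simp
  right_inv c := by simp

lemma sum_colour {n : ℕ} {i j : Fin n} (hij : i ≠ j) :
    ∑ c : Fin n → Bool, (if c i = false ∧ c j = true then (1 : ℝ) else 0) = 2 ^ n / 4 := by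
  set S : Bool → Bool → ℝ := fun a b => ∑ c : Fin n → Bool, (if c i = a ∧ c j = b then (1 : ℝ) else 0)
    with hS
  have h1 : ∀ a b, S a b = S (!a) b := by
    intro a b
    simp only [hS]
    rw [← Equiv.sum_comp (flipAt i)]
    refine Finset.sum_congr rfl fun c _ => ?_
    congr 1
    simp only [flipAt, Equiv.coe_fn_mk, Function.update_self, Function.update_of_ne hij.symm]
    cases a <;> cases b <;> simp
  have h2 : ∀ a b, S a b = S a (!b) := by
    intro a b
    simp only [hS]
    rw [← Equiv.sum_comp (flipAt j)]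
    refine Finset.sum_congr rfl fun c _ => ?_
    congr 1
    simp only [flipAt, Equiv.coe_fn_mk, Function.update_self, Function.update_of_ne hij]
    cases a <;> cases b <;> simp
  have h3 : S false false + S false true + S true false + S true true = 2 ^ n := by
    simp only [hS]
    rw [← Finset.sum_add_distrib, ← Finset.sum_add_distrib, ← Finset.sum_add_distrib]
    have : ∀ c : Fin n → Bool, ((((if c i = false ∧ c j = false then (1 : ℝ) else 0) +
      if c i = false ∧ c j = true then (1 : ℝ) else 0) +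
      if c i = true ∧ c j = false then (1 : ℝ) else 0) +
      if c i = true ∧ c j = true then (1 : ℝ) else 0) = 1 := by
      intro c
      cases c i <;> cases c j <;> simp
    rw [Finset.sum_congr rfl (fun c _ => this c)]
    simp
  have e1 := h1 false true
  have e2 := h2 false true
  have e3 := h2 true true
  simp only [Bool.not_false, Bool.not_true] at e1 e2 e3
  show S false true = _
  linarith

lemma exists_colouring {n : ℕ} (G : SimpleGraph (Fin n)) :
    ∃ c : Fin n → Bool, (#G.edgeFinset : ℝ) / 2 ≤ 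
      ec (fun i j => G.Adj i j ∧ c i = false ∧ c j = true) univ univ := by
  by_contra hcon
  push Not at hcon
  have h1 : ∑ c : Fin n → Bool, ec (fun i j => G.Adj i j ∧ c i = false ∧ c j = true) univ univ
      = 2 ^ n * (#G.edgeFinset / 2) := by
    unfold ec ind
    rw [Finset.sum_comm]
    beta_reduce
    have h2 : ∀ i j : Fin n, ∑ c : Fin n → Bool, 
        (if G.Adj i j ∧ c i = false ∧ c j = true then (1 : ℝ) else 0) = 
        (2 ^ n / 4) * (if G.Adj i j then 1 else 0) := by
      intro i j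
      by_cases hij : G.Adj i j
      · simp only [hij, true_and, if_true, mul_one]
        exact sum_colour hij.ne
      · simp [hij]
    have h3 : ∀ i : Fin n, ∑ c : Fin n → Bool, ∑ j : Fin n,
        (if G.Adj i j ∧ c i = false ∧ c j = true then (1 : ℝ) else 0) = 
        (2 ^ n / 4) * (G.degree i) := by
      intro i
      rw [Finset.sum_comm, Finset.sum_congr rfl (fun j _ => h2 i j), ← Finset.mul_sum]
      congr 1
      rw [Finset.sum_boole, ← SimpleGraph.card_neighborFinset_eq_degree]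
      congr 2
      ext j; simp
    have h3' : ∑ i : Fin n, ∑ c : Fin n → Bool, ∑ j : Fin n,
        (if G.Adj i j ∧ c i = false ∧ c j = true then (1 : ℝ) else 0) = 
        ∑ i : Fin n, (2 ^ n / 4) * (G.degree i : ℝ) := Finset.sum_congr rfl (fun i _ => h3 i)
    refine Eq.trans (b := ∑ i : Fin n, (2 ^ n / 4) * (G.degree i : ℝ)) (by convert h3') ?_
    rw [← Finset.mul_sum]
    have h4 := G.sum_degrees_eq_twice_card_edges
    have h5 : ∑ i, (G.degree i : ℝ) = 2 * #G.edgeFinset := by exact_mod_cast h4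
    rw [h5]; ring
  have h2 : ∑ c : Fin n → Bool, ec (fun i j => G.Adj i j ∧ c i = false ∧ c j = true) univ univ
      < ∑ c : Fin n → Bool, (#G.edgeFinset : ℝ) / 2 :=
    Finset.sum_lt_sum_of_nonempty ⟨fun _ => false, Finset.mem_univ _⟩ (fun c _ => hcon c)
  rw [h1] at h2
  simp at h2

/-! ### From a configuration to a copy -/

lemma contained_of_neck {V : Type*} (G : SimpleGraph V) (m : ℕ) (hm : 2 ≤ m) (c : V → Bool)
    (h : Neck (fun i j => G.Adj i j ∧ c i = false ∧ c j = true) m) : (HG m).IsContained G := by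
  obtain ⟨O, b, A, Q, R, s, k, l, h⟩ := h
  let g : HV m → V := fun x => match x with
    | HV.O => O
    | HV.b => b
    | HV.A i => A i
    | HV.Q i => Q i
    | HV.R i => R i
    | HV.s i => s i
    | HV.k i => k i
    | HV.l i => l i
  have cO : c O = false := (h.Os 0 (by omega)).2.1
  have cA : ∀ i < m, c (A i) = false := fun i hi => (h.As i hi).2.1
  have cQ : ∀ i < m, c (Q i) = false := fun i hi => (h.Qs i hi).2.1
  have cR : ∀ i < m, c (R i) = false := fun i hi => (h.Rk i hi).2.1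
  have cb : c b = true := (h.Rb 0 (by omega)).2.2
  have cs : ∀ i < m, c (s i) = true := fun i hi => (h.Os i hi).2.2
  have ck : ∀ i < m, c (k i) = true := fun i hi => (h.Ak i hi).2.2
  have cl : ∀ i < m, c (l i) = true := fun i hi => (h.Ql i hi).2.2
  have hXY : ∀ {x y : V}, c x = false → c y = true → x ≠ y := by
    rintro x y h1 h2 rfl
    rw [h1] at h2; cases h2
  have hrel' : ∀ x y : HV m, hrel x y → G.Adj (g x) (g y) := by
    intro x y hxy
    cases x <;> cases y <;> simp only [hrel] at hxy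
    case O.s i => exact (h.Os i i.2).1
    case A.s i j => subst hxy; exact (h.As i i.2).1
    case Q.s i j => subst hxy; exact (h.Qs i i.2).1
    case R.b i => exact (h.Rb i i.2).1
    case R.k i j => subst hxy; exact (h.Rk i i.2).1
    case R.l i j => subst hxy; exact (h.Rl i i.2).1
    case A.k i j =>
      rcases hxy with rfl | hxy
      · exact (h.Ak i i.2).1
      · have := (h.Ak' j j.2).1
        by_cases hj : (j : ℕ) + 1 < m
        · rw [Nat.mod_eq_of_lt hj] at hxy
          show G.Adj (A i) (k j)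
          rw [hxy]; exact this
        · have hj2 : (j : ℕ) + 1 = m := by have := j.2; omega
          rw [hj2, Nat.mod_self] at hxy
          rw [hj2, h.A_m] at this
          show G.Adj (A i) (k j)
          rw [hxy]; exact this
    case Q.l i j =>
      rcases hxy with rfl | hxy
      · exact (h.Ql i i.2).1
      · have := (h.Ql' j j.2).1
        by_cases hj : (j : ℕ) + 1 < m
        · rw [Nat.mod_eq_of_lt hj] at hxy
          show G.Adj (Q i) (l j)
          rw [hxy]; exact this
        · have hj2 : (j : ℕ) + 1 = m := by have := j.2; omega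
          rw [hj2, Nat.mod_self] at hxy
          rw [hj2, h.Q_m] at this
          show G.Adj (Q i) (l j)
          rw [hxy]; exact this
  have hinj : Function.Injective g := by
    intro x y hxy
    cases x <;> cases y <;> simp only [g] at hxy
    case O.O => rfl
    case b.b => rfl
    case A.A i j => rw [Fin.ext (h.AA _ i.2 _ j.2 hxy)]
    case Q.Q i j => rw [Fin.ext (h.QQ _ i.2 _ j.2 hxy)]
    case R.R i j => rw [Fin.ext (h.RR _ i.2 _ j.2 hxy)]
    case s.s i j => rw [Fin.ext (h.ss _ i.2 _ j.2 hxy)]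
    case k.k i j => rw [Fin.ext (h.kk _ i.2 _ j.2 hxy)]
    case l.l i j => rw [Fin.ext (h.ll _ i.2 _ j.2 hxy)]
    all_goals exfalso
    case O.b => exact hXY cO cb hxy
    case O.A i => exact h.A_O _ i.2 hxy.symm
    case O.Q i => exact h.Q_O _ i.2 hxy.symm
    case O.R i => exact h.R_O _ i.2 hxy.symm
    case O.s i => exact hXY cO (cs _ i.2) hxy
    case O.k i => exact hXY cO (ck _ i.2) hxy
    case O.l i => exact hXY cO (cl _ i.2) hxy
    case b.O => exact hXY cO cb hxy.symm
    case b.A i => exact hXY (cA _ i.2) cb hxy.symm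
    case b.Q i => exact hXY (cQ _ i.2) cb hxy.symm
    case b.R i => exact hXY (cR _ i.2) cb hxy.symm
    case b.s i => exact h.s_b _ i.2 hxy.symm
    case b.k i => exact h.k_b _ i.2 hxy.symm
    case b.l i => exact h.l_b _ i.2 hxy.symm
    case A.O i => exact h.A_O _ i.2 hxy
    case A.b i => exact hXY (cA _ i.2) cb hxy
    case A.Q i j => exact h.AQ _ i.2 _ j.2 hxy
    case A.R i j => exact h.AR _ i.2 _ j.2 hxy
    case A.s i j => exact hXY (cA _ i.2) (cs _ j.2) hxy
    case A.k i j => exact hXY (cA _ i.2) (ck _ j.2) hxy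
    case A.l i j => exact hXY (cA _ i.2) (cl _ j.2) hxy
    case Q.O i => exact h.Q_O _ i.2 hxy
    case Q.b i => exact hXY (cQ _ i.2) cb hxy
    case Q.A i j => exact h.AQ _ j.2 _ i.2 hxy.symm
    case Q.R i j => exact h.QR _ i.2 _ j.2 hxy
    case Q.s i j => exact hXY (cQ _ i.2) (cs _ j.2) hxy
    case Q.k i j => exact hXY (cQ _ i.2) (ck _ j.2) hxy
    case Q.l i j => exact hXY (cQ _ i.2) (cl _ j.2) hxy
    case R.O i => exact h.R_O _ i.2 hxy
    case R.b i => exact hXY (cR _ i.2) cb hxy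
    case R.A i j => exact h.AR _ j.2 _ i.2 hxy.symm
    case R.Q i j => exact h.QR _ j.2 _ i.2 hxy.symm
    case R.s i j => exact hXY (cR _ i.2) (cs _ j.2) hxy
    case R.k i j => exact hXY (cR _ i.2) (ck _ j.2) hxy
    case R.l i j => exact hXY (cR _ i.2) (cl _ j.2) hxy
    case s.O i => exact hXY cO (cs _ i.2) hxy.symm
    case s.b i => exact h.s_b _ i.2 hxy
    case s.A i j => exact hXY (cA _ j.2) (cs _ i.2) hxy.symm
    case s.Q i j => exact hXY (cQ _ j.2) (cs _ i.2) hxy.symm
    case s.R i j => exact hXY (cR _ j.2) (cs _ i.2) hxy.symm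
    case s.k i j => exact h.sk _ i.2 _ j.2 hxy
    case s.l i j => exact h.sl _ i.2 _ j.2 hxy
    case k.O i => exact hXY cO (ck _ i.2) hxy.symm
    case k.b i => exact h.k_b _ i.2 hxy
    case k.A i j => exact hXY (cA _ j.2) (ck _ i.2) hxy.symm
    case k.Q i j => exact hXY (cQ _ j.2) (ck _ i.2) hxy.symm
    case k.R i j => exact hXY (cR _ j.2) (ck _ i.2) hxy.symm
    case k.s i j => exact h.sk _ j.2 _ i.2 hxy.symm
    case k.l i j => exact h.kl _ i.2 _ j.2 hxy
    case l.O i => exact hXY cO (cl _ i.2) hxy.symm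
    case l.b i => exact h.l_b _ i.2 hxy
    case l.A i j => exact hXY (cA _ j.2) (cl _ i.2) hxy.symm
    case l.Q i j => exact hXY (cQ _ j.2) (cl _ i.2) hxy.symm
    case l.R i j => exact hXY (cR _ j.2) (cl _ i.2) hxy.symm
    case l.s i j => exact h.sl _ j.2 _ i.2 hxy.symm
    case l.k i j => exact h.kl _ j.2 _ i.2 hxy.symm
  refine ⟨⟨⟨g, ?_⟩, hinj⟩⟩
  intro x y hxy
  rw [HG, SimpleGraph.fromRel_adj] at hxy
  rcases hxy.2 with h1 | h1
  · exact hrel' _ _ h1
  · exact (hrel' _ _ h1).symm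

/-! ### Properties of `H` -/

lemma HG_colorable (m : ℕ) : (HG m).Colorable 2 := by
  let col : HV m → Fin 2 := fun x => match x with
    | HV.O => 0
    | HV.A _ => 0
    | HV.Q _ => 0
    | HV.R _ => 0
    | HV.b => 1
    | HV.s _ => 1
    | HV.k _ => 1
    | HV.l _ => 1
  refine ⟨SimpleGraph.Coloring.mk col ?_⟩
  intro x y hxy
  rw [HG, SimpleGraph.fromRel_adj] at hxy
  obtain ⟨-, h | h⟩ := hxy <;> cases x <;> cases y <;> simp [hrel, col] at h ⊢

lemma HG_adj_of_hrel {m : ℕ} {x y : HV m} (h : hrel x y) : (HG m).Adj x y := by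
  rw [HG, SimpleGraph.fromRel_adj]
  refine ⟨?_, Or.inl h⟩
  rintro rfl
  cases x <;> exact h

lemma HG_no_isolated (m : ℕ) (hm : 2 ≤ m) (x : HV m) : ∃ y, (HG m).Adj x y := by
  have hm0 : 0 < m := by omega
  cases x with
  | O => exact ⟨HV.s ⟨0, hm0⟩, HG_adj_of_hrel trivial⟩
  | b => exact ⟨HV.R ⟨0, hm0⟩, (HG_adj_of_hrel (x := HV.R ⟨0, hm0⟩) (y := HV.b)
      (show (0 : ℕ) + 1 < m by omega)).symm⟩
  | A i => exact ⟨HV.s i, HG_adj_of_hrel rfl⟩
  | Q i => exact ⟨HV.s i, HG_adj_of_hrel rfl⟩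
  | R i => exact ⟨HV.k i, HG_adj_of_hrel rfl⟩
  | s i => exact ⟨HV.A i, (HG_adj_of_hrel (x := HV.A i) (y := HV.s i) rfl).symm⟩
  | k i => exact ⟨HV.R i, (HG_adj_of_hrel (x := HV.R i) (y := HV.k i) rfl).symm⟩
  | l i => exact ⟨HV.R i, (HG_adj_of_hrel (x := HV.R i) (y := HV.l i) rfl).symm⟩

/-! ### The upper bound for the extremal number -/

lemma extremal_le (m : ℕ) (hm : 2 ≤ m) (C δ : ℝ)
    (hpot : ∀ (n : ℕ) (E : Fin n → Fin n → Prop),
      C * (n : ℝ) ^ ((3 : ℝ) / 2 - δ) < ec E Finset.univ Finset.univ → Neck E m) (n : ℕ) :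
    (SimpleGraph.extremalNumber n (HG m) : ℝ) ≤ 2 * |C| * (n : ℝ) ^ ((3 : ℝ) / 2 - δ) := by
  have h0 : 0 ≤ 2 * |C| * (n : ℝ) ^ ((3 : ℝ) / 2 - δ) := by positivity
  have hn : Fintype.card (Fin n) = n := Fintype.card_fin n
  have := (SimpleGraph.extremalNumber_le_iff_of_nonneg (V := Fin n) (HG m) h0).2 (by
    intro G _ hfree
    obtain ⟨c, hc⟩ := exists_colouring G
    by_contra hlt
    push Not at hlt
    refine hfree (contained_of_neck G m hm c (hpot n _ ?_))
    refine lt_of_lt_of_le ?_ hc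
    have h1 : C * (n : ℝ) ^ ((3 : ℝ) / 2 - δ) ≤ |C| * (n : ℝ) ^ ((3 : ℝ) / 2 - δ) :=
      mul_le_mul_of_nonneg_right (le_abs_self C) (by positivity)
    have h2 : (#G.edgeFinset : ℝ) / 2 > |C| * (n : ℝ) ^ ((3 : ℝ) / 2 - δ) := by linarith
    refine lt_of_le_of_lt h1 (lt_of_lt_of_eq h2 ?_)
    congr!)
  rwa [hn] at this

theorem final (m : ℕ) (hm : 2 ≤ m) (C δ : ℝ) (hδ : 0 < δ)
    (hpot : ∀ (n : ℕ) (E : Fin n → Fin n → Prop),
      C * (n : ℝ) ^ ((3 : ℝ) / 2 - δ) < ec E Finset.univ Finset.univ → Neck E m) :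
    ¬ (∀ (k : ℕ) (H : SimpleGraph (Fin k)),
      H.Colorable 2 →
      H.edgeSet.Nonempty →
      (∀ v : Fin k, ∃ w : Fin k, H.Adj v w) →
      ∃ f : ℕ → ℝ, ∀ t : ℕ, 1 ≤ t → ∀ n : ℕ, 1 ≤ n →
        ∀ G : SimpleGraph (Fin n),
          IsEmpty (H ↪g G) →
          (completeBipartiteGraph (Fin t) (Fin t)).Free G →
          (G.edgeSet.ncard : ℝ) ≤ f t * (SimpleGraph.extremalNumber n H : ℝ)) := by
  intro hall
  have hm0 : 0 < m := by omega
  let H := (HG m).overFin (n := Fintype.card (HV m)) rfl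
  let eH : HG m ≃g H := (HG m).overFinIso rfl
  obtain ⟨f, hf⟩ := hall _ H ((HG_colorable m).of_hom eH.symm.toHom) (by
      refine ⟨s(eH HV.O, eH (HV.s ⟨0, hm0⟩)), ?_⟩
      rw [SimpleGraph.mem_edgeSet, eH.map_adj_iff]
      exact HG_adj_of_hrel trivial) (by
      intro v
      obtain ⟨y, hy⟩ := HG_no_isolated m hm (eH.symm v)
      refine ⟨eH y, ?_⟩
      have := eH.map_adj_iff.2 hy
      simpa using this)
  -- a large prime
  set B : ℝ := 8 * |f 2| * |C| with hB
  have hB0 : 0 ≤ B := by positivity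
  have htend : Filter.Tendsto (fun x : ℝ => x ^ (2 * δ)) Filter.atTop Filter.atTop :=
    tendsto_rpow_atTop (by linarith)
  obtain ⟨M, hM⟩ := Filter.eventually_atTop.1 (htend.eventually (Filter.eventually_gt_atTop B))
  obtain ⟨p, hpM, hp⟩ := Nat.exists_infinite_primes (⌈M⌉₊ + 2)
  have : Fact p.Prime := ⟨hp⟩
  have hp2 : 2 ≤ p := by omega
  have hpR : (2 : ℝ) ≤ p := by exact_mod_cast hp2
  have hpB : B < (p : ℝ) ^ (2 * δ) := by
    refine hM p ?_
    have h1 : M ≤ ⌈M⌉₊ := Nat.le_ceil M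
    have h2 : ((⌈M⌉₊ + 2 : ℕ) : ℝ) ≤ p := by exact_mod_cast hpM
    push_cast at h2
    linarith
  -- the host graph
  set n := Fintype.card (ZMod p × ZMod p) with hn
  have hnp : (n : ℝ) = (p : ℝ) ^ 2 := by
    rw [hn, Fintype.card_prod, ZMod.card]
    push_cast; ring
  let G := (host (ZMod p)).overFin (n := n) rfl
  let eG : host (ZMod p) ≃g G := (host (ZMod p)).overFinIso rfl
  have hn1 : 1 ≤ n := Fintype.card_pos
  have h1 := hf 2 (by norm_num) n hn1 G (by
      have := host_closure (ZMod p) m hm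
      refine ⟨fun g => this.false ?_⟩
      exact (eG.symm.toEmbedding.comp g).comp eH.toEmbedding) (by
      exact (SimpleGraph.free_congr SimpleGraph.Iso.refl eG).1 (host_free (ZMod p)))
  have h2 : G.edgeSet.ncard = (host (ZMod p)).edgeSet.ncard := by
    rw [← Nat.card_coe_set_eq, ← Nat.card_coe_set_eq]
    exact (Nat.card_congr eG.mapEdgeSet).symm
  rw [h2, ← SimpleGraph.extremalNumber_congr_right eH] at h1
  have h3 := host_edges p
  have h4 := extremal_le m hm C δ hpot n
  have h5 : (n : ℝ) ^ ((3 : ℝ) / 2 - δ) = (p : ℝ) ^ 3 / (p : ℝ) ^ (2 * δ) := by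
    rw [hnp, ← Real.rpow_natCast, ← Real.rpow_mul (by positivity), ← Real.rpow_natCast,
      ← Real.rpow_sub (by positivity)]
    congr 1
    push_cast; ring
  have hpos : 0 < (p : ℝ) ^ (2 * δ) := by positivity
  have h6 : (p : ℝ) ^ 3 / 4 ≤ |f 2| * (2 * |C| * ((p : ℝ) ^ 3 / (p : ℝ) ^ (2 * δ))) := by
    rw [← h5]
    calc (p : ℝ) ^ 3 / 4 ≤ (p : ℝ) ^ 2 * (p - 1) / 2 := by nlinarith [sq_nonneg (p : ℝ)]
      _ ≤ ((host (ZMod p)).edgeSet.ncard : ℝ) := h3
      _ ≤ f 2 * (SimpleGraph.extremalNumber n (HG m) : ℝ) := h1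
      _ ≤ |f 2| * (SimpleGraph.extremalNumber n (HG m) : ℝ) :=
          mul_le_mul_of_nonneg_right (le_abs_self _) (by positivity)
      _ ≤ _ := mul_le_mul_of_nonneg_left h4 (abs_nonneg _)
  have hp3 : 0 < (p : ℝ) ^ 3 := by positivity
  have h7 : (p : ℝ) ^ 3 / 4 * (p : ℝ) ^ (2 * δ) ≤ |f 2| * (2 * |C|) * (p : ℝ) ^ 3 := by
    calc (p : ℝ) ^ 3 / 4 * (p : ℝ) ^ (2 * δ) ≤ 
        |f 2| * (2 * |C| * ((p : ℝ) ^ 3 / (p : ℝ) ^ (2 * δ))) * (p : ℝ) ^ (2 * δ) :=
          mul_le_mul_of_nonneg_right h6 hpos.le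
      _ = |f 2| * (2 * |C|) * (p : ℝ) ^ 3 := by field_simp
  have h8 : (p : ℝ) ^ (2 * δ) ≤ B := by
    have : (p : ℝ) ^ 3 * (p : ℝ) ^ (2 * δ) ≤ (p : ℝ) ^ 3 * B := by rw [hB]; linarith
    exact le_of_mul_le_mul_left this hp3
  linarith

end Pool.Agent.Lib.MP_a2fd8c_co
end
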