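import Mathlib
import Pool.Agent.Lib.MP_a2fd8c_co.ClosedWalk

section

/-!
The auxiliary graph of pairs of light walks with the same end points.
-/

namespace Pool.Agent.Lib.MP_a2fd8c_co

open Finset
open scoped Classical

/-- indicator of a proposition -/
noncomputable def bi (P : Prop) : ℝ := if P then 1 else 0

lemma bi_nonneg (P : Prop) : 0 ≤ bi P := by unfold bi; split_ifs <;> norm_num
lemma bi_le_one (P : Prop) : bi P ≤ 1 := by unfold bi; split_ifs <;> norm_num
lemma bi_mul (P Q : Prop) : bi P * bi Q = bi (P ∧ Q) := by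
  unfold bi
  by_cases hP : P <;> by_cases hQ : Q <;> simp [hP, hQ]
lemma bi_mono {P Q : Prop} (h : P → Q) : bi P ≤ bi Q := by
  unfold bi
  by_cases hP : P
  · simp [hP, h hP]
  · simp only [if_neg hP]; split_ifs <;> norm_num
lemma bi_congr {P Q : Prop} (h : P ↔ Q) : bi P = bi Q := by
  rw [propext h]
lemma bi_or (P Q : Prop) : bi (P ∨ Q) ≤ bi P + bi Q := by
  unfold bi
  by_cases hP : P <;> by_cases hQ : Q <;> simp [hP, hQ]

lemma card_filter_bi {α : Type*} (s : Finset α) (p : α → Prop) [DecidablePred p] :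
    ((s.filter p).card : ℝ) = ∑ x ∈ s, bi (p x) := by
  rw [Finset.card_filter]
  push_cast
  refine Finset.sum_congr rfl fun x _ => ?_
  unfold bi
  by_cases h : p x <;> simp [h]

lemma ind_eq_bi {X Y : Type*} (E : X → Y → Prop) (x : X) (y : Y) : ind E x y = bi (E x y) := by
  unfold ind bi
  congr

section
variable {X Y : Type*} [Fintype X] [Fintype Y]

set_option linter.unusedSectionVars false

/-- two distinct vertices with at most `h` common neighbours -/
def lt (E : X → Y → Prop) (h : ℝ) (x x' : X) : Prop :=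
  x ≠ x' ∧ ∑ y, ind E x y * ind E x' y ≤ h

lemma lt_comm (E : X → Y → Prop) (h : ℝ) (x x' : X) : lt E h x x' ↔ lt E h x' x := by
  unfold lt
  constructor
  · rintro ⟨h1, h2⟩
    refine ⟨h1.symm, ?_⟩
    simpa only [mul_comm] using h2
  · rintro ⟨h1, h2⟩
    refine ⟨h1.symm, ?_⟩
    simpa only [mul_comm] using h2

lemma lt_bound (E : X → Y → Prop) (h : ℝ) (hh : 0 ≤ h) (x x' : X) :
    bi (lt E h x x') * ∑ y, ind E x y * ind E x' y ≤ h := by
  by_cases hl : lt E h x x'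
  · have : bi (lt E h x x') = 1 := by unfold bi; rw [if_pos hl]
    rw [this, one_mul]
    exact hl.2
  · have : bi (lt E h x x') = 0 := by unfold bi; rw [if_neg hl]
    rw [this, zero_mul]
    exact hh

/-- the auxiliary relation -/
structure Th (E : X → Y → Prop) (hX hY : ℝ) (O : X) (b : Y) (p : Y × X × X) (q : X × Y × Y) :
    Prop where
  Os : E O p.1
  As : E p.2.1 p.1
  Qs : E p.2.2 p.1
  Rb : E q.1 b
  Rk : E q.1 q.2.1
  Rl : E q.1 q.2.2
  Ak : E p.2.1 q.2.1
  Ql : E p.2.2 q.2.2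
  lOA : lt E hX O p.2.1
  lAR : lt E hX p.2.1 q.1
  lsk : lt (fun y x => E x y) hY p.1 q.2.1
  lkb : lt (fun y x => E x y) hY q.2.1 b
  lOQ : lt E hX O p.2.2
  lQR : lt E hX p.2.2 q.1
  lsl : lt (fun y x => E x y) hY p.1 q.2.2
  llb : lt (fun y x => E x y) hY q.2.2 b
  OR : O ≠ q.1
  sb : p.1 ≠ b
  AQ : p.2.1 ≠ p.2.2
  kl : q.2.1 ≠ q.2.2

lemma Th.swap {E : X → Y → Prop} {hX hY : ℝ} {O : X} {b : Y} {p : Y × X × X} {q : X × Y × Y}
    (h : Th E hX hY O b p q) : Th (fun y x => E x y) hY hX b O q p where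
  Os := h.Rb
  As := h.Rk
  Qs := h.Rl
  Rb := h.Os
  Rk := h.As
  Rl := h.Qs
  Ak := h.Ak
  Ql := h.Ql
  lOA := (lt_comm _ _ _ _).1 h.lkb
  lAR := (lt_comm _ _ _ _).1 h.lsk
  lsk := (lt_comm _ _ _ _).1 h.lAR
  lkb := (lt_comm _ _ _ _).1 h.lOA
  lOQ := (lt_comm _ _ _ _).1 h.llb
  lQR := (lt_comm _ _ _ _).1 h.lsl
  lsl := (lt_comm _ _ _ _).1 h.lQR
  llb := (lt_comm _ _ _ _).1 h.lOQ
  OR := h.sb.symm
  sb := h.OR.symm
  AQ := h.kl
  kl := h.AQ

lemma th_swap_iff (E : X → Y → Prop) (hX hY : ℝ) (O : X) (b : Y) (p : Y × X × X) (q : X × Y × Y) :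
    Th E hX hY O b p q ↔ Th (fun y x => E x y) hY hX b O q p :=
  ⟨fun h => h.swap, fun h => h.swap⟩

variable (E : X → Y → Prop) (hX hY : ℝ) (O : X) (b : Y)

/-- neighbours with prescribed first entry -/
lemma conf1 (hhX : 0 ≤ hX) (p : Y × X × X) (x0 : X) :
    ∑ q, bi (Th E hX hY O b p q ∧ q.1 = x0) ≤ hX * hX := by
  simp only [Fintype.sum_prod_type]
  have h1 : ∀ R : X, R ≠ x0 → ∑ k, ∑ l, bi (Th E hX hY O b p (R, k, l) ∧ R = x0) = 0 := by
    intro R hR
    refine Finset.sum_eq_zero fun k _ => Finset.sum_eq_zero fun l _ => ?_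
    unfold bi
    rw [if_neg]
    exact fun h => hR h.2
  rw [Finset.sum_eq_single x0 (fun R _ hR => h1 R hR) (fun h => absurd (Finset.mem_univ _) h)]
  calc ∑ k, ∑ l, bi (Th E hX hY O b p (x0, k, l) ∧ x0 = x0)
      ≤ ∑ k, ∑ l, (bi (lt E hX p.2.1 x0) * (ind E p.2.1 k * ind E x0 k)) *
        (bi (lt E hX p.2.2 x0) * (ind E p.2.2 l * ind E x0 l)) := by
        refine Finset.sum_le_sum fun k _ => Finset.sum_le_sum fun l _ => ?_
        simp only [ind_eq_bi, bi_mul]
        refine bi_mono ?_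
        rintro ⟨h, -⟩
        exact ⟨⟨h.lAR, h.Ak, h.Rk⟩, ⟨h.lQR, h.Ql, h.Rl⟩⟩
    _ = (bi (lt E hX p.2.1 x0) * ∑ k, (ind E p.2.1 k * ind E x0 k)) *
        (bi (lt E hX p.2.2 x0) * ∑ l, (ind E p.2.2 l * ind E x0 l)) := by
        rw [Finset.mul_sum, Finset.mul_sum, Finset.sum_mul_sum]
    _ ≤ hX * hX := by
        refine mul_le_mul (lt_bound E hX hhX _ _) (lt_bound E hX hhX _ _) ?_ hhX
        exact mul_nonneg (bi_nonneg _) (Finset.sum_nonneg fun _ _ =>
          mul_nonneg (ind_nonneg _ _ _) (ind_nonneg _ _ _))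

/-- neighbours with prescribed second entry -/
lemma conf2 (hhX : 0 ≤ hX) (hhY : 0 ≤ hY) (p : Y × X × X) (y0 : Y) :
    ∑ q, bi (Th E hX hY O b p q ∧ q.2.1 = y0) ≤ hX * hY := by
  simp only [Fintype.sum_prod_type]
  have h1 : ∀ R : X, ∑ k, ∑ l, bi (Th E hX hY O b p (R, k, l) ∧ k = y0) =
      ∑ l, bi (Th E hX hY O b p (R, y0, l) ∧ y0 = y0) := by
    intro R
    rw [Finset.sum_eq_single y0]
    · intro k _ hk
      refine Finset.sum_eq_zero fun l _ => ?_
      unfold bi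
      rw [if_neg]
      exact fun h => hk h.2
    · exact fun h => absurd (Finset.mem_univ _) h
  calc ∑ R, ∑ k, ∑ l, bi (Th E hX hY O b p (R, k, l) ∧ k = y0)
      = ∑ R, ∑ l, bi (Th E hX hY O b p (R, y0, l) ∧ y0 = y0) :=
        Finset.sum_congr rfl fun R _ => h1 R
    _ ≤ ∑ R, ∑ l, (bi (lt (fun y x => E x y) hY y0 b) * (ind E R y0 * ind E R b)) *
        (bi (lt E hX p.2.2 R) * (ind E p.2.2 l * ind E R l)) := by
        refine Finset.sum_le_sum fun k _ => Finset.sum_le_sum fun l _ => ?_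
        simp only [ind_eq_bi, bi_mul]
        refine bi_mono ?_
        rintro ⟨h, -⟩
        exact ⟨⟨h.lkb, h.Rk, h.Rb⟩, ⟨h.lQR, h.Ql, h.Rl⟩⟩
    _ = ∑ R, (bi (lt (fun y x => E x y) hY y0 b) * (ind E R y0 * ind E R b)) *
        (bi (lt E hX p.2.2 R) * ∑ l, (ind E p.2.2 l * ind E R l)) := by
        refine Finset.sum_congr rfl fun R _ => ?_
        rw [Finset.mul_sum, Finset.mul_sum]
    _ ≤ ∑ R, (bi (lt (fun y x => E x y) hY y0 b) * (ind E R y0 * ind E R b)) * hX := by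
        refine Finset.sum_le_sum fun R _ => mul_le_mul_of_nonneg_left (lt_bound E hX hhX _ _) ?_
        exact mul_nonneg (bi_nonneg _) (mul_nonneg (ind_nonneg _ _ _) (ind_nonneg _ _ _))
    _ = (bi (lt (fun y x => E x y) hY y0 b) * ∑ R, ind (fun y x => E x y) y0 R *
          ind (fun y x => E x y) b R) * hX := by
        rw [Finset.mul_sum, Finset.sum_mul]
        rfl
    _ ≤ hY * hX := mul_le_mul_of_nonneg_right (lt_bound _ hY hhY _ _) hhX
    _ = hX * hY := mul_comm _ _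

/-- neighbours with prescribed third entry -/
lemma conf3 (hhX : 0 ≤ hX) (hhY : 0 ≤ hY) (p : Y × X × X) (y0 : Y) :
    ∑ q, bi (Th E hX hY O b p q ∧ q.2.2 = y0) ≤ hX * hY := by
  simp only [Fintype.sum_prod_type]
  have h1 : ∀ R : X, ∑ k, ∑ l, bi (Th E hX hY O b p (R, k, l) ∧ l = y0) =
      ∑ k, bi (Th E hX hY O b p (R, k, y0) ∧ y0 = y0) := by
    intro R
    refine Finset.sum_congr rfl fun k _ => ?_
    rw [Finset.sum_eq_single y0]
    · intro k _ hk
      unfold bi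
      rw [if_neg]
      exact fun h => hk h.2
    · exact fun h => absurd (Finset.mem_univ _) h
  calc ∑ R, ∑ k, ∑ l, bi (Th E hX hY O b p (R, k, l) ∧ l = y0)
      = ∑ R, ∑ k, bi (Th E hX hY O b p (R, k, y0) ∧ y0 = y0) :=
        Finset.sum_congr rfl fun R _ => h1 R
    _ ≤ ∑ R, ∑ k, (bi (lt (fun y x => E x y) hY y0 b) * (ind E R y0 * ind E R b)) *
        (bi (lt E hX p.2.1 R) * (ind E p.2.1 k * ind E R k)) := by
        refine Finset.sum_le_sum fun k _ => Finset.sum_le_sum fun l _ => ?_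
        simp only [ind_eq_bi, bi_mul]
        refine bi_mono ?_
        rintro ⟨h, -⟩
        exact ⟨⟨h.llb, h.Rl, h.Rb⟩, ⟨h.lAR, h.Ak, h.Rk⟩⟩
    _ = ∑ R, (bi (lt (fun y x => E x y) hY y0 b) * (ind E R y0 * ind E R b)) *
        (bi (lt E hX p.2.1 R) * ∑ l, (ind E p.2.1 l * ind E R l)) := by
        refine Finset.sum_congr rfl fun R _ => ?_
        rw [Finset.mul_sum, Finset.mul_sum]
    _ ≤ ∑ R, (bi (lt (fun y x => E x y) hY y0 b) * (ind E R y0 * ind E R b)) * hX := by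
        refine Finset.sum_le_sum fun R _ => mul_le_mul_of_nonneg_left (lt_bound E hX hhX _ _) ?_
        exact mul_nonneg (bi_nonneg _) (mul_nonneg (ind_nonneg _ _ _) (ind_nonneg _ _ _))
    _ = (bi (lt (fun y x => E x y) hY y0 b) * ∑ R, ind (fun y x => E x y) y0 R *
          ind (fun y x => E x y) b R) * hX := by
        rw [Finset.mul_sum, Finset.sum_mul]
        rfl
    _ ≤ hY * hX := mul_le_mul_of_nonneg_right (lt_bound _ hY hhY _ _) hhX
    _ = hX * hY := mul_comm _ _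

/-- conflicts in the neighbourhood of a left vertex -/
lemma conf_left (hhX : 0 ≤ hX) (hhY : 0 ≤ hY) (p : Y × X × X) (x1 x2 : X) (y1 y2 : Y) :
    ∑ q, bi (Th E hX hY O b p q ∧ ((q.1 = x1 ∨ q.1 = x2) ∨ (q.2.1 = y1 ∨ q.2.1 = y2) ∨
      (q.2.2 = y1 ∨ q.2.2 = y2))) ≤ 2 * hX ^ 2 + 4 * hX * hY := by
  have h : ∀ q, bi (Th E hX hY O b p q ∧ ((q.1 = x1 ∨ q.1 = x2) ∨ (q.2.1 = y1 ∨ q.2.1 = y2) ∨
      (q.2.2 = y1 ∨ q.2.2 = y2))) ≤ (bi (Th E hX hY O b p q ∧ q.1 = x1) +
        bi (Th E hX hY O b p q ∧ q.1 = x2)) + ((bi (Th E hX hY O b p q ∧ q.2.1 = y1) +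
        bi (Th E hX hY O b p q ∧ q.2.1 = y2)) + (bi (Th E hX hY O b p q ∧ q.2.2 = y1) +
        bi (Th E hX hY O b p q ∧ q.2.2 = y2))) := by
    intro q
    rw [and_or_left, and_or_left, and_or_left, and_or_left, and_or_left]
    refine (bi_or _ _).trans (add_le_add (bi_or _ _) ((bi_or _ _).trans
      (add_le_add (bi_or _ _) (bi_or _ _))))
  refine (Finset.sum_le_sum fun q _ => h q).trans ?_
  simp only [Finset.sum_add_distrib]
  have c1 := conf1 E hX hY O b hhX p x1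
  have c2 := conf1 E hX hY O b hhX p x2
  have c3 := conf2 E hX hY O b hhX hhY p y1
  have c4 := conf2 E hX hY O b hhX hhY p y2
  have c5 := conf3 E hX hY O b hhX hhY p y1
  have c6 := conf3 E hX hY O b hhX hhY p y2
  nlinarith

/-- conflicts in the neighbourhood of a right vertex -/
lemma conf_right (hhX : 0 ≤ hX) (hhY : 0 ≤ hY) (q : X × Y × Y) (x1 x2 : X) (y1 y2 : Y) :
    ∑ p, bi (Th E hX hY O b p q ∧ ((p.1 = y1 ∨ p.1 = y2) ∨ (p.2.1 = x1 ∨ p.2.1 = x2) ∨
      (p.2.2 = x1 ∨ p.2.2 = x2))) ≤ 2 * hY ^ 2 + 4 * hX * hY := by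
  have h := conf_left (fun y x => E x y) hY hX b O hhY hhX q y1 y2 x1 x2
  have e : ∀ p, bi (Th E hX hY O b p q ∧ ((p.1 = y1 ∨ p.1 = y2) ∨ (p.2.1 = x1 ∨ p.2.1 = x2) ∨
      (p.2.2 = x1 ∨ p.2.2 = x2))) = bi (Th (fun y x => E x y) hY hX b O q p ∧
      ((p.1 = y1 ∨ p.1 = y2) ∨ (p.2.1 = x1 ∨ p.2.1 = x2) ∨
      (p.2.2 = x1 ∨ p.2.2 = x2))) := by
    intro p
    rw [th_swap_iff]
  rw [Finset.sum_congr rfl fun p _ => e p]
  linarith

/-- number of left vertices -/
lemma left_card (DX DY : ℝ) (hDY0 : 0 ≤ DY)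
    (hDX : ∀ x, ∑ y, ind E x y ≤ DX) (hDY : ∀ y, ∑ x, ind E x y ≤ DY) :
    (((univ : Finset (Y × X × X)).filter fun p => E O p.1 ∧ E p.2.1 p.1 ∧ E p.2.2 p.1).card : ℝ) ≤
      DX * DY ^ 2 := by
  rw [card_filter_bi]
  simp only [Fintype.sum_prod_type, ← bi_mul]
  calc ∑ s, ∑ A, ∑ Q, bi (E O s) * (bi (E A s) * bi (E Q s))
      = ∑ s, ind E O s * ((∑ A, ind E A s) * (∑ Q, ind E Q s)) := by
        refine Finset.sum_congr rfl fun s _ => ?_
        rw [Finset.sum_mul_sum, Finset.mul_sum]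
        refine Finset.sum_congr rfl fun A _ => ?_
        rw [Finset.mul_sum]
        rfl
    _ ≤ ∑ s, ind E O s * (DY * DY) := by
        refine Finset.sum_le_sum fun s _ => mul_le_mul_of_nonneg_left ?_ (ind_nonneg _ _ _)
        exact mul_le_mul (hDY s) (hDY s) (Finset.sum_nonneg fun _ _ => ind_nonneg _ _ _) hDY0
    _ = (∑ s, ind E O s) * (DY * DY) := by rw [Finset.sum_mul]
    _ ≤ DX * (DY * DY) := mul_le_mul_of_nonneg_right (hDX O) (mul_nonneg hDY0 hDY0)
    _ = DX * DY ^ 2 := by ring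

end

end Pool.Agent.Lib.MP_a2fd8c_co
end

section

section

/-!
Counting light walks of length five in a weighted bipartite relation.
-/

namespace Pool.Agent.Lib.MP_a2fd8c_co

open Finset

/-- weighted count of walks `O s A k R b` -/
noncomputable def Tot {X Y : Type*} [Fintype X] [Fintype Y] (e : X → Y → ℝ)
    (g : X → Y → X → Y → X → Y → ℝ) : ℝ :=
  ∑ O, ∑ s, ∑ A, ∑ k, ∑ R, ∑ b, e O s * e A s * e A k * e R k * e R b * g O s A k R b

section
variable {X Y : Type*} [Fintype X] [Fintype Y] (e : X → Y → ℝ)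

lemma tot_swap (g : X → Y → X → Y → X → Y → ℝ) :
    Tot e g = Tot (fun y x => e x y) (fun b R k A s O => g O s A k R b) := by
  unfold Tot
  have h1 : ∀ f : X → Y → X → Y → X → Y → ℝ,
      ∑ O, ∑ s, ∑ A, ∑ k, ∑ R, ∑ b, f O s A k R b =
        ∑ p : X × Y × X × Y × X × Y, f p.1 p.2.1 p.2.2.1 p.2.2.2.1 p.2.2.2.2.1 p.2.2.2.2.2 := by
    intro f
    simp only [Fintype.sum_prod_type]
  have h2 : ∀ f : Y → X → Y → X → Y → X → ℝ,
      ∑ O, ∑ s, ∑ A, ∑ k, ∑ R, ∑ b, f O s A k R b =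
        ∑ p : Y × X × Y × X × Y × X, f p.1 p.2.1 p.2.2.1 p.2.2.2.1 p.2.2.2.2.1 p.2.2.2.2.2 := by
    intro f
    simp only [Fintype.sum_prod_type]
  rw [h1, h2]
  refine Fintype.sum_equiv
    { toFun := fun p => (p.2.2.2.2.2, p.2.2.2.2.1, p.2.2.2.1, p.2.2.1, p.2.1, p.1)
      invFun := fun p => (p.2.2.2.2.2, p.2.2.2.2.1, p.2.2.2.1, p.2.2.1, p.2.1, p.1)
      left_inv := fun _ => rfl
      right_inv := fun _ => rfl } _ _ ?_
  intro p
  simp only [Equiv.coe_fn_mk]
  ring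

/-- order `A k s O R b` -/
lemma tot_perm_a (g : X → Y → X → Y → X → Y → ℝ) :
    Tot e g = ∑ A, ∑ k, ∑ R, ∑ s, ∑ O, ∑ b,
      e O s * e A s * e A k * e R k * e R b * g O s A k R b := by
  unfold Tot
  have h1 : ∀ f : X → Y → X → Y → X → Y → ℝ,
      ∑ O, ∑ s, ∑ A, ∑ k, ∑ R, ∑ b, f O s A k R b =
        ∑ p : X × Y × X × Y × X × Y, f p.1 p.2.1 p.2.2.1 p.2.2.2.1 p.2.2.2.2.1 p.2.2.2.2.2 := by
    intro f
    simp only [Fintype.sum_prod_type]
  have h2 : ∀ f : X → Y → X → Y → X → Y → ℝ,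
      ∑ A, ∑ k, ∑ R, ∑ s, ∑ O, ∑ b, f O s A k R b =
        ∑ p : X × Y × X × Y × X × Y, f p.2.2.2.2.1 p.2.2.2.1 p.1 p.2.1 p.2.2.1 p.2.2.2.2.2 := by
    intro f
    simp only [Fintype.sum_prod_type]
  rw [h1, h2]
  exact Fintype.sum_equiv
    { toFun := fun p => (p.2.2.1, p.2.2.2.1, p.2.2.2.2.1, p.2.1, p.1, p.2.2.2.2.2)
      invFun := fun p => (p.2.2.2.2.1, p.2.2.2.1, p.1, p.2.1, p.2.2.1, p.2.2.2.2.2)
      left_inv := fun _ => rfl
      right_inv := fun _ => rfl } _ _ (fun _ => rfl)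

/-- order `O b k A s R` -/
lemma tot_perm_b (g : X → Y → X → Y → X → Y → ℝ) :
    Tot e g = ∑ O, ∑ b, ∑ k, ∑ A, ∑ s, ∑ R,
      e O s * e A s * e A k * e R k * e R b * g O s A k R b := by
  unfold Tot
  have h1 : ∀ f : X → Y → X → Y → X → Y → ℝ,
      ∑ O, ∑ s, ∑ A, ∑ k, ∑ R, ∑ b, f O s A k R b =
        ∑ p : X × Y × X × Y × X × Y, f p.1 p.2.1 p.2.2.1 p.2.2.2.1 p.2.2.2.2.1 p.2.2.2.2.2 := by
    intro f
    simp only [Fintype.sum_prod_type]
  have h2 : ∀ f : X → Y → X → Y → X → Y → ℝ,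
      ∑ O, ∑ b, ∑ k, ∑ A, ∑ s, ∑ R, f O s A k R b =
        ∑ p : X × Y × Y × X × Y × X, f p.1 p.2.2.2.2.1 p.2.2.2.1 p.2.2.1 p.2.2.2.2.2 p.2.1 := by
    intro f
    simp only [Fintype.sum_prod_type]
  rw [h1, h2]
  exact Fintype.sum_equiv
    { toFun := fun p => (p.1, p.2.2.2.2.2, p.2.2.2.1, p.2.2.1, p.2.1, p.2.2.2.2.1)
      invFun := fun p => (p.1, p.2.2.2.2.1, p.2.2.2.1, p.2.2.1, p.2.2.2.2.2, p.2.1)
      left_inv := fun _ => rfl
      right_inv := fun _ => rfl } _ _ (fun _ => rfl)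

variable {e}

lemma tot_lower (h0 : ∀ x y, 0 ≤ e x y) (dX dY : ℝ) (hdX0 : 0 ≤ dX) (hdY0 : 0 ≤ dY)
    (hdX : ∀ x, dX ≤ ∑ y, e x y) (hdY : ∀ y, dY ≤ ∑ x, e x y) :
    (∑ x, ∑ y, e x y) * dX ^ 2 * dY ^ 2 ≤ Tot e (fun _ _ _ _ _ _ => 1) := by
  rw [tot_perm_a]
  have h1 : ∀ A : X, dX * dY ≤ ∑ s, e A s * ∑ O, e O s := by
    intro A
    calc dX * dY ≤ (∑ s, e A s) * dY := mul_le_mul_of_nonneg_right (hdX A) hdY0
      _ = ∑ s, e A s * dY := by rw [Finset.sum_mul]
      _ ≤ ∑ s, e A s * ∑ O, e O s :=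
        Finset.sum_le_sum fun s _ => mul_le_mul_of_nonneg_left (hdY s) (h0 _ _)
  have h2 : ∀ k : Y, dY * dX ≤ ∑ R, e R k * ∑ b, e R b := by
    intro k
    calc dY * dX ≤ (∑ R, e R k) * dX := mul_le_mul_of_nonneg_right (hdY k) hdX0
      _ = ∑ R, e R k * dX := by rw [Finset.sum_mul]
      _ ≤ ∑ R, e R k * ∑ b, e R b :=
        Finset.sum_le_sum fun s _ => mul_le_mul_of_nonneg_left (hdX s) (h0 _ _)
  have h3 : ∀ A k, ∑ R, ∑ s, ∑ O, ∑ b, e O s * e A s * e A k * e R k * e R b * 1 =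
      e A k * ((∑ s, e A s * ∑ O, e O s) * (∑ R, e R k * ∑ b, e R b)) := by
    intro A k
    rw [Finset.sum_mul_sum, Finset.sum_comm, Finset.mul_sum]
    refine Finset.sum_congr rfl fun s _ => ?_
    rw [Finset.mul_sum]
    refine Finset.sum_congr rfl fun R _ => ?_
    rw [Finset.mul_sum, Finset.mul_sum, Finset.sum_mul_sum, Finset.mul_sum]
    refine Finset.sum_congr rfl fun O _ => ?_
    rw [Finset.mul_sum]
    refine Finset.sum_congr rfl fun b _ => ?_
    ring
  calc (∑ x, ∑ y, e x y) * dX ^ 2 * dY ^ 2 = ∑ A, ∑ k, e A k * ((dX * dY) * (dY * dX)) := by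
        simp only [Finset.sum_mul]
        refine Finset.sum_congr rfl fun A _ => Finset.sum_congr rfl fun k _ => ?_
        ring
    _ ≤ ∑ A, ∑ k, e A k * ((∑ s, e A s * ∑ O, e O s) * (∑ R, e R k * ∑ b, e R b)) := by
        refine Finset.sum_le_sum fun A _ => Finset.sum_le_sum fun k _ => ?_
        refine mul_le_mul_of_nonneg_left ?_ (h0 _ _)
        exact mul_le_mul (h1 A) (h2 k) (mul_nonneg hdY0 hdX0)
          ((mul_nonneg hdX0 hdY0).trans (h1 A))
    _ = _ := by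
        refine Finset.sum_congr rfl fun A _ => Finset.sum_congr rfl fun k _ => ?_
        rw [h3]

lemma tot_bad1 (h0 : ∀ x y, 0 ≤ e x y) (DX DY tX : ℝ) (hDX0 : 0 ≤ DX) (hDY0 : 0 ≤ DY)
    (hDX : ∀ x, ∑ y, e x y ≤ DX) (hDY : ∀ y, ∑ x, e x y ≤ DY)
    (q : X → X → ℝ) (hq : ∀ x x', 0 ≤ q x x')
    (ht : ∀ x, ∑ y, ∑ x', e x y * e x' y * q x x' ≤ tX) :
    Tot e (fun O _ A _ _ _ => q O A) ≤ (Fintype.card X : ℝ) * tX * (DX ^ 2 * DY) := by
  unfold Tot
  have h1 : ∀ A : X, ∑ k, e A k * ∑ R, e R k * ∑ b, e R b ≤ DX ^ 2 * DY := by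
    intro A
    calc ∑ k, e A k * ∑ R, e R k * ∑ b, e R b ≤ ∑ k, e A k * (DY * DX) := by
          refine Finset.sum_le_sum fun k _ => mul_le_mul_of_nonneg_left ?_ (h0 _ _)
          calc ∑ R, e R k * ∑ b, e R b ≤ ∑ R, e R k * DX :=
                Finset.sum_le_sum fun R _ => mul_le_mul_of_nonneg_left (hDX R) (h0 _ _)
            _ = (∑ R, e R k) * DX := by rw [Finset.sum_mul]
            _ ≤ DY * DX := mul_le_mul_of_nonneg_right (hDY k) hDX0
      _ = (∑ k, e A k) * (DY * DX) := by rw [Finset.sum_mul]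
      _ ≤ DX * (DY * DX) := mul_le_mul_of_nonneg_right (hDX A) (mul_nonneg hDY0 hDX0)
      _ = DX ^ 2 * DY := by ring
  have h2 : ∀ O s A, ∑ k, ∑ R, ∑ b, e O s * e A s * e A k * e R k * e R b * q O A =
      (e O s * e A s * q O A) * ∑ k, e A k * ∑ R, e R k * ∑ b, e R b := by
    intro O s A
    simp only [Finset.mul_sum]
    refine Finset.sum_congr rfl fun k _ => Finset.sum_congr rfl fun R _ =>
      Finset.sum_congr rfl fun b _ => ?_
    ring
  calc ∑ O, ∑ s, ∑ A, ∑ k, ∑ R, ∑ b, e O s * e A s * e A k * e R k * e R b * q O A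
      = ∑ O, ∑ s, ∑ A, (e O s * e A s * q O A) * ∑ k, e A k * ∑ R, e R k * ∑ b, e R b := by
        refine Finset.sum_congr rfl fun O _ => Finset.sum_congr rfl fun s _ =>
          Finset.sum_congr rfl fun A _ => h2 O s A
    _ ≤ ∑ O, ∑ s, ∑ A, (e O s * e A s * q O A) * (DX ^ 2 * DY) := by
        refine Finset.sum_le_sum fun O _ => Finset.sum_le_sum fun s _ =>
          Finset.sum_le_sum fun A _ => ?_
        exact mul_le_mul_of_nonneg_left (h1 A)
          (mul_nonneg (mul_nonneg (h0 _ _) (h0 _ _)) (hq _ _))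
    _ = ∑ O, (∑ s, ∑ A, e O s * e A s * q O A) * (DX ^ 2 * DY) := by
        simp only [Finset.sum_mul]
    _ ≤ ∑ O : X, tX * (DX ^ 2 * DY) := by
        refine Finset.sum_le_sum fun O _ => ?_
        exact mul_le_mul_of_nonneg_right (ht O) (by positivity)
    _ = (Fintype.card X : ℝ) * tX * (DX ^ 2 * DY) := by
        rw [Finset.sum_const, Finset.card_univ, nsmul_eq_mul]
        ring

lemma tot_bad2 (h0 : ∀ x y, 0 ≤ e x y) (DX DY tX : ℝ) (hDX0 : 0 ≤ DX) (hDY0 : 0 ≤ DY)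
    (hDX : ∀ x, ∑ y, e x y ≤ DX) (hDY : ∀ y, ∑ x, e x y ≤ DY)
    (q : X → X → ℝ) (hq : ∀ x x', 0 ≤ q x x')
    (ht : ∀ x, ∑ y, ∑ x', e x y * e x' y * q x x' ≤ tX) :
    Tot e (fun _ _ A _ R _ => q A R) ≤ (Fintype.card X : ℝ) * tX * (DX ^ 2 * DY) := by
  rw [tot_perm_a]
  have h2 : ∀ A k R, ∑ s, ∑ O, ∑ b, e O s * e A s * e A k * e R k * e R b * q A R =
      (e A k * e R k * q A R) * ((∑ s, e A s * ∑ O, e O s) * ∑ b, e R b) := by
    intro A k R
    rw [Finset.sum_mul, Finset.mul_sum]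
    refine Finset.sum_congr rfl fun s _ => ?_
    rw [mul_assoc (e A s), Finset.sum_mul_sum, Finset.mul_sum, Finset.mul_sum]
    refine Finset.sum_congr rfl fun O _ => ?_
    rw [Finset.mul_sum, Finset.mul_sum]
    refine Finset.sum_congr rfl fun b _ => ?_
    ring
  have h1 : ∀ A R : X, (∑ s, e A s * ∑ O, e O s) * ∑ b, e R b ≤ DX ^ 2 * DY := by
    intro A R
    have h3 : ∑ s, e A s * ∑ O, e O s ≤ DX * DY := by
      calc ∑ s, e A s * ∑ O, e O s ≤ ∑ s, e A s * DY :=
            Finset.sum_le_sum fun R _ => mul_le_mul_of_nonneg_left (hDY R) (h0 _ _)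
        _ = (∑ s, e A s) * DY := by rw [Finset.sum_mul]
        _ ≤ DX * DY := mul_le_mul_of_nonneg_right (hDX A) hDY0
    calc (∑ s, e A s * ∑ O, e O s) * ∑ b, e R b ≤ (DX * DY) * DX :=
          mul_le_mul h3 (hDX R) (Finset.sum_nonneg fun _ _ => h0 _ _) (mul_nonneg hDX0 hDY0)
      _ = DX ^ 2 * DY := by ring
  calc ∑ A, ∑ k, ∑ R, ∑ s, ∑ O, ∑ b, e O s * e A s * e A k * e R k * e R b * q A R
      = ∑ A, ∑ k, ∑ R, (e A k * e R k * q A R) * ((∑ s, e A s * ∑ O, e O s) * ∑ b, e R b) := by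
        refine Finset.sum_congr rfl fun A _ => Finset.sum_congr rfl fun k _ =>
          Finset.sum_congr rfl fun R _ => h2 A k R
    _ ≤ ∑ A, ∑ k, ∑ R, (e A k * e R k * q A R) * (DX ^ 2 * DY) := by
        refine Finset.sum_le_sum fun A _ => Finset.sum_le_sum fun k _ =>
          Finset.sum_le_sum fun R _ => ?_
        exact mul_le_mul_of_nonneg_left (h1 A R)
          (mul_nonneg (mul_nonneg (h0 _ _) (h0 _ _)) (hq _ _))
    _ = ∑ A, (∑ k, ∑ R, e A k * e R k * q A R) * (DX ^ 2 * DY) := by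
        simp only [Finset.sum_mul]
    _ ≤ ∑ A : X, tX * (DX ^ 2 * DY) := by
        refine Finset.sum_le_sum fun A _ => ?_
        exact mul_le_mul_of_nonneg_right (ht A) (by positivity)
    _ = (Fintype.card X : ℝ) * tX * (DX ^ 2 * DY) := by
        rw [Finset.sum_const, Finset.card_univ, nsmul_eq_mul]
        ring

lemma tot_bad3 [DecidableEq X] (h0 : ∀ x y, 0 ≤ e x y) (DX DY hX : ℝ) (hDX0 : 0 ≤ DX)
    (hDY0 : 0 ≤ DY) (hhX : 0 ≤ hX)
    (hDX : ∀ x, ∑ y, e x y ≤ DX) (hDY : ∀ y, ∑ x, e x y ≤ DY)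
    (q : X → X → ℝ)
    (hl : ∀ x x', q x x' * ∑ y, e x y * e x' y ≤ hX) :
    Tot e (fun O _ A _ R _ => (if O = R then 1 else 0) * q O A) ≤
      (∑ x, ∑ y, e x y) * (DX * DY * hX) := by
  rw [tot_perm_b]
  have h2 : ∀ O b, ∑ k, ∑ A, ∑ s, ∑ R, e O s * e A s * e A k * e R k * e R b *
      ((if O = R then 1 else 0) * q O A) =
      e O b * ∑ k, e O k * ∑ A, e A k * (q O A * ∑ s, e O s * e A s) := by
    intro O b
    simp only [Finset.mul_sum]
    refine Finset.sum_congr rfl fun k _ => Finset.sum_congr rfl fun A _ =>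
      Finset.sum_congr rfl fun s _ => ?_
    rw [Finset.sum_eq_single O]
    · rw [if_pos rfl]; ring
    · intro R _ hR
      rw [if_neg (Ne.symm hR)]; ring
    · intro h; exact absurd (Finset.mem_univ _) h
  have h1 : ∀ O, ∑ k, e O k * ∑ A, e A k * (q O A * ∑ s, e O s * e A s) ≤ DX * DY * hX := by
    intro O
    calc ∑ k, e O k * ∑ A, e A k * (q O A * ∑ s, e O s * e A s)
        ≤ ∑ k, e O k * (DY * hX) := by
          refine Finset.sum_le_sum fun k _ => mul_le_mul_of_nonneg_left ?_ (h0 _ _)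
          calc ∑ A, e A k * (q O A * ∑ s, e O s * e A s) ≤ ∑ A, e A k * hX :=
                Finset.sum_le_sum fun R _ => mul_le_mul_of_nonneg_left (hl O R) (h0 _ _)
            _ = (∑ A, e A k) * hX := by rw [Finset.sum_mul]
            _ ≤ DY * hX := mul_le_mul_of_nonneg_right (hDY k) hhX
      _ = (∑ k, e O k) * (DY * hX) := by rw [Finset.sum_mul]
      _ ≤ DX * (DY * hX) := mul_le_mul_of_nonneg_right (hDX O) (mul_nonneg hDY0 hhX)
      _ = DX * DY * hX := by ring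
  calc ∑ O, ∑ b, ∑ k, ∑ A, ∑ s, ∑ R, e O s * e A s * e A k * e R k * e R b *
      ((if O = R then 1 else 0) * q O A)
      = ∑ O, ∑ b, e O b * ∑ k, e O k * ∑ A, e A k * (q O A * ∑ s, e O s * e A s) := by
        refine Finset.sum_congr rfl fun O _ => Finset.sum_congr rfl fun b _ => h2 O b
    _ ≤ ∑ O, ∑ b, e O b * (DX * DY * hX) := by
        refine Finset.sum_le_sum fun O _ => Finset.sum_le_sum fun b _ => ?_
        exact mul_le_mul_of_nonneg_left (h1 O) (h0 _ _)
    _ = (∑ x, ∑ y, e x y) * (DX * DY * hX) := by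
        simp only [Finset.sum_mul]

/-- lower bound for the number of light walks -/
theorem tot_light [DecidableEq X] [DecidableEq Y] (h0 : ∀ x y, 0 ≤ e x y)
    (dX dY DX DY hX hY tX tY : ℝ) (hdX0 : 0 ≤ dX) (hdY0 : 0 ≤ dY) (hDX0 : 0 ≤ DX)
    (hDY0 : 0 ≤ DY) (hhX : 0 ≤ hX) (hhY : 0 ≤ hY)
    (hdX : ∀ x, dX ≤ ∑ y, e x y) (hdY : ∀ y, dY ≤ ∑ x, e x y)
    (hDX : ∀ x, ∑ y, e x y ≤ DX) (hDY : ∀ y, ∑ x, e x y ≤ DY)
    (lx : X → X → ℝ) (ly : Y → Y → ℝ)
    (lx0 : ∀ x x', 0 ≤ lx x x') (lx1 : ∀ x x', lx x x' ≤ 1)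
    (ly0 : ∀ x x', 0 ≤ ly x x') (ly1 : ∀ x x', ly x x' ≤ 1)
    (lys : ∀ y y', ly y y' = ly y' y)
    (hlx : ∀ x x', lx x x' * ∑ y, e x y * e x' y ≤ hX)
    (hly : ∀ y y', ly y y' * ∑ x, e x y * e x y' ≤ hY)
    (htX : ∀ x, ∑ y, ∑ x', e x y * e x' y * (1 - lx x x') ≤ tX)
    (htY : ∀ y, ∑ x, ∑ y', e x y * e x y' * (1 - ly y y') ≤ tY) :
    (∑ x, ∑ y, e x y) * dX ^ 2 * dY ^ 2 - 2 * (Fintype.card X : ℝ) * tX * (DX ^ 2 * DY)
      - 2 * (Fintype.card Y : ℝ) * tY * (DY ^ 2 * DX)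
      - (∑ x, ∑ y, e x y) * (DX * DY * (hX + hY)) ≤
    Tot e (fun O s A k R b => lx O A * lx A R * ly s k * ly k b *
      (if O = R then 0 else 1) * (if s = b then 0 else 1)) := by
  have key : Tot e (fun _ _ _ _ _ _ => 1)
      - Tot e (fun O _ A _ _ _ => 1 - lx O A) - Tot e (fun _ _ A _ R _ => 1 - lx A R)
      - Tot e (fun _ s _ k _ _ => 1 - ly k s) - Tot e (fun _ _ _ k _ b => 1 - ly b k)
      - Tot e (fun O _ A _ R _ => (if O = R then 1 else 0) * lx O A)
      - Tot e (fun _ s _ k _ b => (if b = s then 1 else 0) * ly b k) ≤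
      Tot e (fun O s A k R b => lx O A * lx A R * ly s k * ly k b *
      (if O = R then 0 else 1) * (if s = b then 0 else 1)) := by
    unfold Tot
    simp only [← Finset.sum_sub_distrib]
    refine Finset.sum_le_sum fun O _ => Finset.sum_le_sum fun s _ => Finset.sum_le_sum fun A _ =>
      Finset.sum_le_sum fun k _ => Finset.sum_le_sum fun R _ => Finset.sum_le_sum fun b _ => ?_
    have hw : 0 ≤ e O s * e A s * e A k * e R k * e R b :=
      mul_nonneg (mul_nonneg (mul_nonneg (mul_nonneg (h0 _ _) (h0 _ _)) (h0 _ _)) (h0 _ _)) (h0 _ _)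
    rw [lys b k, lys k s]
    have hineq : 1 - (1 - lx O A) - (1 - lx A R) - (1 - ly s k) - (1 - ly k b)
        - ((if O = R then 1 else 0) * lx O A) - ((if b = s then 1 else 0) * ly k b) ≤
        lx O A * lx A R * ly s k * ly k b *
      (if O = R then 0 else 1) * (if s = b then 0 else 1) := by
      have a0 := lx0 O A
      have a1 := lx1 O A
      have b0 := lx0 A R
      have b1 := lx1 A R
      have c0 := ly0 s k
      have c1 := ly1 s k
      have d0 := ly0 k b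
      have d1 := ly1 k b
      by_cases hOR : O = R
      · by_cases hsb : s = b
        · simp only [if_pos hOR, if_pos hsb, if_pos hsb.symm]
          linarith
        · simp only [if_pos hOR, if_neg hsb, if_neg (Ne.symm hsb)]
          linarith
      · by_cases hsb : s = b
        · simp only [if_neg hOR, if_pos hsb, if_pos hsb.symm]
          linarith
        · simp only [if_neg hOR, if_neg hsb, if_neg (Ne.symm hsb)]
          have e1 : lx O A + lx A R - 1 ≤ lx O A * lx A R := by nlinarith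
          have e1' : lx O A * lx A R ≤ 1 := by nlinarith
          have e1'' : 0 ≤ lx O A * lx A R := mul_nonneg a0 b0
          have e2 : lx O A * lx A R + ly s k - 1 ≤ lx O A * lx A R * ly s k := by nlinarith
          have e2' : lx O A * lx A R * ly s k ≤ 1 := by nlinarith
          have e2'' : 0 ≤ lx O A * lx A R * ly s k := mul_nonneg e1'' c0
          have e3 : lx O A * lx A R * ly s k + ly k b - 1 ≤ lx O A * lx A R * ly s k * ly k b := by
            nlinarith
          linarith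
    calc _ = e O s * e A s * e A k * e R k * e R b *
          (1 - (1 - lx O A) - (1 - lx A R) - (1 - ly s k) - (1 - ly k b)
        - ((if O = R then 1 else 0) * lx O A) - ((if b = s then 1 else 0) * ly k b)) := by ring
      _ ≤ _ := mul_le_mul_of_nonneg_left hineq hw
  have t0 := tot_lower h0 dX dY hdX0 hdY0 hdX hdY
  have t1 := tot_bad1 h0 DX DY tX hDX0 hDY0 hDX hDY (fun x x' => 1 - lx x x')
    (fun x x' => sub_nonneg.2 (lx1 x x')) htX
  have t2 := tot_bad2 h0 DX DY tX hDX0 hDY0 hDX hDY (fun x x' => 1 - lx x x')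
    (fun x x' => sub_nonneg.2 (lx1 x x')) htX
  have t3 := tot_bad3 h0 DX DY hX hDX0 hDY0 hhX hDX hDY lx hlx
  have t4 := tot_bad1 (e := fun y x => e x y) (fun y x => h0 x y) DY DX tY hDY0 hDX0 hDY hDX
    (fun x x' => 1 - ly x x') (fun x x' => sub_nonneg.2 (ly1 x x')) htY
  have t5 := tot_bad2 (e := fun y x => e x y) (fun y x => h0 x y) DY DX tY hDY0 hDX0 hDY hDX
    (fun x x' => 1 - ly x x') (fun x x' => sub_nonneg.2 (ly1 x x')) htY
  have t6 := tot_bad3 (e := fun y x => e x y) (fun y x => h0 x y) DY DX hY hDY0 hDX0 hhY hDY hDX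
    ly hly
  have s4 : Tot e (fun _ _ _ k _ b => 1 - ly b k) =
      Tot (fun y x => e x y) (fun O _ A _ _ _ => 1 - ly O A) := by
    rw [tot_swap]
  have s5 : Tot e (fun _ s _ k _ _ => 1 - ly k s) =
      Tot (fun y x => e x y) (fun _ _ A _ R _ => 1 - ly A R) := by
    rw [tot_swap]
  have s6 : Tot e (fun _ s _ k _ b => (if b = s then 1 else 0) * ly b k) =
      Tot (fun y x => e x y) (fun O _ A _ R _ => (if O = R then 1 else 0) * ly O A) := by
    rw [tot_swap]
  have s7 : ∑ y, ∑ x, e x y = ∑ x, ∑ y, e x y := Finset.sum_comm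
  rw [← s4] at t4
  rw [← s5] at t5
  rw [← s6, s7] at t6
  nlinarith [key, t0, t1, t2, t3, t4, t5, t6]

end

end Pool.Agent.Lib.MP_a2fd8c_co
end

section

/-!
The embedding lemma: a bipartite relation which is dense in the triple count contains the
configuration `Neck`.
-/

namespace Pool.Agent.Lib.MP_a2fd8c_co

open Finset

namespace TD

section count

variable {I Y : Type} [Fintype I] [DecidableEq I] [DecidableEq Y]

/-- functions with prescribed values on `T` -/
lemma card_prescribed (N : Finset Y) (T : Finset I) (f : I → Y) :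
    ((Fintype.piFinset fun _ : I => N).filter fun φ => ∀ i ∈ T, φ i = f i).card
      ≤ N.card ^ (Fintype.card I - T.card) := by
  classical
  calc ((Fintype.piFinset fun _ : I => N).filter fun φ => ∀ i ∈ T, φ i = f i).card
      ≤ (Fintype.piFinset fun i : I => if i ∈ T then {f i} else N).card := by
        apply card_le_card
        intro φ hφ
        rw [mem_filter, Fintype.mem_piFinset] at hφ
        rw [Fintype.mem_piFinset]
        intro i
        by_cases hi : i ∈ T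
        · simp [hi, hφ.2 i hi]
        · simp [hi, hφ.1 i]
    _ = ∏ i : I, (if i ∈ T then 1 else N.card) := by
        rw [Fintype.card_piFinset]
        apply Finset.prod_congr rfl
        intro i _
        by_cases hi : i ∈ T
        · simp [hi]
        · simp [hi]
    _ = N.card ^ (Fintype.card I - T.card) := by
        rw [Finset.prod_ite]
        simp only [prod_const_one, one_mul, prod_const]
        congr 1
        have h : (univ.filter fun i : I => i ∉ T) = Tᶜ := by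
          ext i; simp
        rw [h, card_compl]

/-- functions with a coincidence at `i ≠ j` -/
lemma card_coincide (N : Finset Y) {i j : I} (hij : i ≠ j) (hI : 2 ≤ Fintype.card I) :
    ((Fintype.piFinset fun _ : I => N).filter fun φ => φ i = φ j).card
      ≤ N.card ^ (Fintype.card I - 1) := by
  classical
  calc ((Fintype.piFinset fun _ : I => N).filter fun φ => φ i = φ j).card
      ≤ (N.biUnion fun u => (Fintype.piFinset fun _ : I => N).filter
          fun φ => ∀ a ∈ ({i, j} : Finset I), φ a = (fun _ => u) a).card := by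
        apply card_le_card
        intro φ hφ
        rw [mem_filter] at hφ
        rw [mem_biUnion]
        refine ⟨φ i, (Fintype.mem_piFinset.1 hφ.1) i, ?_⟩
        rw [mem_filter]
        refine ⟨hφ.1, ?_⟩
        intro a ha
        rw [mem_insert, mem_singleton] at ha
        rcases ha with rfl | rfl
        · rfl
        · exact hφ.2.symm
    _ ≤ ∑ u ∈ N, N.card ^ (Fintype.card I - ({i, j} : Finset I).card) :=
        card_biUnion_le.trans (Finset.sum_le_sum fun u _ => card_prescribed N _ _)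
    _ = N.card ^ (Fintype.card I - 1) := by
        rw [card_pair hij, sum_const, smul_eq_mul]
        obtain ⟨n, hn⟩ : ∃ n, Fintype.card I = n + 2 := ⟨_, (Nat.sub_add_cancel hI).symm⟩
        rw [hn]
        simp only [Nat.add_sub_cancel, Nat.add_succ_sub_one]
        rw [pow_succ, mul_comm]

/-- functions which are bad at a triple of distinct indices -/
lemma card_badAt (N : Finset Y) (B : Finset (Y × Y × Y)) {p q r : I} (hpq : p ≠ q)
    (hpr : p ≠ r) (hqr : q ≠ r) :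
    ((Fintype.piFinset fun _ : I => N).filter fun φ => (φ p, φ q, φ r) ∈ B).card
      ≤ B.card * N.card ^ (Fintype.card I - 3) := by
  classical
  calc ((Fintype.piFinset fun _ : I => N).filter fun φ => (φ p, φ q, φ r) ∈ B).card
      ≤ (B.biUnion fun t => (Fintype.piFinset fun _ : I => N).filter
          fun φ => ∀ a ∈ ({p, q, r} : Finset I),
            φ a = (fun a => if a = p then t.1 else if a = q then t.2.1 else t.2.2) a).card := by
        apply card_le_card
        intro φ hφ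
        rw [mem_filter] at hφ
        rw [mem_biUnion]
        refine ⟨_, hφ.2, ?_⟩
        rw [mem_filter]
        refine ⟨hφ.1, ?_⟩
        intro a ha
        rw [mem_insert, mem_insert, mem_singleton] at ha
        rcases ha with rfl | rfl | rfl
        · simp
        · simp [hpq.symm]
        · simp [hpr.symm, hqr.symm]
    _ ≤ ∑ t ∈ B, N.card ^ (Fintype.card I - ({p, q, r} : Finset I).card) :=
        card_biUnion_le.trans (Finset.sum_le_sum fun u _ => card_prescribed N _ _)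
    _ = B.card * N.card ^ (Fintype.card I - 3) := by
        have h3 : ({p, q, r} : Finset I).card = 3 := by
          rw [card_eq_three]; exact ⟨p, q, r, hpq, hpr, hqr, rfl⟩
        rw [h3, sum_const, smul_eq_mul]

/-- union bound: an injective function which is good at every triple of a family -/
lemma exists_good (N : Finset Y) (B : Finset (Y × Y × Y)) {J : Type} [Fintype J]
    (τ : J → I × I × I) (h1 : ∀ j, (τ j).1 ≠ (τ j).2.1) (h2 : ∀ j, (τ j).1 ≠ (τ j).2.2)
    (h3 : ∀ j, (τ j).2.1 ≠ (τ j).2.2) (hI : 3 ≤ Fintype.card I)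
    (hD : 2 * Fintype.card I ^ 2 ≤ N.card) (hB : 4 * Fintype.card J * B.card < N.card ^ 3) :
    ∃ φ : I → Y, Function.Injective φ ∧ (∀ i, φ i ∈ N) ∧
      ∀ j, (φ (τ j).1, φ (τ j).2.1, φ (τ j).2.2) ∉ B := by
  classical
  by_contra hcon
  push Not at hcon
  set P : Finset (I → Y) := Fintype.piFinset fun _ : I => N with hP
  have hcover : P ⊆ ((univ : Finset (I × I)).filter fun p => p.1 ≠ p.2).biUnion
      (fun p => P.filter fun φ => φ p.1 = φ p.2) ∪
      (univ : Finset J).biUnion (fun j => P.filter fun φ =>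
        (φ (τ j).1, φ (τ j).2.1, φ (τ j).2.2) ∈ B) := by
    intro φ hφ
    rw [mem_union]
    by_cases hinj : Function.Injective φ
    · right
      obtain ⟨j, hj⟩ := hcon φ hinj (Fintype.mem_piFinset.1 hφ)
      rw [mem_biUnion]
      exact ⟨j, mem_univ _, mem_filter.2 ⟨hφ, hj⟩⟩
    · left
      rw [Function.not_injective_iff] at hinj
      obtain ⟨a, b, hab, hne⟩ := hinj
      rw [mem_biUnion]
      exact ⟨(a, b), by simpa using hne, mem_filter.2 ⟨hφ, hab⟩⟩
  have hcard := (card_le_card hcover).trans (card_union_le _ _)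
  have hPc : P.card = N.card ^ Fintype.card I := by
    rw [hP, Fintype.card_piFinset, prod_const, card_univ]
  have hA : (((univ : Finset (I × I)).filter fun p => p.1 ≠ p.2).biUnion
      (fun p => P.filter fun φ => φ p.1 = φ p.2)).card ≤
      Fintype.card I ^ 2 * N.card ^ (Fintype.card I - 1) := by
    calc _ ≤ ∑ p ∈ (univ : Finset (I × I)).filter fun p => p.1 ≠ p.2,
          N.card ^ (Fintype.card I - 1) := by
          refine card_biUnion_le.trans (Finset.sum_le_sum fun p hp => ?_)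
          exact card_coincide N (mem_filter.1 hp).2 (by omega)
      _ ≤ ∑ p : I × I, N.card ^ (Fintype.card I - 1) :=
          Finset.sum_le_sum_of_subset (filter_subset _ _)
      _ = Fintype.card I ^ 2 * N.card ^ (Fintype.card I - 1) := by
          rw [sum_const, smul_eq_mul, card_univ, Fintype.card_prod, sq]
  have hC : ((univ : Finset J).biUnion (fun j => P.filter fun φ =>
        (φ (τ j).1, φ (τ j).2.1, φ (τ j).2.2) ∈ B)).card ≤
      Fintype.card J * (B.card * N.card ^ (Fintype.card I - 3)) := by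
    calc _ ≤ ∑ j : J, B.card * N.card ^ (Fintype.card I - 3) := by
          refine card_biUnion_le.trans (Finset.sum_le_sum fun j _ => ?_)
          exact card_badAt N B (h1 j) (h2 j) (h3 j)
      _ = _ := by rw [sum_const, smul_eq_mul, card_univ]
  obtain ⟨n, hn⟩ : ∃ n, Fintype.card I = n + 3 := ⟨_, (Nat.sub_add_cancel hI).symm⟩
  rw [hPc] at hcard
  have hmain : N.card ^ (n + 3) ≤ (n + 3) ^ 2 * N.card ^ (n + 2)
      + Fintype.card J * (B.card * N.card ^ n) := by
    rw [hn] at hcard hA hC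
    simp only [Nat.add_succ_sub_one, Nat.add_sub_cancel] at hA hC
    omega
  rw [hn] at hD
  have hDpos : 0 < N.card := lt_of_lt_of_le (by positivity) hD
  have e1 : 2 * ((n + 3) ^ 2 * N.card ^ (n + 2)) ≤ N.card ^ (n + 3) := by
    calc 2 * ((n + 3) ^ 2 * N.card ^ (n + 2)) = (2 * (n + 3) ^ 2) * N.card ^ (n + 2) := by ring
      _ ≤ N.card * N.card ^ (n + 2) := Nat.mul_le_mul_right _ hD
      _ = N.card ^ (n + 3) := by ring
  have e2 : 4 * (Fintype.card J * (B.card * N.card ^ n)) < N.card ^ (n + 3) := by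
    calc 4 * (Fintype.card J * (B.card * N.card ^ n))
        = (4 * Fintype.card J * B.card) * N.card ^ n := by ring
      _ < N.card ^ 3 * N.card ^ n := Nat.mul_lt_mul_of_pos_right hB (by positivity)
      _ = N.card ^ (n + 3) := by ring
  have e3 : 0 < N.card ^ (n + 3) := by positivity
  omega

end count

/-- predecessor mod `m` -/
def prv {m : ℕ} (i : Fin m) : Fin m := ⟨(i + (m - 1)) % m, Nat.mod_lt _ (by have := i.2; omega)⟩

lemma prv_ne {m : ℕ} (hm : 2 ≤ m) (i : Fin m) : prv i ≠ i := by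
  intro h
  have h1 := congrArg Fin.val h
  simp only [prv] at h1
  have hi := i.2
  rcases Nat.eq_zero_or_pos (i : ℕ) with h0 | h0
  · rw [h0, Nat.zero_add, Nat.mod_eq_of_lt (by omega)] at h1
    omega
  · have : (i : ℕ) + (m - 1) = (i - 1) + m := by omega
    rw [this, Nat.add_mod_right, Nat.mod_eq_of_lt (by omega)] at h1
    omega

/-- `i % m` as an element of `Fin m` -/
def md (m : ℕ) (hm : 0 < m) (i : ℕ) : Fin m := ⟨i % m, Nat.mod_lt _ hm⟩

lemma prv_md {m : ℕ} (hm : 0 < m) (i : ℕ) : prv (md m hm (i + 1)) = md m hm i := by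
  apply Fin.ext
  simp only [prv, md]
  rw [Nat.mod_add_mod]
  have : i + 1 + (m - 1) = i + m := by omega
  rw [this, Nat.add_mod_right]

lemma md_inj {m : ℕ} (hm : 0 < m) {i j : ℕ} (hi : i < m) (hj : j < m)
    (h : md m hm i = md m hm j) : i = j := by
  have := congrArg Fin.val h
  simp only [md] at this
  rwa [Nat.mod_eq_of_lt hi, Nat.mod_eq_of_lt hj] at this

/-- the triple of neighbours of the vertices `A i`, `Q i`, `R i` -/
def tri {m : ℕ} (j : Fin 3 × Fin m) :
    Option (Fin 3 × Fin m) × Option (Fin 3 × Fin m) × Option (Fin 3 × Fin m) :=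
  if j.1 = 0 then (some (0, j.2), some (1, j.2), some (1, prv j.2))
  else if j.1 = 1 then (some (0, j.2), some (2, j.2), some (2, prv j.2))
  else (some (1, j.2), some (2, j.2), none)

lemma tri_ne {m : ℕ} (hm : 2 ≤ m) (j : Fin 3 × Fin m) :
    (tri j).1 ≠ (tri j).2.1 ∧ (tri j).1 ≠ (tri j).2.2 ∧ (tri j).2.1 ≠ (tri j).2.2 := by
  obtain ⟨c, i⟩ := j
  have hp := (prv_ne hm i).symm
  fin_cases c
  · simp [tri, hp]
  · simp [tri, hp]
  · simp [tri]

section graph

variable {X Y : Type} [Fintype X] [Fintype Y] [DecidableEq X] [DecidableEq Y] (E : X → Y → Prop)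
  [∀ x y, Decidable (E x y)]

/-- neighbourhood -/
def nb (x : X) : Finset Y := univ.filter fun y => E x y

/-- common neighbourhood of a triple -/
def com (t : Y × Y × Y) : Finset X := univ.filter fun x => E x t.1 ∧ E x t.2.1 ∧ E x t.2.2

/-- bad triples in the neighbourhood of `x` -/
def bad (m : ℕ) (x : X) : Finset (Y × Y × Y) :=
  (univ : Finset (Y × Y × Y)).filter fun t => (com E t).card ≤ 3 * m ∧ x ∈ com E t

lemma sum_bad (m : ℕ) : ∑ x : X, (bad E m x).card ≤ 3 * m * Fintype.card Y ^ 3 := by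
  calc ∑ x : X, (bad E m x).card
      = ∑ x : X, ∑ t : Y × Y × Y, (if (com E t).card ≤ 3 * m ∧ x ∈ com E t then 1 else 0) := by
        apply sum_congr rfl
        intro x _
        rw [bad, card_filter]
    _ = ∑ t : Y × Y × Y, ∑ x : X, (if (com E t).card ≤ 3 * m ∧ x ∈ com E t then 1 else 0) :=
        sum_comm
    _ ≤ ∑ t : Y × Y × Y, 3 * m := by
        apply Finset.sum_le_sum
        intro t _
        by_cases ht : (com E t).card ≤ 3 * m
        · simp only [ht, true_and]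
          rw [← card_filter]
          refine le_trans (le_of_eq ?_) ht
          congr 1
          ext x; simp
        · simp [ht]
    _ = 3 * m * Fintype.card Y ^ 3 := by
        rw [sum_const, card_univ, smul_eq_mul, Fintype.card_prod, Fintype.card_prod]
        ring

lemma sum_nb : ∑ x : X, (nb E x).card = (univ.filter fun p : X × Y => E p.1 p.2).card := by
  rw [card_filter, Fintype.sum_prod_type]
  apply sum_congr rfl
  intro x _
  rw [nb, card_filter]

/-- a vertex of large degree most of whose triples of neighbours are good -/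
lemma exists_vertex (m d₀ : ℕ) {C : ℝ}
    (hC : 2 * (d₀ : ℝ) ^ 3 + 72 * (m : ℝ) ^ 2 + 1 < C)
    (h1 : C ≤ ((univ.filter fun p : X × Y => E p.1 p.2).card : ℝ) / (Fintype.card X : ℝ))
    (h2 : C * (Fintype.card X : ℝ) ^ 2 * (Fintype.card Y : ℝ) ^ 3 ≤
      ((univ.filter fun p : X × Y => E p.1 p.2).card : ℝ) ^ 3)
    (h3 : 0 < Fintype.card X) :
    ∃ x : X, d₀ ≤ (nb E x).card ∧ 12 * m * (bad E m x).card < (nb E x).card ^ 3 := by
  by_contra hcon
  push Not at hcon
  set a : ℝ := (Fintype.card X : ℝ) with ha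
  set c : ℝ := (Fintype.card Y : ℝ) with hc
  set e : ℝ := ((univ.filter fun p : X × Y => E p.1 p.2).card : ℝ) with he
  have hapos : 0 < a := by rw [ha]; exact_mod_cast h3
  have hC1 : 1 < C := by
    have : 0 ≤ 2 * (d₀ : ℝ) ^ 3 + 72 * (m : ℝ) ^ 2 := by positivity
    linarith
  have hpow : e ^ 3 / a ^ 2 ≤ ∑ x : X, ((nb E x).card : ℝ) ^ 3 := by
    have hh := pow_sum_div_card_le_sum_pow (s := (univ : Finset X))
      (f := fun x => ((nb E x).card : ℝ)) (fun x _ => by positivity) 2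
    rw [card_univ] at hh
    have hs : ∑ x : X, ((nb E x).card : ℝ) = e := by
      rw [he, ← sum_nb E]; push_cast; rfl
    rw [hs] at hh
    simpa using hh
  have hup : ∑ x : X, ((nb E x).card : ℝ) ^ 3 ≤ a * (d₀ : ℝ) ^ 3 + 36 * (m : ℝ) ^ 2 * c ^ 3 := by
    have hsb : (∑ x : X, ((bad E m x).card : ℝ)) ≤ 3 * m * c ^ 3 := by
      have := sum_bad E m
      have h' : ((∑ x : X, (bad E m x).card : ℕ) : ℝ) ≤ ((3 * m * Fintype.card Y ^ 3 : ℕ) : ℝ) := by
        exact_mod_cast this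
      push_cast at h'
      exact h'
    calc ∑ x : X, ((nb E x).card : ℝ) ^ 3
        ≤ ∑ x : X, ((d₀ : ℝ) ^ 3 + 12 * m * ((bad E m x).card : ℝ)) := by
          apply Finset.sum_le_sum
          intro x _
          by_cases hx : d₀ ≤ (nb E x).card
          · have := hcon x hx
            have h' : ((nb E x).card : ℝ) ^ 3 ≤ 12 * m * ((bad E m x).card : ℝ) := by
              exact_mod_cast this
            have : (0 : ℝ) ≤ (d₀ : ℝ) ^ 3 := by positivity
            linarith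
          · have hx' : ((nb E x).card : ℝ) ≤ d₀ := by
              have : (nb E x).card ≤ d₀ := by omega
              exact_mod_cast this
            have h4 : ((nb E x).card : ℝ) ^ 3 ≤ (d₀ : ℝ) ^ 3 :=
              pow_le_pow_left₀ (by positivity) hx' 3
            have : (0 : ℝ) ≤ 12 * m * ((bad E m x).card : ℝ) := by positivity
            linarith
      _ = a * (d₀ : ℝ) ^ 3 + 12 * m * (∑ x : X, ((bad E m x).card : ℝ)) := by
          rw [sum_add_distrib, sum_const, card_univ, nsmul_eq_mul, ← mul_sum]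
      _ ≤ a * (d₀ : ℝ) ^ 3 + 12 * m * (3 * m * c ^ 3) := by
          have : (0 : ℝ) ≤ 12 * m := by positivity
          have := mul_le_mul_of_nonneg_left hsb this
          linarith
      _ = a * (d₀ : ℝ) ^ 3 + 36 * (m : ℝ) ^ 2 * c ^ 3 := by ring
  have hS := hpow.trans hup
  have hlow1 : C * c ^ 3 ≤ e ^ 3 / a ^ 2 := by
    rw [le_div_iff₀ (by positivity)]
    linarith
  have hlow2 : C * a ≤ e ^ 3 / a ^ 2 := by
    have hea : C * a ≤ e := by
      rw [le_div_iff₀ hapos] at h1; exact h1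
    rw [le_div_iff₀ (by positivity)]
    have hCa : 0 ≤ C * a := by positivity
    have h5 : (C * a) ^ 3 ≤ e ^ 3 := pow_le_pow_left₀ hCa hea 3
    have h6 : C * a * a ^ 2 ≤ (C * a) ^ 3 := by
      have h7 : 0 ≤ a ^ 3 * C * (C ^ 2 - 1) := by
        have : 0 ≤ C ^ 2 - 1 := by nlinarith
        positivity
      nlinarith
    linarith
  have hcpos : 0 ≤ c ^ 3 := by positivity
  have h8 : (2 * (d₀ : ℝ) ^ 3 + 72 * (m : ℝ) ^ 2 + 1) * a < C * a :=
    mul_lt_mul_of_pos_right hC hapos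
  have h9 : (2 * (d₀ : ℝ) ^ 3 + 72 * (m : ℝ) ^ 2 + 1) * c ^ 3 ≤ C * c ^ 3 :=
    mul_le_mul_of_nonneg_right hC.le hcpos
  have h10 : 0 ≤ (72 * (m : ℝ) ^ 2 + 1) * a := by positivity
  have h11 : 0 ≤ (2 * (d₀ : ℝ) ^ 3 + 1) * c ^ 3 := by positivity
  nlinarith

/-- Hall: distinct representatives when all sets are large -/
lemma exists_sdr {J : Type} [Fintype J] [DecidableEq J] (t : J → Finset X)
    (ht : ∀ j, Fintype.card J ≤ (t j).card) :
    ∃ f : J → X, Function.Injective f ∧ ∀ j, f j ∈ t j := by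
  rw [← Finset.all_card_le_biUnion_card_iff_exists_injective]
  intro s
  rcases s.eq_empty_or_nonempty with rfl | ⟨j, hj⟩
  · simp
  · calc s.card ≤ Fintype.card J := card_le_univ s
      _ ≤ (t j).card := ht j
      _ ≤ (s.biUnion t).card := card_le_card (subset_biUnion_of_mem t hj)

lemma neck_of_vertex {m : ℕ} (hm : 2 ≤ m) (x : X) (hd : 2 * (3 * m + 1) ^ 2 ≤ (nb E x).card)
    (hb : 12 * m * (bad E m x).card < (nb E x).card ^ 3) : Neck E m := by
  have hm0 : 0 < m := by omega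
  have hcI : Fintype.card (Option (Fin 3 × Fin m)) = 3 * m + 1 := by
    rw [Fintype.card_option, Fintype.card_prod, Fintype.card_fin, Fintype.card_fin]
  have hcJ : Fintype.card (Fin 3 × Fin m) = 3 * m := by
    rw [Fintype.card_prod, Fintype.card_fin, Fintype.card_fin]
  obtain ⟨φ, hφi, hφN, hφB⟩ := exists_good (I := Option (Fin 3 × Fin m)) (nb E x) (bad E m x)
    (J := Fin 3 × Fin m) tri (fun j => (tri_ne hm j).1) (fun j => (tri_ne hm j).2.1)
    (fun j => (tri_ne hm j).2.2) (by rw [hcI]; omega) (by rw [hcI]; exact hd)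
    (by rw [hcJ]; calc 4 * (3 * m) * (bad E m x).card = 12 * m * (bad E m x).card := by ring
          _ < _ := hb)
  have hEx : ∀ i, E x (φ i) := fun i => by simpa [nb] using hφN i
  have hgood : ∀ j, 3 * m + 1 ≤ (com E (φ (tri j).1, φ (tri j).2.1, φ (tri j).2.2)).card := by
    intro j
    by_contra hlt
    apply hφB j
    rw [bad, mem_filter]
    refine ⟨mem_univ _, by omega, ?_⟩
    rw [com, mem_filter]
    exact ⟨mem_univ _, hEx _, hEx _, hEx _⟩
  obtain ⟨f, hfi, hft⟩ := exists_sdr (J := Fin 3 × Fin m)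
    (fun j => (com E (φ (tri j).1, φ (tri j).2.1, φ (tri j).2.2)).erase x) (by
      intro j
      have := hgood j
      have h2 := pred_card_le_card_erase (s := com E (φ (tri j).1, φ (tri j).2.1, φ (tri j).2.2))
        (a := x)
      rw [hcJ]; omega)
  have hfx : ∀ j, f j ≠ x := fun j => (mem_erase.1 (hft j)).1
  have hfE : ∀ j, E (f j) (φ (tri j).1) ∧ E (f j) (φ (tri j).2.1) ∧ E (f j) (φ (tri j).2.2) := by
    intro j
    have := (mem_erase.1 (hft j)).2
    rw [com, mem_filter] at this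
    exact this.2
  have hf0 : ∀ i : Fin m, E (f (0, i)) (φ (some (0, i))) ∧ E (f (0, i)) (φ (some (1, i))) ∧
      E (f (0, i)) (φ (some (1, prv i))) := fun i => by simpa [tri] using hfE (0, i)
  have hf1 : ∀ i : Fin m, E (f (1, i)) (φ (some (0, i))) ∧ E (f (1, i)) (φ (some (2, i))) ∧
      E (f (1, i)) (φ (some (2, prv i))) := fun i => by simpa [tri] using hfE (1, i)
  have hf2 : ∀ i : Fin m, E (f (2, i)) (φ (some (1, i))) ∧ E (f (2, i)) (φ (some (2, i))) ∧
      E (f (2, i)) (φ none) := fun i => by simpa [tri] using hfE (2, i)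
  have hmm : md m hm0 m = md m hm0 0 := by
    apply Fin.ext; simp [md]
  refine ⟨x, φ none, fun i => f (0, md m hm0 i), fun i => f (1, md m hm0 i),
    fun i => f (2, md m hm0 i), fun i => φ (some (0, md m hm0 i)),
    fun i => φ (some (1, md m hm0 i)), fun i => φ (some (2, md m hm0 i)), ?_⟩
  constructor
  · simp only [hmm]
  · simp only [hmm]
  · intro i _; exact hEx _
  · intro i _; exact (hf0 _).1
  · intro i _; exact (hf1 _).1
  · intro i _; exact (hf0 _).2.1
  · intro i _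
    have := (hf0 (md m hm0 (i + 1))).2.2
    rwa [prv_md hm0] at this
  · intro i _; exact (hf1 _).2.1
  · intro i _
    have := (hf1 (md m hm0 (i + 1))).2.2
    rwa [prv_md hm0] at this
  · intro i _; exact (hf2 _).1
  · intro i _; exact (hf2 _).2.1
  · intro i _; exact (hf2 _).2.2
  · intro i _; exact hfx _
  · intro i _; exact hfx _
  · intro i _; exact hfx _
  · intro i _ h; simpa using hφi h
  · intro i _ h; simpa using hφi h
  · intro i _ h; simpa using hφi h
  · intro i hi j hj h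
    exact md_inj hm0 hi hj (by simpa using hfi h)
  · intro i hi j hj h
    exact md_inj hm0 hi hj (by simpa using hfi h)
  · intro i hi j hj h
    exact md_inj hm0 hi hj (by simpa using hfi h)
  · intro i hi j hj h
    exact md_inj hm0 hi hj (by simpa using hφi h)
  · intro i hi j hj h
    exact md_inj hm0 hi hj (by simpa using hφi h)
  · intro i hi j hj h
    exact md_inj hm0 hi hj (by simpa using hφi h)
  · intro i _ j _ h; simpa using hfi h
  · intro i _ j _ h; simpa using hfi h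
  · intro i _ j _ h; simpa using hfi h
  · intro i _ j _ h; simpa using hφi h
  · intro i _ j _ h; simpa using hφi h
  · intro i _ j _ h; simpa using hφi h

end graph

end TD

/-- the embedding lemma -/
theorem triple_dense (m : ℕ) (hm : 2 ≤ m) : ∃ C : ℝ, ∀ (X Y : Type) [Fintype X] [Fintype Y]
    [DecidableEq X] [DecidableEq Y] (E : X → Y → Prop) [∀ x y, Decidable (E x y)],
    C ≤ ((univ.filter fun p : X × Y => E p.1 p.2).card : ℝ) / (Fintype.card X : ℝ) →
    C * (Fintype.card X : ℝ) ^ 2 * (Fintype.card Y : ℝ) ^ 3 ≤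
      ((univ.filter fun p : X × Y => E p.1 p.2).card : ℝ) ^ 3 →
    0 < Fintype.card X →
    Neck E m := by
  refine ⟨2 * ((2 * (3 * m + 1) ^ 2 : ℕ) : ℝ) ^ 3 + 72 * (m : ℝ) ^ 2 + 2, ?_⟩
  intro X Y _ _ _ _ E _ h1 h2 h3
  obtain ⟨x, hx1, hx2⟩ := TD.exists_vertex E m (2 * (3 * m + 1) ^ 2) (by linarith) h1 h2 h3
  exact TD.neck_of_vertex E hm x hx1 hx2

end Pool.Agent.Lib.MP_a2fd8c_co
end

section

/-!
The potential function, passage to an almost regular piece, and the bound for heavy pairs.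
-/

namespace Pool.Agent.Lib.MP_a2fd8c_co

open Finset
open scoped Classical

/-- the potential function -/
noncomputable def pF (a c : ℝ) : ℝ :=
  a ^ (9 / 10 : ℝ) * c ^ (149 / 250 : ℝ) + a ^ (149 / 250 : ℝ) * c ^ (9 / 10 : ℝ) +
    a * c ^ (9 / 20 : ℝ) + a ^ (9 / 20 : ℝ) * c

lemma pF_comm (a c : ℝ) : pF a c = pF c a := by
  unfold pF
  ring

lemma pF_nonneg {a c : ℝ} (ha : 0 ≤ a) (hc : 0 ≤ c) : 0 ≤ pF a c := by
  unfold pF
  positivity

lemma pF_pos {a c : ℝ} (ha : 0 < a) (hc : 0 < c) : 0 < pF a c := by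
  unfold pF
  positivity

lemma pF_mono {a a' c c' : ℝ} (ha : 0 ≤ a) (hc : 0 ≤ c) (haa : a ≤ a') (hcc : c ≤ c') :
    pF a c ≤ pF a' c' := by
  unfold pF
  have ha' := ha.trans haa
  have hc' := hc.trans hcc
  gcongr

lemma rpow_div_le {a p : ℝ} (ha : 0 ≤ a) (hp : 9 / 20 ≤ p) : (a / 128) ^ p ≤ a ^ p / 8 := by
  rw [Real.div_rpow ha (by norm_num)]
  have h1 : (8 : ℝ) ≤ (128 : ℝ) ^ p := by
    calc (8 : ℝ) = (2 : ℝ) ^ (3 : ℝ) := by norm_num
      _ ≤ (2 : ℝ) ^ (7 * p) := Real.rpow_le_rpow_of_exponent_le (by norm_num) (by linarith)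
      _ = (128 : ℝ) ^ p := by
        rw [Real.rpow_mul (by norm_num)]
        norm_num
  exact div_le_div_of_nonneg_left (Real.rpow_nonneg ha _) (by norm_num) h1

lemma pF_div_le {a c : ℝ} (ha : 0 ≤ a) (hc : 0 ≤ c) : pF (a / 128) c ≤ pF a c / 8 := by
  unfold pF
  have h1 := rpow_div_le (p := 9 / 10) ha (by norm_num)
  have h2 := rpow_div_le (p := 149 / 250) ha (by norm_num)
  have h3 := rpow_div_le (p := 9 / 20) ha (by norm_num)
  have h4 : a / 128 ≤ a / 8 := by linarith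
  have g1 := mul_le_mul_of_nonneg_right h1 (Real.rpow_nonneg hc (149 / 250))
  have g2 := mul_le_mul_of_nonneg_right h2 (Real.rpow_nonneg hc (9 / 10))
  have g3 := mul_le_mul_of_nonneg_right h3 hc
  have g4 := mul_le_mul_of_nonneg_right h4 (Real.rpow_nonneg hc (9 / 20))
  linarith

lemma pF_div_le' {a c : ℝ} (ha : 0 ≤ a) (hc : 0 ≤ c) : pF a (c / 128) ≤ pF a c / 8 := by
  rw [pF_comm a (c / 128), pF_comm a c]
  exact pF_div_le hc ha

section
variable {X Y : Type*}

/-- vertices of large degree carry few edges -/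
lemma heavy_side (E : X → Y → Prop) (X' : Finset X) (Y' : Finset Y) (ρ : ℝ) (hρ : 0 < ρ)
    (hX : 0 < X'.card) (hY : 0 < Y'.card)
    (hsub : ∀ S ⊆ X', ec E S Y' ≤ ρ * pF S.card Y'.card)
    (heq : ec E X' Y' = ρ * pF X'.card Y'.card) :
    ec E (X'.filter fun x => ¬ (∑ y ∈ Y', ind E x y ≤ 128 * (ec E X' Y' / X'.card))) Y' ≤
      ec E X' Y' / 8 := by
  set S := X'.filter fun x => ¬ (∑ y ∈ Y', ind E x y ≤ 128 * (ec E X' Y' / X'.card)) with hS
  have ha : (0 : ℝ) < X'.card := by exact_mod_cast hX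
  have hc : (0 : ℝ) < Y'.card := by exact_mod_cast hY
  have he : 0 < ec E X' Y' := by rw [heq]; exact mul_pos hρ (pF_pos ha hc)
  have h1 : (S.card : ℝ) * (128 * (ec E X' Y' / X'.card)) ≤ ec E X' Y' := by
    calc (S.card : ℝ) * (128 * (ec E X' Y' / X'.card)) = ∑ x ∈ S, 128 * (ec E X' Y' / X'.card) := by
          rw [Finset.sum_const, nsmul_eq_mul]
      _ ≤ ∑ x ∈ S, ∑ y ∈ Y', ind E x y := by
          refine Finset.sum_le_sum fun x hx => ?_
          rw [hS, Finset.mem_filter] at hx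
          exact (not_le.1 hx.2).le
      _ = ec E S Y' := rfl
      _ ≤ ec E X' Y' := ec_mono E (Finset.filter_subset _ _) (Finset.Subset.refl _)
  have h2 : (S.card : ℝ) ≤ X'.card / 128 := by
    have h3 : (S.card : ℝ) * 128 * ec E X' Y' ≤ X'.card * ec E X' Y' := by
      calc (S.card : ℝ) * 128 * ec E X' Y' =
            (S.card : ℝ) * (128 * (ec E X' Y' / X'.card)) * X'.card := by field_simp
        _ ≤ ec E X' Y' * X'.card := mul_le_mul_of_nonneg_right h1 ha.le
        _ = X'.card * ec E X' Y' := mul_comm _ _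
    have := le_of_mul_le_mul_right h3 he
    linarith
  calc ec E S Y' ≤ ρ * pF S.card Y'.card := hsub S (Finset.filter_subset _ _)
    _ ≤ ρ * pF ((X'.card : ℝ) / 128) Y'.card :=
        mul_le_mul_of_nonneg_left (pF_mono (Nat.cast_nonneg _) hc.le h2 le_rfl) hρ.le
    _ ≤ ρ * (pF X'.card Y'.card / 8) :=
        mul_le_mul_of_nonneg_left (pF_div_le ha.le hc.le) hρ.le
    _ = ec E X' Y' / 8 := by rw [heq]; ring

/-- an almost regular piece with half of the edges -/
theorem regular_piece (E : X → Y → Prop) (X' : Finset X) (Y' : Finset Y) (ρ : ℝ) (hρ : 0 < ρ)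
    (hX : 0 < X'.card) (hY : 0 < Y'.card)
    (hsub : ∀ S ⊆ X', ∀ T ⊆ Y', ec E S T ≤ ρ * pF S.card T.card)
    (heq : ec E X' Y' = ρ * pF X'.card Y'.card) :
    ∃ X₂ ⊆ X', ∃ Y₂ ⊆ Y', ec E X' Y' / 2 ≤ ec E X₂ Y₂ ∧
      (∀ x ∈ X₂, ec E X' Y' / X'.card / 8 ≤ ∑ y ∈ Y₂, ind E x y) ∧
      (∀ y ∈ Y₂, ec E X' Y' / Y'.card / 8 ≤ ∑ x ∈ X₂, ind E x y) ∧
      (∀ x ∈ X₂, ∑ y ∈ Y₂, ind E x y ≤ 128 * (ec E X' Y' / X'.card)) ∧
      (∀ y ∈ Y₂, ∑ x ∈ X₂, ind E x y ≤ 128 * (ec E X' Y' / Y'.card)) := by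
  have ha : (0 : ℝ) < X'.card := by exact_mod_cast hX
  have hc : (0 : ℝ) < Y'.card := by exact_mod_cast hY
  have he : 0 < ec E X' Y' := by rw [heq]; exact mul_pos hρ (pF_pos ha hc)
  set HX := X'.filter fun x => ¬ (∑ y ∈ Y', ind E x y ≤ 128 * (ec E X' Y' / X'.card)) with hHX
  set X₁ := X'.filter fun x => (∑ y ∈ Y', ind E x y ≤ 128 * (ec E X' Y' / X'.card)) with hX₁
  set HY := Y'.filter fun y => ¬ (∑ x ∈ X', ind E x y ≤ 128 * (ec E X' Y' / Y'.card)) with hHY
  set Y₁ := Y'.filter fun y => (∑ x ∈ X', ind E x y ≤ 128 * (ec E X' Y' / Y'.card)) with hY₁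
  have b1 : ec E HX Y' ≤ ec E X' Y' / 8 :=
    heavy_side E X' Y' ρ hρ hX hY (fun S hS => hsub S hS Y' (Finset.Subset.refl _)) heq
  have b2 : ec E X' HY ≤ ec E X' Y' / 8 := by
    have hsw : ec (fun y x => E x y) Y' X' = ec E X' Y' := (ec_swap E X' Y').symm
    have := heavy_side (fun y x => E x y) Y' X' ρ hρ hY hX
      (fun S hS => by
        rw [← ec_swap E X' S, pF_comm]
        exact hsub X' (Finset.Subset.refl _) S hS)
      (by rw [hsw, pF_comm, heq])
    rw [hsw] at this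
    rw [ec_swap E X' HY]
    exact this
  have b3 : ec E X' Y' - ec E HX Y' - ec E X' HY ≤ ec E X₁ Y₁ := by
    have e1 : X' \ HX = X₁ := by
      rw [hHX, hX₁]
      ext x
      simp only [Finset.mem_sdiff, Finset.mem_filter]
      tauto
    have e2 : Y' \ HY = Y₁ := by
      rw [hHY, hY₁]
      ext x
      simp only [Finset.mem_sdiff, Finset.mem_filter]
      tauto
    have e3 : ec E X₁ Y' = ec E X' Y' - ec E HX Y' := by
      rw [← e1, ec_sdiff_left E (Finset.filter_subset _ _)]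
    have e4 : ec E X₁ Y₁ = ec E X₁ Y' - ec E X₁ HY := by
      rw [← e2, ec_sdiff_right E X₁ (Finset.filter_subset _ _)]
    have e5 : ec E X₁ HY ≤ ec E X' HY := ec_mono E (Finset.filter_subset _ _) (Finset.Subset.refl _)
    linarith
  obtain ⟨X₂, hX₂, Y₂, hY₂, hp, hd1, hd2⟩ := peel E X₁ Y₁ (ec E X' Y' / X'.card / 8)
    (ec E X' Y' / Y'.card / 8)
  have hX₁' : X₁ ⊆ X' := Finset.filter_subset _ _
  have hY₁' : Y₁ ⊆ Y' := Finset.filter_subset _ _
  refine ⟨X₂, hX₂.trans hX₁', Y₂, hY₂.trans hY₁', ?_, hd1, hd2, ?_, ?_⟩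
  · have c1 : (X₁.card : ℝ) ≤ X'.card := by exact_mod_cast Finset.card_le_card hX₁'
    have c2 : (Y₁.card : ℝ) ≤ Y'.card := by exact_mod_cast Finset.card_le_card hY₁'
    have d1 : ec E X' Y' / X'.card / 8 * X₁.card ≤ ec E X' Y' / 8 := by
      calc ec E X' Y' / X'.card / 8 * X₁.card ≤ ec E X' Y' / X'.card / 8 * X'.card :=
            mul_le_mul_of_nonneg_left c1 (by positivity)
        _ = ec E X' Y' / 8 := by field_simp
    have d2 : ec E X' Y' / Y'.card / 8 * Y₁.card ≤ ec E X' Y' / 8 := by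
      calc ec E X' Y' / Y'.card / 8 * Y₁.card ≤ ec E X' Y' / Y'.card / 8 * Y'.card :=
            mul_le_mul_of_nonneg_left c2 (by positivity)
        _ = ec E X' Y' / 8 := by field_simp
    have d3 : 0 ≤ ec E X' Y' / X'.card / 8 * X₂.card := by positivity
    have d4 : 0 ≤ ec E X' Y' / Y'.card / 8 * Y₂.card := by positivity
    linarith
  · intro x hx
    have hx1 := hX₂ hx
    rw [hX₁, Finset.mem_filter] at hx1
    exact (Finset.sum_le_sum_of_subset_of_nonneg (hY₂.trans hY₁')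
      fun _ _ _ => ind_nonneg _ _ _).trans hx1.2
  · intro y hy
    have hy1 := hY₂ hy
    rw [hY₁, Finset.mem_filter] at hy1
    exact (Finset.sum_le_sum_of_subset_of_nonneg (hX₂.trans hX₁')
      fun _ _ _ => ind_nonneg _ _ _).trans hy1.2

end

lemma term_lt {ρ T T0 h D p q : ℝ} (hT0 : 0 < T0) (hT : T0 < T) (hh : 0 < h)
    (hp1 : p < 1) (hc : 4 * ρ * D ^ q ≤ T0 ^ (1 - p) * h ^ p) :
    ρ * ((T / h) ^ p * D ^ q) < T / 4 := by
  have hTp : 0 < T := hT0.trans hT
  have h1 : T0 ^ (1 - p) < T ^ (1 - p) := Real.rpow_lt_rpow hT0.le hT (by linarith)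
  have hhp : 0 < h ^ p := Real.rpow_pos_of_pos hh p
  have hTpp : 0 < T ^ p := Real.rpow_pos_of_pos hTp p
  rw [Real.div_rpow hTp.le hh.le]
  have h2 : T ^ (1 - p) * T ^ p = T := by
    rw [← Real.rpow_add hTp]
    simp
  have h3 : ρ * (T ^ p / h ^ p * D ^ q) = (4 * ρ * D ^ q) * (T ^ p / h ^ p) / 4 := by ring
  rw [h3]
  have h4 : (4 * ρ * D ^ q) * (T ^ p / h ^ p) ≤ T0 ^ (1 - p) * T ^ p := by
    calc (4 * ρ * D ^ q) * (T ^ p / h ^ p) ≤ (T0 ^ (1 - p) * h ^ p) * (T ^ p / h ^ p) :=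
          mul_le_mul_of_nonneg_right hc (by positivity)
      _ = T0 ^ (1 - p) * T ^ p := by field_simp
  have h5 : T0 ^ (1 - p) * T ^ p < T ^ (1 - p) * T ^ p := mul_lt_mul_of_pos_right h1 hTpp
  rw [h2] at h5
  linarith

section
variable {X Y : Type*}

/-- the heavy pairs at a vertex carry few paths -/
theorem heavy_bound (E : X → Y → Prop) (ρ : ℝ) (hρ : 0 < ρ)
    (X₂ : Finset X) (Y₂ : Finset Y)
    (hsub : ∀ S ⊆ X₂, ∀ T ⊆ Y₂, ec E S T ≤ ρ * pF S.card T.card)
    (x : X) (D h T0 : ℝ) (hh : 0 < h) (hT0 : 0 < T0)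
    (hdeg : ∑ y ∈ Y₂, ind E x y ≤ D)
    (hdl : h < ∑ y ∈ Y₂, ind E x y)
    (c1 : 4 * ρ * D ^ (149 / 250 : ℝ) ≤ T0 ^ (1 - 9 / 10 : ℝ) * h ^ (9 / 10 : ℝ))
    (c2 : 4 * ρ * D ^ (9 / 10 : ℝ) ≤ T0 ^ (1 - 149 / 250 : ℝ) * h ^ (149 / 250 : ℝ))
    (c3 : 4 * ρ * D ^ (9 / 20 : ℝ) ≤ h)
    (c4 : 4 * ρ * D ≤ T0 ^ (1 - 9 / 20 : ℝ) * h ^ (9 / 20 : ℝ)) :
    ∑ y ∈ Y₂, ∑ x' ∈ X₂, ind E x y * ind E x' y *
      (1 - bi (x ≠ x' ∧ ∑ y ∈ Y₂, ind E x y * ind E x' y ≤ h)) ≤ T0 := by
  set S := X₂.filter fun x' => ¬ (x ≠ x' ∧ ∑ y ∈ Y₂, ind E x y * ind E x' y ≤ h) with hS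
  set N := Y₂.filter fun y => E x y with hN
  set T := ec E S N with hT
  have hle : ∑ y ∈ Y₂, ∑ x' ∈ X₂, ind E x y * ind E x' y *
      (1 - bi (x ≠ x' ∧ ∑ y ∈ Y₂, ind E x y * ind E x' y ≤ h)) = T := by
    rw [hT, ec_comm, hN, Finset.sum_filter]
    refine Finset.sum_congr rfl fun y _ => ?_
    by_cases hxy : E x y
    · rw [if_pos hxy, hS, Finset.sum_filter]
      refine Finset.sum_congr rfl fun x' _ => ?_
      have h1 : ind E x y = 1 := by unfold ind; rw [if_pos hxy]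
      rw [h1, one_mul]
      unfold bi
      by_cases hl : (x ≠ x' ∧ ∑ y ∈ Y₂, ind E x y * ind E x' y ≤ h)
      · rw [if_pos hl, if_neg (not_not.2 hl)]; ring
      · rw [if_neg hl, if_pos hl]; ring
    · rw [if_neg hxy]
      refine Finset.sum_eq_zero fun x' _ => ?_
      have h1 : ind E x y = 0 := by unfold ind; rw [if_neg hxy]
      rw [h1, zero_mul, zero_mul]
  rw [hle]
  by_contra hcon
  push Not at hcon
  have hT_pos : 0 < T := hT0.trans hcon
  -- |S| h ≤ T
  have hcard : (S.card : ℝ) * h ≤ T := by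
    calc (S.card : ℝ) * h = ∑ x' ∈ S, h := by rw [Finset.sum_const, nsmul_eq_mul]
      _ ≤ ∑ x' ∈ S, ∑ y ∈ N, ind E x' y := by
          refine Finset.sum_le_sum fun x' hx' => ?_
          rw [hS, Finset.mem_filter] at hx'
          have h2 : ∑ y ∈ N, ind E x' y = ∑ y ∈ Y₂, ind E x y * ind E x' y := by
            rw [hN, Finset.sum_filter]
            refine Finset.sum_congr rfl fun y _ => ?_
            by_cases hxy : E x y
            · rw [if_pos hxy]
              have h1 : ind E x y = 1 := by unfold ind; rw [if_pos hxy]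
              rw [h1, one_mul]
            · rw [if_neg hxy]
              have h1 : ind E x y = 0 := by unfold ind; rw [if_neg hxy]
              rw [h1, zero_mul]
          rw [h2]
          by_cases hxx : x = x'
          · subst hxx
            simp only [ind_sq]
            exact hdl.le
          · by_contra h3
            exact hx'.2 ⟨hxx, (not_le.1 h3).le⟩
      _ = T := rfl
  have hcN : (N.card : ℝ) ≤ D := by
    have : (N.card : ℝ) = ∑ y ∈ Y₂, ind E x y := by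
      rw [hN, sum_ind]
    rw [this]; exact hdeg
  have hSc : (S.card : ℝ) ≤ T / h := by
    rw [le_div_iff₀ hh]; exact hcard
  have hb : T ≤ ρ * pF (T / h) D := by
    calc T ≤ ρ * pF S.card N.card := hsub S (Finset.filter_subset _ _) N (Finset.filter_subset _ _)
      _ ≤ ρ * pF (T / h) D :=
        mul_le_mul_of_nonneg_left (pF_mono (Nat.cast_nonneg _) (Nat.cast_nonneg _) hSc hcN) hρ.le
  have t1 := term_lt (ρ := ρ) (D := D) (q := 149 / 250) hT0 hcon hh
    (show (9 / 10 : ℝ) < 1 by norm_num) c1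
  have t2 := term_lt (ρ := ρ) (D := D) (q := 9 / 10) hT0 hcon hh
    (show (149 / 250 : ℝ) < 1 by norm_num) c2
  have t4 := term_lt (ρ := ρ) (D := D) (q := 1) hT0 hcon hh
    (show (9 / 20 : ℝ) < 1 by norm_num) (by rw [Real.rpow_one]; exact c4)
  have t3 : ρ * ((T / h) * D ^ (9 / 20 : ℝ)) ≤ T / 4 := by
    have : ρ * ((T / h) * D ^ (9 / 20 : ℝ)) = (4 * ρ * D ^ (9 / 20 : ℝ)) * (T / h) / 4 := by ring
    rw [this]
    have h2 : (4 * ρ * D ^ (9 / 20 : ℝ)) * (T / h) ≤ h * (T / h) :=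
      mul_le_mul_of_nonneg_right c3 (by positivity)
    have h3 : h * (T / h) = T := by field_simp
    linarith
  rw [Real.rpow_one] at t4
  unfold pF at hb
  linarith

end

end Pool.Agent.Lib.MP_a2fd8c_co
end

section

/-!
The linear inequalities between the logarithms of the parameters.
-/

namespace Pool.Agent.Lib.MP_a2fd8c_co

/-- the cone in which the logarithms of the parameters lie -/
structure Cone (A B R E K l : ℝ) : Prop where
  h1 : B ≤ A
  h2 : 0 ≤ R
  h3 : R + 9 / 10 * A + 149 / 250 * B ≤ E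
  h4 : R + A + 9 / 20 * B ≤ E
  h5 : E ≤ 2 / 3 * A + B + K
  h6 : 0 ≤ K
  h7 : 100000 * (1 + K) ≤ B
  l0 : 0 < l
  l1 : l < 7 / 10

/-- logarithm of the threshold on the left -/
noncomputable def LX (A B E : ℝ) : ℝ := 5 / 2 * E - 459 / 200 * A - 121 / 100 * B

/-- logarithm of the threshold on the right -/
noncomputable def LY (A B E : ℝ) : ℝ := 5 / 2 * E - 341 / 200 * A - 9 / 5 * B

section
variable {A B R E K l : ℝ} (h : Cone A B R E K l)
include h

lemma num_X1 : 2 * l + R + (E - A + 7 * l) * (149 / 250) ≤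
    (2 * E - A - B - 40 * l) * (1 - 9 / 10) + LX A B E * (9 / 10) := by
  obtain ⟨h1, h2, h3, h4, h5, h6, h7, l0, l1⟩ := h
  unfold LX
  linarith

lemma num_X2 : 2 * l + R + (E - A + 7 * l) * (9 / 10) ≤
    (2 * E - A - B - 40 * l) * (1 - 149 / 250) + LX A B E * (149 / 250) := by
  obtain ⟨h1, h2, h3, h4, h5, h6, h7, l0, l1⟩ := h
  unfold LX
  linarith

lemma num_X3 : 2 * l + R + (E - A + 7 * l) * (9 / 20) ≤ LX A B E := by
  obtain ⟨h1, h2, h3, h4, h5, h6, h7, l0, l1⟩ := h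
  unfold LX
  linarith

lemma num_X4 : 2 * l + R + (E - A + 7 * l) ≤
    (2 * E - A - B - 40 * l) * (1 - 9 / 20) + LX A B E * (9 / 20) := by
  obtain ⟨h1, h2, h3, h4, h5, h6, h7, l0, l1⟩ := h
  unfold LX
  linarith

lemma num_Y1 : 2 * l + R + (E - B + 7 * l) * (149 / 250) ≤
    (2 * E - A - B - 40 * l) * (1 - 9 / 10) + LY A B E * (9 / 10) := by
  obtain ⟨h1, h2, h3, h4, h5, h6, h7, l0, l1⟩ := h
  unfold LY
  linarith

lemma num_Y2 : 2 * l + R + (E - B + 7 * l) * (9 / 10) ≤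
    (2 * E - A - B - 40 * l) * (1 - 149 / 250) + LY A B E * (149 / 250) := by
  obtain ⟨h1, h2, h3, h4, h5, h6, h7, l0, l1⟩ := h
  unfold LY
  linarith

lemma num_Y3 : 2 * l + R + (E - B + 7 * l) * (9 / 20) ≤ LY A B E := by
  obtain ⟨h1, h2, h3, h4, h5, h6, h7, l0, l1⟩ := h
  unfold LY
  linarith

lemma num_Y4 : 2 * l + R + (E - B + 7 * l) ≤
    (2 * E - A - B - 40 * l) * (1 - 9 / 20) + LY A B E * (9 / 20) := by
  obtain ⟨h1, h2, h3, h4, h5, h6, h7, l0, l1⟩ := h
  unfold LY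
  linarith

lemma num_X5 : LX A B E + 3 * l < E - A := by
  obtain ⟨h1, h2, h3, h4, h5, h6, h7, l0, l1⟩ := h
  unfold LX
  linarith

lemma num_Y5 : LY A B E + 3 * l < E - B := by
  obtain ⟨h1, h2, h3, h4, h5, h6, h7, l0, l1⟩ := h
  unfold LY
  linarith

lemma num_X6 : LX A B E + 30 * l ≤ 2 * E - A - B := by
  obtain ⟨h1, h2, h3, h4, h5, h6, h7, l0, l1⟩ := h
  unfold LX
  linarith

lemma num_Y6 : LY A B E + 30 * l ≤ 2 * E - A - B := by
  obtain ⟨h1, h2, h3, h4, h5, h6, h7, l0, l1⟩ := h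
  unfold LY
  linarith

lemma num_X7 : LX A B E + 20 * l ≤ 3 * E - 2 * A - 2 * B := by
  obtain ⟨h1, h2, h3, h4, h5, h6, h7, l0, l1⟩ := h
  unfold LX
  linarith

lemma num_Y7 : LY A B E + 20 * l ≤ 3 * E - 2 * A - 2 * B := by
  obtain ⟨h1, h2, h3, h4, h5, h6, h7, l0, l1⟩ := h
  unfold LY
  linarith

lemma num_n3a : 2 * LX A B E + 100 * l + 9 / 1000 * B ≤ 5 * E - 4 * A - 3 * B := by
  obtain ⟨h1, h2, h3, h4, h5, h6, h7, l0, l1⟩ := h
  unfold LX
  linarith

lemma num_n3b : LX A B E + LY A B E + 100 * l + 9 / 1000 * B ≤ 5 * E - 4 * A - 3 * B := by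
  obtain ⟨h1, h2, h3, h4, h5, h6, h7, l0, l1⟩ := h
  unfold LX LY
  linarith

lemma num_n4a : 2 * LY A B E + 100 * l + 9 / 1000 * B ≤ 5 * E - 3 * A - 4 * B := by
  obtain ⟨h1, h2, h3, h4, h5, h6, h7, l0, l1⟩ := h
  unfold LY
  linarith

lemma num_n4b : LX A B E + LY A B E + 100 * l + 9 / 1000 * B ≤ 5 * E - 3 * A - 4 * B := by
  obtain ⟨h1, h2, h3, h4, h5, h6, h7, l0, l1⟩ := h
  unfold LX LY
  linarith

lemma num_n5a : 600 * (39 * l - 9 / 1000 * B) + (3 * E - A - 2 * B) + 30 * l < 0 := by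
  obtain ⟨h1, h2, h3, h4, h5, h6, h7, l0, l1⟩ := h
  linarith

lemma num_n5b : 600 * (39 * l - 9 / 1000 * B) + (3 * E - 2 * A - B) + 30 * l < 0 := by
  obtain ⟨h1, h2, h3, h4, h5, h6, h7, l0, l1⟩ := h
  linarith

end

end Pool.Agent.Lib.MP_a2fd8c_co
end
end
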