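import Mathlib
import Pool.Agent.Lib.MP_a2fd8c_co.Numeric
import Pool.Agent.Lib.MP_a2fd8c_co.ClosedWalk

section

/-!
Cauchy–Schwarz for pairs of light walks with the same end edges.
-/

namespace Pool.Agent.Lib.MP_a2fd8c_co

open Finset

theorem pairs_lower {I A B : Type*} [Fintype I] [Fintype A] [Fintype B]
    [DecidableEq A] [DecidableEq B]
    (w : I → ℝ) (g : I → A → B → ℝ) (hw0 : ∀ i, 0 ≤ w i) (hw1 : ∀ i, w i * w i = w i)
    (hg0 : ∀ i a b, 0 ≤ g i a b)
    (h1 h2 : ℝ) (hh1 : ∀ i a, ∑ b, g i a b ≤ h1) (hh2 : ∀ i b, ∑ a, g i a b ≤ h2)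
    (S W : ℝ) (hS : ∑ i, w i ≤ S) (hW : W ≤ ∑ i, w i * ∑ a, ∑ b, g i a b) (hW0 : 0 ≤ W)
    (hh : 2 * S * (h1 + h2) ≤ W) :
    W ^ 2 ≤ 2 * S * ∑ i, w i * ∑ a, ∑ b, ∑ a', ∑ b',
      g i a b * g i a' b' * (if a = a' then 0 else 1) * (if b = b' then 0 else 1) := by
  set N : I → ℝ := fun i => ∑ a, ∑ b, g i a b with hN
  have hN0 : ∀ i, 0 ≤ N i := fun i => Finset.sum_nonneg fun _ _ => Finset.sum_nonneg fun _ _ => hg0 _ _ _
  set T := ∑ i, w i * N i with hT
  have hS0 : 0 ≤ S := (Finset.sum_nonneg fun i _ => hw0 i).trans hS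
  have hTW : W ≤ T := hW
  set Q := ∑ i, w i * N i ^ 2 with hQ
  have hQ0 : 0 ≤ Q := Finset.sum_nonneg fun i _ => mul_nonneg (hw0 i) (sq_nonneg _)
  have hCS : T ^ 2 ≤ S * Q := by
    have h := Finset.sum_mul_sq_le_sq_mul_sq Finset.univ w (fun i => w i * N i)
    have e1 : ∑ i, w i * (w i * N i) = T := by
      rw [hT]
      refine Finset.sum_congr rfl fun i _ => ?_
      rw [← mul_assoc, hw1]
    have e2 : ∑ i, w i ^ 2 = ∑ i, w i := by
      refine Finset.sum_congr rfl fun i _ => ?_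
      rw [sq, hw1]
    have e3 : ∑ i, (w i * N i) ^ 2 = Q := by
      rw [hQ]
      refine Finset.sum_congr rfl fun i _ => ?_
      rw [mul_pow, sq (w i), hw1]
    rw [e1, e2, e3] at h
    exact h.trans (mul_le_mul_of_nonneg_right hS hQ0)
  have hP : Q - (h1 + h2) * T ≤ ∑ i, w i * ∑ a, ∑ b, ∑ a', ∑ b',
      g i a b * g i a' b' * (if a = a' then 0 else 1) * (if b = b' then 0 else 1) := by
    rw [hQ, hT, Finset.mul_sum, ← Finset.sum_sub_distrib]
    refine Finset.sum_le_sum fun i _ => ?_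
    have e0 : w i * N i ^ 2 - (h1 + h2) * (w i * N i) = w i * (N i ^ 2 - (h1 + h2) * N i) := by ring
    rw [e0]
    refine mul_le_mul_of_nonneg_left ?_ (hw0 i)
    have e1 : N i ^ 2 - (h1 + h2) * N i = ∑ a, ∑ b, g i a b * (N i - (h1 + h2)) := by
      simp only [← Finset.sum_mul]
      change _ = N i * _
      ring
    rw [e1]
    refine Finset.sum_le_sum fun a _ => Finset.sum_le_sum fun b _ => ?_
    have e2 : ∑ a', ∑ b', g i a b * g i a' b' * (if a = a' then 0 else 1) *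
        (if b = b' then 0 else 1) = g i a b * ∑ a', ∑ b', g i a' b' *
        ((if a = a' then 0 else 1) * (if b = b' then 0 else 1)) := by
      simp only [Finset.mul_sum]
      refine Finset.sum_congr rfl fun a' _ => Finset.sum_congr rfl fun b' _ => ?_
      ring
    rw [e2]
    refine mul_le_mul_of_nonneg_left ?_ (hg0 _ _ _)
    have e3 : ∀ a' b', g i a' b' - (if a = a' then g i a' b' else 0) -
        (if b = b' then g i a' b' else 0) ≤ g i a' b' *
        ((if a = a' then 0 else 1) * (if b = b' then 0 else 1)) := by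
      intro a' b'
      have := hg0 i a' b'
      by_cases ha : a = a'
      · by_cases hb : b = b'
        · simp only [if_pos ha, if_pos hb]; linarith
        · simp only [if_pos ha, if_neg hb]; linarith
      · by_cases hb : b = b'
        · simp only [if_neg ha, if_pos hb]; linarith
        · simp only [if_neg ha, if_neg hb]; linarith
    calc N i - (h1 + h2) ≤ N i - ∑ b', g i a b' - ∑ a', g i a' b := by
          have := hh1 i a
          have := hh2 i b
          linarith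
      _ = ∑ a', ∑ b', (g i a' b' - (if a = a' then g i a' b' else 0) -
        (if b = b' then g i a' b' else 0)) := by
          simp only [Finset.sum_sub_distrib]
          congr 1
          · congr 1
            rw [Finset.sum_comm]
            refine Finset.sum_congr rfl fun b' _ => ?_
            rw [Finset.sum_ite_eq]
            simp
          · refine Finset.sum_congr rfl fun a' _ => ?_
            rw [Finset.sum_ite_eq]
            simp
      _ ≤ _ := Finset.sum_le_sum fun a' _ => Finset.sum_le_sum fun b' _ => e3 a' b'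
  have hT0 : 0 ≤ T := hW0.trans hTW
  have f1 : S * (Q - (h1 + h2) * T) ≤ S * ∑ i, w i * ∑ a, ∑ b, ∑ a', ∑ b',
      g i a b * g i a' b' * (if a = a' then 0 else 1) * (if b = b' then 0 else 1) :=
    mul_le_mul_of_nonneg_left hP hS0
  have f2 : 2 * S * (h1 + h2) * T ≤ W * T := mul_le_mul_of_nonneg_right hh hT0
  have f3 : W * T ≤ T * T := mul_le_mul_of_nonneg_right hTW hT0
  have f4 : W ^ 2 ≤ T ^ 2 := pow_le_pow_left₀ hW0 hTW 2
  nlinarith

end Pool.Agent.Lib.MP_a2fd8c_co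
end

section

/-!
Existence of a pair of end points with many pairs of light walks.
-/

namespace Pool.Agent.Lib.MP_a2fd8c_co

open Finset
open scoped Classical

lemma ite_eq_bi {α : Type*} [DecidableEq α] (a b : α) : (if a = b then (0 : ℝ) else 1) = bi (a ≠ b) := by
  unfold bi
  by_cases h : a = b <;> simp [h]

section
variable {X Y : Type*} [Fintype X] [Fintype Y]

theorem many_th (E : X → Y → Prop)
    (dX dY DX DY hX hY tX tY : ℝ) (hdX0 : 0 < dX) (hdY0 : 0 < dY)
    (hDX0 : 0 ≤ DX) (hDY0 : 0 ≤ DY) (hhX : 0 ≤ hX) (hhY : 0 ≤ hY)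
    (hdX : ∀ x, dX ≤ ∑ y, ind E x y) (hdY : ∀ y, dY ≤ ∑ x, ind E x y)
    (hDX : ∀ x, ∑ y, ind E x y ≤ DX) (hDY : ∀ y, ∑ x, ind E x y ≤ DY)
    (htX : ∀ x, ∑ y, ∑ x', ind E x y * ind E x' y * (1 - bi (lt E hX x x')) ≤ tX)
    (htY : ∀ y, ∑ x, ∑ y', ind E x y * ind E x y' *
      (1 - bi (lt (fun y x => E x y) hY y y')) ≤ tY)
    (hne : 0 < ec E univ univ)
    (n1 : 2 * (Fintype.card X : ℝ) * tX * (DX ^ 2 * DY)
      + 2 * (Fintype.card Y : ℝ) * tY * (DY ^ 2 * DX)
      + ec E univ univ * (DX * DY * (hX + hY)) ≤ ec E univ univ * dX ^ 2 * dY ^ 2 / 2)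
    (n2 : 4 * ec E univ univ * (hX + hY) ≤ dX ^ 2 * dY ^ 2) :
    ∃ (O : X) (b : Y), dX ^ 4 * dY ^ 4 ≤ 8 * (Fintype.card X : ℝ) * (Fintype.card Y : ℝ) *
      ∑ p, ∑ q, bi (Th E hX hY O b p q) := by
  set e := ec E univ univ with he
  set w : X × Y × X × Y → ℝ := fun i => ind E i.1 i.2.1 * ind E i.2.2.1 i.2.2.2 with hw
  set g : X × Y × X × Y → X → Y → ℝ := fun i A k =>
    bi (E A i.2.1 ∧ E A k ∧ E i.2.2.1 k ∧ lt E hX i.1 A ∧ lt E hX A i.2.2.1 ∧
      lt (fun y x => E x y) hY i.2.1 k ∧ lt (fun y x => E x y) hY k i.2.2.2 ∧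
      i.1 ≠ i.2.2.1 ∧ i.2.1 ≠ i.2.2.2) with hg
  have hlight := tot_light (e := ind E) (fun x y => ind_nonneg E x y) dX dY DX DY hX hY tX tY
    hdX0.le hdY0.le hDX0 hDY0 hhX hhY hdX hdY hDX hDY
    (fun x x' => bi (lt E hX x x')) (fun y y' => bi (lt (fun y x => E x y) hY y y'))
    (fun _ _ => bi_nonneg _) (fun _ _ => bi_le_one _) (fun _ _ => bi_nonneg _)
    (fun _ _ => bi_le_one _)
    (fun y y' => bi_congr (lt_comm _ _ _ _))
    (fun x x' => lt_bound E hX hhX x x')
    (fun y y' => lt_bound (fun y x => E x y) hY hhY y y') htX htY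
  have hTot : Tot (ind E) (fun O s A k R b => bi (lt E hX O A) * bi (lt E hX A R) *
      bi (lt (fun y x => E x y) hY s k) * bi (lt (fun y x => E x y) hY k b) *
      (if O = R then 0 else 1) * (if s = b then 0 else 1)) = ∑ i, w i * ∑ A, ∑ k, g i A k := by
    unfold Tot
    have h1 : ∀ f : X → Y → X → Y → X → Y → ℝ,
        ∑ O, ∑ s, ∑ A, ∑ k, ∑ R, ∑ b, f O s A k R b =
          ∑ p : X × Y × X × Y × X × Y, f p.1 p.2.1 p.2.2.1 p.2.2.2.1 p.2.2.2.2.1 p.2.2.2.2.2 := by
      intro f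
      simp only [Fintype.sum_prod_type]
    have h2 : ∀ f : X × Y × X × Y → X → Y → ℝ,
        ∑ i, ∑ A, ∑ k, f i A k =
          ∑ p : (X × Y × X × Y) × X × Y, f p.1 p.2.1 p.2.2 := by
      intro f
      simp only [Fintype.sum_prod_type]
    simp only [Finset.mul_sum]
    rw [h1, h2]
    refine Fintype.sum_equiv
      { toFun := fun p => ((p.1, p.2.1, p.2.2.2.2.1, p.2.2.2.2.2), p.2.2.1, p.2.2.2.1)
        invFun := fun p => (p.1.1, p.1.2.1, p.2.1, p.2.2, p.1.2.2.1, p.1.2.2.2)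
        left_inv := fun _ => rfl
        right_inv := fun _ => rfl } _ _ ?_
    rintro ⟨O, s, A, k, R, b⟩
    simp only [Equiv.coe_fn_mk, hw, hg, ite_eq_bi, ind_eq_bi, bi_mul]
    refine bi_congr ?_
    tauto
  rw [hTot] at hlight
  have he2 : ∑ x, ∑ y, ind E x y = e := rfl
  rw [he2] at hlight
  have hbig : e * dX ^ 2 * dY ^ 2 / 2 ≤ ∑ i, w i * ∑ A, ∑ k, g i A k := by
    linarith
  have hsum : ∑ i, w i ≤ e ^ 2 := by
    simp only [hw, Fintype.sum_prod_type]
    refine le_of_eq ?_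
    calc ∑ O, ∑ s, ∑ R, ∑ b, ind E O s * ind E R b
        = ∑ O, ∑ s, ind E O s * ∑ R, ∑ b, ind E R b := by
          simp only [Finset.mul_sum]
      _ = e ^ 2 := by
          rw [he2, sq]
          simp only [← Finset.sum_mul]
          rw [he2]
  have hpairs := pairs_lower w g (fun i => mul_nonneg (ind_nonneg _ _ _) (ind_nonneg _ _ _))
    (fun i => by
      simp only [hw]
      calc ind E i.1 i.2.1 * ind E i.2.2.1 i.2.2.2 * (ind E i.1 i.2.1 * ind E i.2.2.1 i.2.2.2)
          = (ind E i.1 i.2.1 * ind E i.1 i.2.1) * (ind E i.2.2.1 i.2.2.2 * ind E i.2.2.1 i.2.2.2) := by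
            ring
        _ = _ := by rw [ind_sq, ind_sq])
    (fun i a b => bi_nonneg _) hX hY
    (fun i A => by
      refine le_trans ?_ (lt_bound E hX hhX A i.2.2.1)
      rw [Finset.mul_sum]
      refine Finset.sum_le_sum fun k _ => ?_
      simp only [hg, ind_eq_bi, bi_mul]
      refine bi_mono ?_
      tauto)
    (fun i k => by
      refine le_trans ?_ (lt_bound (fun y x => E x y) hY hhY i.2.1 k)
      rw [Finset.mul_sum]
      refine Finset.sum_le_sum fun A _ => ?_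
      simp only [hg, ind_eq_bi, bi_mul]
      refine bi_mono ?_
      tauto)
    (e ^ 2) (e * dX ^ 2 * dY ^ 2 / 2) hsum hbig (by positivity) (by nlinarith)
  have hperm : ∑ i, w i * ∑ a, ∑ b, ∑ a', ∑ b',
      g i a b * g i a' b' * (if a = a' then 0 else 1) * (if b = b' then 0 else 1) =
      ∑ O, ∑ b, ∑ p, ∑ q, bi (Th E hX hY O b p q) := by
    have h1 : ∀ f : X × Y × X × Y → X → Y → X → Y → ℝ,
        ∑ i, ∑ A, ∑ k, ∑ Q, ∑ l, f i A k Q l =
          ∑ p : (X × Y × X × Y) × X × Y × X × Y, f p.1 p.2.1 p.2.2.1 p.2.2.2.1 p.2.2.2.2 := by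
      intro f
      simp only [Fintype.sum_prod_type]
    have h2 : ∀ f : X → Y → Y × X × X → X × Y × Y → ℝ,
        ∑ O, ∑ b, ∑ p, ∑ q, f O b p q =
          ∑ r : X × Y × (Y × X × X) × (X × Y × Y), f r.1 r.2.1 r.2.2.1 r.2.2.2 := by
      intro f
      simp only [Fintype.sum_prod_type]
    simp only [Finset.mul_sum]
    rw [h1, h2]
    refine Fintype.sum_equiv
      { toFun := fun p => (p.1.1, p.1.2.2.2, (p.1.2.1, p.2.1, p.2.2.2.1),
          (p.1.2.2.1, p.2.2.1, p.2.2.2.2))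
        invFun := fun r => ((r.1, r.2.2.1.1, r.2.2.2.1, r.2.1), r.2.2.1.2.1, r.2.2.2.2.1,
          r.2.2.1.2.2, r.2.2.2.2.2)
        left_inv := fun _ => rfl
        right_inv := fun _ => rfl } _ _ ?_
    rintro ⟨⟨O, s, R, b⟩, A, k, Q, l⟩
    simp only [Equiv.coe_fn_mk, hw, hg, ite_eq_bi, ind_eq_bi, bi_mul]
    refine bi_congr ⟨?_, ?_⟩
    · rintro ⟨⟨a1, a2⟩, ⟨⟨⟨b1, b2, b3, b4, b5, b6, b7, b8, b9⟩,
        ⟨c1, c2, c3, c4, c5, c6, c7, c8, c9⟩⟩, d1⟩, d2⟩
      exact ⟨a1, b1, c1, a2, b3, c3, b2, c2, b4, b5, b6, b7, c4, c5, c6, c7, b8, b9, d1, d2⟩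
    · rintro ⟨a1, b1, c1, a2, b3, c3, b2, c2, b4, b5, b6, b7, c4, c5, c6, c7, b8, b9, d1, d2⟩
      exact ⟨⟨a1, a2⟩, ⟨⟨⟨b1, b2, b3, b4, b5, b6, b7, b8, b9⟩,
        ⟨c1, c2, c3, c4, c5, c6, c7, b8, b9⟩⟩, d1⟩, d2⟩
  rw [hperm] at hpairs
  have hP : dX ^ 4 * dY ^ 4 ≤ 8 * ∑ O, ∑ b, ∑ p, ∑ q, bi (Th E hX hY O b p q) := by
    have h3 : e ^ 2 * (dX ^ 4 * dY ^ 4) ≤
        e ^ 2 * (8 * ∑ O, ∑ b, ∑ p, ∑ q, bi (Th E hX hY O b p q)) := by
      nlinarith
    exact le_of_mul_le_mul_left h3 (by positivity)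
  by_contra hcon
  push Not at hcon
  have hXne : Nonempty X := by
    by_contra h
    rw [not_nonempty_iff] at h
    have : e = 0 := by
      rw [he]; unfold ec
      simp
    linarith
  have hYne : Nonempty Y := by
    by_contra h
    rw [not_nonempty_iff] at h
    have : e = 0 := by
      rw [he]; unfold ec
      simp
    linarith
  have hcX : (0 : ℝ) < Fintype.card X := by exact_mod_cast Fintype.card_pos
  have hcY : (0 : ℝ) < Fintype.card Y := by exact_mod_cast Fintype.card_pos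
  have h4 : ∑ O : X, ∑ b : Y, 8 * (Fintype.card X : ℝ) * (Fintype.card Y : ℝ) *
      ∑ p, ∑ q, bi (Th E hX hY O b p q) < ∑ O : X, ∑ b : Y, dX ^ 4 * dY ^ 4 := by
    refine Finset.sum_lt_sum_of_nonempty Finset.univ_nonempty fun O _ => ?_
    refine Finset.sum_lt_sum_of_nonempty Finset.univ_nonempty fun b _ => ?_
    exact hcon O b
  simp only [← Finset.mul_sum, Finset.sum_const, Finset.card_univ, nsmul_eq_mul] at h4
  have h5 := mul_le_mul_of_nonneg_left hP (mul_nonneg hcX.le hcY.le)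
  linarith

end

end Pool.Agent.Lib.MP_a2fd8c_co
end

section

/-!
The core lemma: an almost regular relation with few heavy pairs contains the configuration.
-/

namespace Pool.Agent.Lib.MP_a2fd8c_co

open Finset
open scoped Classical

set_option linter.unusedSectionVars false

section
variable {X Y : Type*} [Fintype X] [Fintype Y]

/-- vertices of the auxiliary graph, kept after peeling -/
abbrev Vt (L' : Finset (Y × X × X)) (R' : Finset (X × Y × Y)) : Type _ := L' ⊕ R'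

section
variable {L' : Finset (Y × X × X)} {R' : Finset (X × Y × Y)}

def vx1 : Vt L' R' → X
  | Sum.inl p => p.1.2.1
  | Sum.inr q => q.1.1
def vx2 : Vt L' R' → X
  | Sum.inl p => p.1.2.2
  | Sum.inr q => q.1.1
def vy1 : Vt L' R' → Y
  | Sum.inl p => p.1.1
  | Sum.inr q => q.1.2.1
def vy2 : Vt L' R' → Y
  | Sum.inl p => p.1.1
  | Sum.inr q => q.1.2.2

/-- conflicts -/
def cf (u v : Vt L' R') : Prop :=
  (vx1 u = vx1 v ∨ vx1 u = vx2 v ∨ vx2 u = vx1 v ∨ vx2 u = vx2 v) ∨
  (vy1 u = vy1 v ∨ vy1 u = vy2 v ∨ vy2 u = vy1 v ∨ vy2 u = vy2 v)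

/-- adjacency -/
def ga (E : X → Y → Prop) (hX hY : ℝ) (O : X) (b : Y) : Vt L' R' → Vt L' R' → Prop
  | Sum.inl p, Sum.inr q => Th E hX hY O b p.1 q.1
  | Sum.inr q, Sum.inl p => Th E hX hY O b p.1 q.1
  | _, _ => False

lemma cf_symm (u v : Vt L' R') (h : cf u v) : cf v u := by
  unfold cf at h ⊢
  rcases h with (h | h | h | h) | (h | h | h | h)
  · exact Or.inl (Or.inl h.symm)
  · exact Or.inl (Or.inr (Or.inr (Or.inl h.symm)))
  · exact Or.inl (Or.inr (Or.inl h.symm))
  · exact Or.inl (Or.inr (Or.inr (Or.inr h.symm)))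
  · exact Or.inr (Or.inl h.symm)
  · exact Or.inr (Or.inr (Or.inr (Or.inl h.symm)))
  · exact Or.inr (Or.inr (Or.inl h.symm))
  · exact Or.inr (Or.inr (Or.inr (Or.inr h.symm)))

lemma ga_symm (E : X → Y → Prop) (hX hY : ℝ) (O : X) (b : Y) (u v : Vt L' R')
    (h : ga E hX hY O b u v) : ga E hX hY O b v u := by
  rcases u with p | q <;> rcases v with p' | q' <;> simp only [ga] at h ⊢
  · exact h
  · exact h

/-- a conflict-free closed walk of even length gives the configuration, if it starts on the left -/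
lemma neck_of_walk (E : X → Y → Prop) (hX hY : ℝ) (O : X) (b : Y) (m : ℕ)
    (f : ℕ → Vt L' R')
    (hstep : ∀ i < 2 * m, ga E hX hY O b (f i) (f (i + 1)))
    (hclose : f (2 * m) = f 0)
    (hcf : ∀ i < 2 * m, ∀ j < 2 * m, i ≠ j → ¬ cf (f i) (f j))
    (h0 : ∃ p, f 0 = Sum.inl p) : Neck E m := by
  rcases Nat.eq_zero_or_pos m with hm | hm
  · subst hm
    obtain ⟨p, hp⟩ := h0
    refine ⟨O, b, fun _ => O, fun _ => O, fun _ => O, fun _ => b, fun _ => b, fun _ => b, ?_⟩
    constructor <;> first | rfl | (intro i hi; omega)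
  -- parity
  have hpar : ∀ i, i ≤ m → ∃ p, f (2 * i) = Sum.inl p := by
    intro i
    induction i with
    | zero => intro _; exact h0
    | succ i ih =>
      intro hi
      obtain ⟨p, hp⟩ := ih (by omega)
      have h1 := hstep (2 * i) (by omega)
      have h2 := hstep (2 * i + 1) (by omega)
      rw [hp] at h1
      rcases hq : f (2 * i + 1) with p' | q
      · rw [hq] at h1; exact h1.elim
      · rw [hq] at h2
        rcases hr : f (2 * i + 1 + 1) with p' | q'
        · exact ⟨p', rfl⟩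
        · rw [hr] at h2; exact h2.elim
  have hne : Nonempty L' := ⟨h0.choose⟩
  choose! P hP using hpar
  have hpar' : ∀ i, i < m → ∃ q, f (2 * i + 1) = Sum.inr q := by
    intro i hi
    have h1 := hstep (2 * i) (by omega)
    rw [hP i hi.le] at h1
    rcases hq : f (2 * i + 1) with p' | q
    · rw [hq] at h1; exact h1.elim
    · exact ⟨q, rfl⟩
  -- make total
  have hq0 : ∃ q0 : R', True := by
    obtain ⟨q, _⟩ := hpar' 0 hm
    exact ⟨q, trivial⟩
  obtain ⟨q0, -⟩ := hq0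
  have hpar2 : ∀ i, ∃ q : R', i < m → f (2 * i + 1) = Sum.inr q := by
    intro i
    by_cases hi : i < m
    · obtain ⟨q, hq⟩ := hpar' i hi
      exact ⟨q, fun _ => hq⟩
    · exact ⟨q0, fun h => absurd h hi⟩
  choose Qv hQv using hpar2
  have T1 : ∀ i < m, Th E hX hY O b (P i).1 (Qv i).1 := by
    intro i hi
    have h1 := hstep (2 * i) (by omega)
    rw [hP i hi.le, hQv i hi] at h1
    exact h1
  have T2 : ∀ i < m, Th E hX hY O b (P (i + 1)).1 (Qv i).1 := by
    intro i hi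
    have h1 := hstep (2 * i + 1) (by omega)
    have e1 : 2 * i + 1 + 1 = 2 * (i + 1) := by ring
    rw [e1, hP (i + 1) (by omega), hQv i hi] at h1
    exact h1
  have hPm : P m = P 0 := by
    have h1 := hP m le_rfl
    have h2 := hP 0 (Nat.zero_le _)
    rw [hclose] at h1
    rw [Nat.mul_zero, h1] at h2
    exact Sum.inl.inj h2
  have cLL : ∀ i < m, ∀ j < m, i ≠ j → ¬ cf (L' := L') (R' := R') (Sum.inl (P i)) (Sum.inl (P j)) := by
    intro i hi j hj hij
    have := hcf (2 * i) (by omega) (2 * j) (by omega) (by omega)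
    rwa [hP i hi.le, hP j hj.le] at this
  have cRR : ∀ i < m, ∀ j < m, i ≠ j → ¬ cf (L' := L') (R' := R') (Sum.inr (Qv i)) (Sum.inr (Qv j)) := by
    intro i hi j hj hij
    have := hcf (2 * i + 1) (by omega) (2 * j + 1) (by omega) (by omega)
    rwa [hQv i hi, hQv j hj] at this
  have cLR : ∀ i < m, ∀ j < m, ¬ cf (L' := L') (R' := R') (Sum.inl (P i)) (Sum.inr (Qv j)) := by
    intro i hi j hj
    have := hcf (2 * i) (by omega) (2 * j + 1) (by omega) (by omega)
    rwa [hP i hi.le, hQv j hj] at this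
  refine ⟨O, b, fun i => (P i).1.2.1, fun i => (P i).1.2.2, fun i => (Qv i).1.1,
    fun i => (P i).1.1, fun i => (Qv i).1.2.1, fun i => (Qv i).1.2.2, ?_⟩
  constructor
  case A_m => simp only [hPm]
  case Q_m => simp only [hPm]
  case Os => intro i hi; exact (T1 i hi).Os
  case As => intro i hi; exact (T1 i hi).As
  case Qs => intro i hi; exact (T1 i hi).Qs
  case Ak => intro i hi; exact (T1 i hi).Ak
  case Ak' => intro i hi; exact (T2 i hi).Ak
  case Ql => intro i hi; exact (T1 i hi).Ql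
  case Ql' => intro i hi; exact (T2 i hi).Ql
  case Rk => intro i hi; exact (T1 i hi).Rk
  case Rl => intro i hi; exact (T1 i hi).Rl
  case Rb => intro i hi; exact (T1 i hi).Rb
  case A_O => intro i hi; exact (T1 i hi).lOA.1.symm
  case Q_O => intro i hi; exact (T1 i hi).lOQ.1.symm
  case R_O => intro i hi; exact (T1 i hi).OR.symm
  case s_b => intro i hi; exact (T1 i hi).sb
  case k_b => intro i hi; exact (T1 i hi).lkb.1
  case l_b => intro i hi; exact (T1 i hi).llb.1
  case AA =>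
    intro i hi j hj h
    by_contra hij
    exact cLL i hi j hj hij (Or.inl (Or.inl h))
  case QQ =>
    intro i hi j hj h
    by_contra hij
    exact cLL i hi j hj hij (Or.inl (Or.inr (Or.inr (Or.inr h))))
  case RR =>
    intro i hi j hj h
    by_contra hij
    exact cRR i hi j hj hij (Or.inl (Or.inl h))
  case ss =>
    intro i hi j hj h
    by_contra hij
    exact cLL i hi j hj hij (Or.inr (Or.inl h))
  case kk =>
    intro i hi j hj h
    by_contra hij
    exact cRR i hi j hj hij (Or.inr (Or.inl h))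
  case ll =>
    intro i hi j hj h
    by_contra hij
    exact cRR i hi j hj hij (Or.inr (Or.inr (Or.inr (Or.inr h))))
  case AQ =>
    intro i hi j hj h
    by_cases hij : i = j
    · subst hij
      exact (T1 i hi).AQ h
    · exact cLL i hi j hj hij (Or.inl (Or.inr (Or.inl h)))
  case AR =>
    intro i hi j hj h
    exact cLR i hi j hj (Or.inl (Or.inl h))
  case QR =>
    intro i hi j hj h
    exact cLR i hi j hj (Or.inl (Or.inr (Or.inr (Or.inl h))))
  case sk =>
    intro i hi j hj h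
    exact cLR i hi j hj (Or.inr (Or.inl h))
  case sl =>
    intro i hi j hj h
    exact cLR i hi j hj (Or.inr (Or.inr (Or.inl h)))
  case kl =>
    intro i hi j hj h
    by_cases hij : i = j
    · subst hij
      exact (T1 i hi).kl h
    · exact cRR i hi j hj hij (Or.inr (Or.inr (Or.inl h)))

/-- a conflict-free closed walk of even length gives the configuration -/
lemma neck_of_walk' (E : X → Y → Prop) (hX hY : ℝ) (O : X) (b : Y) (m : ℕ) (hm : 1 ≤ m)
    (f : ℕ → Vt L' R')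
    (hstep : ∀ i < 2 * m, ga E hX hY O b (f i) (f (i + 1)))
    (hclose : f (2 * m) = f 0)
    (hcf : ∀ i < 2 * m, ∀ j < 2 * m, i ≠ j → ¬ cf (f i) (f j)) : Neck E m := by
  rcases h0 : f 0 with p | q
  · exact neck_of_walk E hX hY O b m f hstep hclose hcf ⟨p, h0⟩
  · -- shift by one
    have h1 := hstep 0 (by omega)
    rw [h0] at h1
    have hp : ∃ p, f 1 = Sum.inl p := by
      rcases hf1 : f (0 + 1) with p | q'
      · exact ⟨p, rfl⟩
      · rw [hf1] at h1; exact h1.elim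
    refine neck_of_walk E hX hY O b m (fun i => if i < 2 * m then f (i + 1) else f 1) ?_ ?_ ?_ ?_
    · intro i hi
      simp only [if_pos hi]
      by_cases hi2 : i + 1 < 2 * m
      · simp only [if_pos hi2]
        exact hstep (i + 1) hi2
      · simp only [if_neg hi2]
        have e1 : i + 1 = 2 * m := by omega
        rw [e1, hclose]
        exact hstep 0 (by omega)
    · simp only [lt_irrefl, if_false, if_pos (show 0 < 2 * m by omega), zero_add]
    · intro i hi j hj hij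
      simp only [if_pos hi, if_pos hj]
      have key : ∀ i < 2 * m, ∃ i' < 2 * m, f (i + 1) = f i' ∧ (i' = i + 1 ∨ (i + 1 = 2 * m ∧ i' = 0)) := by
        intro i hi
        by_cases h : i + 1 < 2 * m
        · exact ⟨i + 1, h, rfl, Or.inl rfl⟩
        · have e1 : i + 1 = 2 * m := by omega
          exact ⟨0, by omega, by rw [e1, hclose], Or.inr ⟨e1, rfl⟩⟩
      obtain ⟨i', hi', e1, e2⟩ := key i hi
      obtain ⟨j', hj', e3, e4⟩ := key j hj
      rw [e1, e3]
      refine hcf i' hi' j' hj' ?_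
      omega
    · simp only [if_pos (show 0 < 2 * m by omega), zero_add]
      exact hp

end

/-- the core lemma -/
theorem core (E : X → Y → Prop) (m : ℕ) (hm : 1 ≤ m)
    (dX dY DX DY hX hY tX tY ε : ℝ) (hdX0 : 0 < dX) (hdY0 : 0 < dY)
    (hDX0 : 0 < DX) (hDY0 : 0 < DY) (hhX : 0 ≤ hX) (hhY : 0 ≤ hY) (hε : 0 ≤ ε)
    (hdX : ∀ x, dX ≤ ∑ y, ind E x y) (hdY : ∀ y, dY ≤ ∑ x, ind E x y)
    (hDX : ∀ x, ∑ y, ind E x y ≤ DX) (hDY : ∀ y, ∑ x, ind E x y ≤ DY)
    (htX : ∀ x, ∑ y, ∑ x', ind E x y * ind E x' y * (1 - bi (lt E hX x x')) ≤ tX)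
    (htY : ∀ y, ∑ x, ∑ y', ind E x y * ind E x y' *
      (1 - bi (lt (fun y x => E x y) hY y y')) ≤ tY)
    (hne : 0 < ec E univ univ)
    (n1 : 2 * (Fintype.card X : ℝ) * tX * (DX ^ 2 * DY)
      + 2 * (Fintype.card Y : ℝ) * tY * (DY ^ 2 * DX)
      + ec E univ univ * (DX * DY * (hX + hY)) ≤ ec E univ univ * dX ^ 2 * dY ^ 2 / 2)
    (n2 : 4 * ec E univ univ * (hX + hY) ≤ dX ^ 2 * dY ^ 2)
    (n3 : 32 * (Fintype.card X : ℝ) * (Fintype.card Y : ℝ) * (DX * DY ^ 2) *
      (2 * hX ^ 2 + 4 * hX * hY) ≤ ε * (dX ^ 4 * dY ^ 4))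
    (n4 : 32 * (Fintype.card X : ℝ) * (Fintype.card Y : ℝ) * (DY * DX ^ 2) *
      (2 * hY ^ 2 + 4 * hX * hY) ≤ ε * (dX ^ 4 * dY ^ 4))
    (n5 : (4 * (m : ℝ) ^ 4 * ε) ^ m * (DX * DY ^ 2 + DY * DX ^ 2) < 1) :
    Neck E m := by
  obtain ⟨O, b, hOb⟩ := many_th E dX dY DX DY hX hY tX tY hdX0 hdY0 hDX0.le hDY0.le hhX hhY
    hdX hdY hDX hDY htX htY hne n1 n2
  set L0 : Finset (Y × X × X) := univ.filter fun p => E O p.1 ∧ E p.2.1 p.1 ∧ E p.2.2 p.1 with hL0
  set R0 : Finset (X × Y × Y) := univ.filter fun q => E q.1 b ∧ E q.1 q.2.1 ∧ E q.1 q.2.2 with hR0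
  have hL0c : (L0.card : ℝ) ≤ DX * DY ^ 2 := left_card E O DX DY hDY0.le hDX hDY
  have hR0c : (R0.card : ℝ) ≤ DY * DX ^ 2 :=
    left_card (fun y x => E x y) b DY DX hDX0.le hDY hDX
  have hcX : (0 : ℝ) < Fintype.card X := by exact_mod_cast Fintype.card_pos_iff.2 ⟨O⟩
  have hcY : (0 : ℝ) < Fintype.card Y := by exact_mod_cast Fintype.card_pos_iff.2 ⟨b⟩
  set M : ℝ := dX ^ 4 * dY ^ 4 / (8 * (Fintype.card X : ℝ) * (Fintype.card Y : ℝ)) with hM
  have hM0 : 0 < M := by positivity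
  have hMle : M ≤ ec (Th E hX hY O b) L0 R0 := by
    have h1 : M ≤ ∑ p, ∑ q, bi (Th E hX hY O b p q) := by
      rw [hM, div_le_iff₀ (by positivity)]
      linarith
    refine h1.trans (le_of_eq ?_)
    unfold ec
    rw [← Finset.sum_subset (Finset.subset_univ L0)]
    · refine Finset.sum_congr rfl fun p _ => ?_
      rw [← Finset.sum_subset (Finset.subset_univ R0)]
      · refine Finset.sum_congr rfl fun q _ => ?_
        rw [ind_eq_bi]
      · intro q _ hq
        unfold bi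
        rw [if_neg]
        intro h
        apply hq
        simp only [hR0, Finset.mem_filter, Finset.mem_univ, true_and]
        exact ⟨h.Rb, h.Rk, h.Rl⟩
    · intro p _ hp
      refine Finset.sum_eq_zero fun q _ => ?_
      unfold bi
      rw [if_neg]
      intro h
      apply hp
      simp only [hL0, Finset.mem_filter, Finset.mem_univ, true_and]
      exact ⟨h.Os, h.As, h.Qs⟩
  set α : ℝ := M / (4 * (DX * DY ^ 2)) with hα
  set β : ℝ := M / (4 * (DY * DX ^ 2)) with hβ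
  have hα0 : 0 < α := by positivity
  have hβ0 : 0 < β := by positivity
  obtain ⟨L', hL', R', hR', hpe, hLd, hRd⟩ := peel (Th E hX hY O b) L0 R0 α β
  have hpos : 0 < ec (Th E hX hY O b) L' R' := by
    have h1 : α * (L0.card : ℝ) ≤ M / 4 := by
      calc α * (L0.card : ℝ) ≤ α * (DX * DY ^ 2) := mul_le_mul_of_nonneg_left hL0c hα0.le
        _ = M / 4 := by rw [hα]; field_simp
    have h2 : β * (R0.card : ℝ) ≤ M / 4 := by
      calc β * (R0.card : ℝ) ≤ β * (DY * DX ^ 2) := mul_le_mul_of_nonneg_left hR0c hβ0.le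
        _ = M / 4 := by rw [hβ]; field_simp
    have h3 : 0 ≤ α * (L'.card : ℝ) := by positivity
    have h4 : 0 ≤ β * (R'.card : ℝ) := by positivity
    linarith
  have hL'ne : L'.Nonempty := by
    rw [Finset.nonempty_iff_ne_empty]
    intro h
    rw [h] at hpos
    simp [ec] at hpos
  obtain ⟨p0, hp0⟩ := hL'ne
  have : Nonempty (Vt L' R') := ⟨Sum.inl ⟨p0, hp0⟩⟩
  -- degrees
  have degL : ∀ p : L', (((univ : Finset (Vt L' R')).filter fun w =>
      ga E hX hY O b (Sum.inl p) w).card : ℝ) = ∑ q ∈ R', bi (Th E hX hY O b p.1 q) := by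
    intro p
    rw [card_filter_bi, Fintype.sum_sum_type]
    have h1 : ∑ p' : L', bi (ga E hX hY O b (Sum.inl p : Vt L' R') (Sum.inl p')) = 0 := by
      refine Finset.sum_eq_zero fun p' _ => ?_
      unfold bi
      rw [if_neg]
      exact fun h => h
    rw [h1, zero_add, ← Finset.sum_coe_sort R']
    rfl
  have degR : ∀ q : R', (((univ : Finset (Vt L' R')).filter fun w =>
      ga E hX hY O b (Sum.inr q) w).card : ℝ) = ∑ p ∈ L', bi (Th E hX hY O b p q.1) := by
    intro q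
    rw [card_filter_bi, Fintype.sum_sum_type]
    have h1 : ∑ q' : R', bi (ga E hX hY O b (Sum.inr q : Vt L' R') (Sum.inr q')) = 0 := by
      refine Finset.sum_eq_zero fun p' _ => ?_
      unfold bi
      rw [if_neg]
      exact fun h => h
    rw [h1, add_zero, ← Finset.sum_coe_sort L']
    rfl
  have degL' : ∀ p : L', α ≤ (((univ : Finset (Vt L' R')).filter fun w =>
      ga E hX hY O b (Sum.inl p) w).card : ℝ) := by
    intro p
    rw [degL p]
    have := hLd p.1 p.2
    simpa only [ind_eq_bi] using this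
  have degR' : ∀ q : R', β ≤ (((univ : Finset (Vt L' R')).filter fun w =>
      ga E hX hY O b (Sum.inr q) w).card : ℝ) := by
    intro q
    rw [degR q]
    have := hRd q.1 q.2
    simpa only [ind_eq_bi] using this
  have hn3 : 2 * hX ^ 2 + 4 * hX * hY ≤ ε * α := by
    rw [hα, hM]
    rw [div_div, mul_div_assoc', le_div_iff₀ (by positivity)]
    linarith
  have hn4 : 2 * hY ^ 2 + 4 * hX * hY ≤ ε * β := by
    rw [hβ, hM]
    rw [div_div, mul_div_assoc', le_div_iff₀ (by positivity)]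
    linarith
  obtain ⟨f, hf1, hf2, hf3⟩ := closed_walk (V := Vt L' R') (ga E hX hY O b)
    (fun u v h => ga_symm E hX hY O b u v h) cf (fun u v h => cf_symm u v h) ε hε m hm
    (by
      intro v
      rcases v with p | q
      · have := hα0.trans_le (degL' p)
        exact_mod_cast this
      · have := hβ0.trans_le (degR' q)
        exact_mod_cast this)
    (by
      intro u v
      rcases v with p | q
      · have h1 : (((univ : Finset (Vt L' R')).filter fun w =>
            ga E hX hY O b (Sum.inl p) w ∧ cf w u).card : ℝ) ≤ 2 * hX ^ 2 + 4 * hX * hY := by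
          rw [card_filter_bi, Fintype.sum_sum_type]
          have h1 : ∑ p' : L', bi (ga E hX hY O b (Sum.inl p : Vt L' R') (Sum.inl p') ∧
              cf (Sum.inl p') u) = 0 := by
            refine Finset.sum_eq_zero fun p' _ => ?_
            unfold bi
            rw [if_neg]
            exact fun h => h.1
          rw [h1, zero_add]
          calc ∑ q : R', bi (ga E hX hY O b (Sum.inl p : Vt L' R') (Sum.inr q) ∧ cf (Sum.inr q) u)
              ≤ ∑ q : R', bi (Th E hX hY O b p.1 q.1 ∧ ((q.1.1 = vx1 u ∨ q.1.1 = vx2 u) ∨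
                (q.1.2.1 = vy1 u ∨ q.1.2.1 = vy2 u) ∨ (q.1.2.2 = vy1 u ∨ q.1.2.2 = vy2 u))) := by
                refine Finset.sum_le_sum fun q _ => bi_mono ?_
                rintro ⟨h, hc⟩
                refine ⟨h, ?_⟩
                simp only [cf, vx1, vx2, vy1, vy2] at hc
                simp only [vx1, vx2, vy1, vy2]
                tauto
            _ = ∑ q ∈ R', bi (Th E hX hY O b p.1 q ∧ ((q.1 = vx1 u ∨ q.1 = vx2 u) ∨
                (q.2.1 = vy1 u ∨ q.2.1 = vy2 u) ∨ (q.2.2 = vy1 u ∨ q.2.2 = vy2 u))) := by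
                rw [← Finset.sum_coe_sort R']
            _ ≤ ∑ q, bi (Th E hX hY O b p.1 q ∧ ((q.1 = vx1 u ∨ q.1 = vx2 u) ∨
                (q.2.1 = vy1 u ∨ q.2.1 = vy2 u) ∨ (q.2.2 = vy1 u ∨ q.2.2 = vy2 u))) :=
                Finset.sum_le_sum_of_subset_of_nonneg (Finset.subset_univ _)
                  fun _ _ _ => bi_nonneg _
            _ ≤ 2 * hX ^ 2 + 4 * hX * hY := conf_left E hX hY O b hhX hhY p.1 _ _ _ _
        exact h1.trans (hn3.trans (mul_le_mul_of_nonneg_left (degL' p) hε))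
      · have h1 : (((univ : Finset (Vt L' R')).filter fun w =>
            ga E hX hY O b (Sum.inr q) w ∧ cf w u).card : ℝ) ≤ 2 * hY ^ 2 + 4 * hX * hY := by
          rw [card_filter_bi, Fintype.sum_sum_type]
          have h1 : ∑ q' : R', bi (ga E hX hY O b (Sum.inr q : Vt L' R') (Sum.inr q') ∧
              cf (Sum.inr q') u) = 0 := by
            refine Finset.sum_eq_zero fun p' _ => ?_
            unfold bi
            rw [if_neg]
            exact fun h => h.1
          rw [h1, add_zero]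
          calc ∑ p : L', bi (ga E hX hY O b (Sum.inr q : Vt L' R') (Sum.inl p) ∧ cf (Sum.inl p) u)
              ≤ ∑ p : L', bi (Th E hX hY O b p.1 q.1 ∧ ((p.1.1 = vy1 u ∨ p.1.1 = vy2 u) ∨
                (p.1.2.1 = vx1 u ∨ p.1.2.1 = vx2 u) ∨ (p.1.2.2 = vx1 u ∨ p.1.2.2 = vx2 u))) := by
                refine Finset.sum_le_sum fun q _ => bi_mono ?_
                rintro ⟨h, hc⟩
                refine ⟨h, ?_⟩
                simp only [cf, vx1, vx2, vy1, vy2] at hc
                simp only [vx1, vx2, vy1, vy2]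
                tauto
            _ = ∑ p ∈ L', bi (Th E hX hY O b p q.1 ∧ ((p.1 = vy1 u ∨ p.1 = vy2 u) ∨
                (p.2.1 = vx1 u ∨ p.2.1 = vx2 u) ∨ (p.2.2 = vx1 u ∨ p.2.2 = vx2 u))) := by
                rw [← Finset.sum_coe_sort L']
            _ ≤ ∑ p, bi (Th E hX hY O b p q.1 ∧ ((p.1 = vy1 u ∨ p.1 = vy2 u) ∨
                (p.2.1 = vx1 u ∨ p.2.1 = vx2 u) ∨ (p.2.2 = vx1 u ∨ p.2.2 = vx2 u))) :=
                Finset.sum_le_sum_of_subset_of_nonneg (Finset.subset_univ _)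
                  fun _ _ _ => bi_nonneg _
            _ ≤ 2 * hY ^ 2 + 4 * hX * hY := conf_right E hX hY O b hhX hhY q.1 _ _ _ _
        exact h1.trans (hn4.trans (mul_le_mul_of_nonneg_left (degR' q) hε)))
    (by
      refine lt_of_le_of_lt ?_ n5
      refine mul_le_mul_of_nonneg_left ?_ (by positivity)
      have h1 : (Fintype.card (Vt L' R') : ℝ) = (L'.card : ℝ) + (R'.card : ℝ) := by
        simp [Vt]
      rw [h1]
      have h2 : (L'.card : ℝ) ≤ L0.card := by exact_mod_cast Finset.card_le_card hL'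
      have h3 : (R'.card : ℝ) ≤ R0.card := by exact_mod_cast Finset.card_le_card hR'
      linarith)
  exact neck_of_walk' E hX hY O b m hm f hf2 hf1 hf3

end

end Pool.Agent.Lib.MP_a2fd8c_co
end

section

/-!
Restriction to finite subsets, and self-duality of the configuration.
-/

namespace Pool.Agent.Lib.MP_a2fd8c_co

open Finset
open scoped Classical

lemma Neck.map {X Y X' Y' : Type*} {E : X → Y → Prop} {E' : X' → Y' → Prop} {m : ℕ}
    (f : X → X') (g : Y → Y') (hf : Function.Injective f) (hg : Function.Injective g)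
    (hE : ∀ x y, E x y → E' (f x) (g y)) (h : Neck E m) : Neck E' m := by
  obtain ⟨O, b, A, Q, R, s, k, l, h⟩ := h
  refine ⟨f O, g b, fun i => f (A i), fun i => f (Q i), fun i => f (R i), fun i => g (s i),
    fun i => g (k i), fun i => g (l i), ?_⟩
  constructor
  case A_m => simp only [h.A_m]
  case Q_m => simp only [h.Q_m]
  case Os => intro i hi; exact hE _ _ (h.Os i hi)
  case As => intro i hi; exact hE _ _ (h.As i hi)
  case Qs => intro i hi; exact hE _ _ (h.Qs i hi)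
  case Ak => intro i hi; exact hE _ _ (h.Ak i hi)
  case Ak' => intro i hi; exact hE _ _ (h.Ak' i hi)
  case Ql => intro i hi; exact hE _ _ (h.Ql i hi)
  case Ql' => intro i hi; exact hE _ _ (h.Ql' i hi)
  case Rk => intro i hi; exact hE _ _ (h.Rk i hi)
  case Rl => intro i hi; exact hE _ _ (h.Rl i hi)
  case Rb => intro i hi; exact hE _ _ (h.Rb i hi)
  case A_O => intro i hi; exact hf.ne (h.A_O i hi)
  case Q_O => intro i hi; exact hf.ne (h.Q_O i hi)
  case R_O => intro i hi; exact hf.ne (h.R_O i hi)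
  case s_b => intro i hi; exact hg.ne (h.s_b i hi)
  case k_b => intro i hi; exact hg.ne (h.k_b i hi)
  case l_b => intro i hi; exact hg.ne (h.l_b i hi)
  case AA => intro i hi j hj e; exact h.AA i hi j hj (hf e)
  case QQ => intro i hi j hj e; exact h.QQ i hi j hj (hf e)
  case RR => intro i hi j hj e; exact h.RR i hi j hj (hf e)
  case ss => intro i hi j hj e; exact h.ss i hi j hj (hg e)
  case kk => intro i hi j hj e; exact h.kk i hi j hj (hg e)
  case ll => intro i hi j hj e; exact h.ll i hi j hj (hg e)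
  case AQ => intro i hi j hj; exact hf.ne (h.AQ i hi j hj)
  case AR => intro i hi j hj; exact hf.ne (h.AR i hi j hj)
  case QR => intro i hi j hj; exact hf.ne (h.QR i hi j hj)
  case sk => intro i hi j hj; exact hg.ne (h.sk i hi j hj)
  case sl => intro i hi j hj; exact hg.ne (h.sl i hi j hj)
  case kl => intro i hi j hj; exact hg.ne (h.kl i hi j hj)

/-- the configuration is self-dual -/
lemma Neck.dual {X Y : Type*} {E : X → Y → Prop} {m : ℕ} (hm : 1 ≤ m)
    (h : Neck (fun y x => E x y) m) : Neck E m := by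
  obtain ⟨O, b, A, Q, R, s, k, l, h⟩ := h
  have hA : ∀ i < m, A (i + 1) = A ((i + 1) % m) := by
    intro i hi
    by_cases h1 : i + 1 < m
    · rw [Nat.mod_eq_of_lt h1]
    · have : i + 1 = m := by omega
      rw [this, Nat.mod_self, h.A_m]
  have hQ : ∀ i < m, Q (i + 1) = Q ((i + 1) % m) := by
    intro i hi
    by_cases h1 : i + 1 < m
    · rw [Nat.mod_eq_of_lt h1]
    · have : i + 1 = m := by omega
      rw [this, Nat.mod_self, h.Q_m]
  have hlt : ∀ i, i % m < m := fun i => Nat.mod_lt _ hm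
  have hinj : ∀ i < m, ∀ j < m, (i + 1) % m = (j + 1) % m → i = j := by
    intro i hi j hj e
    by_cases h1 : i + 1 < m
    · by_cases h2 : j + 1 < m
      · rw [Nat.mod_eq_of_lt h1, Nat.mod_eq_of_lt h2] at e
        omega
      · have h3 : j + 1 = m := by omega
        rw [Nat.mod_eq_of_lt h1, h3, Nat.mod_self] at e
        omega
    · have h3 : i + 1 = m := by omega
      by_cases h2 : j + 1 < m
      · rw [Nat.mod_eq_of_lt h2, h3, Nat.mod_self] at e
        omega
      · omega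
  have hinj' : ∀ i < m, ∀ j < m, i % m = j % m → i = j := by
    intro i hi j hj e
    rwa [Nat.mod_eq_of_lt hi, Nat.mod_eq_of_lt hj] at e
  -- k is incident with A i and A (i+1) in cyclic form
  have hkA : ∀ i < m, E (k (i % m)) (A ((i + 1) % m)) := by
    intro i hi
    rw [Nat.mod_eq_of_lt hi, ← hA i hi]
    exact h.Ak' i hi
  have hkA' : ∀ i < m, E (k ((i + 1) % m)) (A ((i + 1) % m)) := by
    intro i hi
    exact h.Ak _ (hlt _)
  have hlQ : ∀ i < m, E (l (i % m)) (Q ((i + 1) % m)) := by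
    intro i hi
    rw [Nat.mod_eq_of_lt hi, ← hQ i hi]
    exact h.Ql' i hi
  have hlQ' : ∀ i < m, E (l ((i + 1) % m)) (Q ((i + 1) % m)) := by
    intro i hi
    exact h.Ql _ (hlt _)
  refine ⟨b, O, fun i => k (i % m), fun i => l (i % m), fun i => s ((i + 1) % m), fun i => R i,
    fun i => A ((i + 1) % m), fun i => Q ((i + 1) % m), ?_⟩
  constructor
  case A_m => simp
  case Q_m => simp
  case Os => intro i hi; exact h.Rb i hi
  case As => intro i hi; simp only [Nat.mod_eq_of_lt hi]; exact h.Rk i hi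
  case Qs => intro i hi; simp only [Nat.mod_eq_of_lt hi]; exact h.Rl i hi
  case Ak => intro i hi; exact hkA i hi
  case Ak' => intro i hi; exact hkA' i hi
  case Ql => intro i hi; exact hlQ i hi
  case Ql' => intro i hi; exact hlQ' i hi
  case Rk => intro i hi; exact h.As _ (hlt _)
  case Rl => intro i hi; exact h.Qs _ (hlt _)
  case Rb => intro i hi; exact h.Os _ (hlt _)
  case A_O => intro i hi; exact h.k_b _ (hlt _)
  case Q_O => intro i hi; exact h.l_b _ (hlt _)
  case R_O => intro i hi; exact h.s_b _ (hlt _)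
  case s_b => intro i hi; exact h.R_O i hi
  case k_b => intro i hi; exact h.A_O _ (hlt _)
  case l_b => intro i hi; exact h.Q_O _ (hlt _)
  case AA => intro i hi j hj e; exact hinj' i hi j hj (h.kk _ (hlt _) _ (hlt _) e)
  case QQ => intro i hi j hj e; exact hinj' i hi j hj (h.ll _ (hlt _) _ (hlt _) e)
  case RR => intro i hi j hj e; exact hinj i hi j hj (h.ss _ (hlt _) _ (hlt _) e)
  case ss => intro i hi j hj e; exact h.RR i hi j hj e
  case kk => intro i hi j hj e; exact hinj i hi j hj (h.AA _ (hlt _) _ (hlt _) e)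
  case ll => intro i hi j hj e; exact hinj i hi j hj (h.QQ _ (hlt _) _ (hlt _) e)
  case AQ => intro i hi j hj; exact h.kl _ (hlt _) _ (hlt _)
  case AR => intro i hi j hj; exact (h.sk _ (hlt _) _ (hlt _)).symm
  case QR => intro i hi j hj; exact (h.sl _ (hlt _) _ (hlt _)).symm
  case sk => intro i hi j hj; exact (h.AR _ (hlt _) _ hi).symm
  case sl => intro i hi j hj; exact (h.QR _ (hlt _) _ hi).symm
  case kl => intro i hi j hj; exact h.AQ _ (hlt _) _ (hlt _)

section
variable {X Y : Type*}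

/-- the core lemma for finite subsets -/
theorem core_fin (E : X → Y → Prop) (X₂ : Finset X) (Y₂ : Finset Y) (m : ℕ) (hm : 1 ≤ m)
    (dX dY DX DY hX hY tX tY ε : ℝ) (hdX0 : 0 < dX) (hdY0 : 0 < dY)
    (hDX0 : 0 < DX) (hDY0 : 0 < DY) (hhX : 0 ≤ hX) (hhY : 0 ≤ hY) (hε : 0 ≤ ε)
    (hdX : ∀ x ∈ X₂, dX ≤ ∑ y ∈ Y₂, ind E x y) (hdY : ∀ y ∈ Y₂, dY ≤ ∑ x ∈ X₂, ind E x y)
    (hDX : ∀ x ∈ X₂, ∑ y ∈ Y₂, ind E x y ≤ DX) (hDY : ∀ y ∈ Y₂, ∑ x ∈ X₂, ind E x y ≤ DY)
    (htX : ∀ x ∈ X₂, ∑ y ∈ Y₂, ∑ x' ∈ X₂, ind E x y * ind E x' y *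
      (1 - bi (x ≠ x' ∧ ∑ y ∈ Y₂, ind E x y * ind E x' y ≤ hX)) ≤ tX)
    (htY : ∀ y ∈ Y₂, ∑ x ∈ X₂, ∑ y' ∈ Y₂, ind E x y * ind E x y' *
      (1 - bi (y ≠ y' ∧ ∑ x ∈ X₂, ind E x y * ind E x y' ≤ hY)) ≤ tY)
    (hne : 0 < ec E X₂ Y₂)
    (n1 : 2 * (X₂.card : ℝ) * tX * (DX ^ 2 * DY)
      + 2 * (Y₂.card : ℝ) * tY * (DY ^ 2 * DX)
      + ec E X₂ Y₂ * (DX * DY * (hX + hY)) ≤ ec E X₂ Y₂ * dX ^ 2 * dY ^ 2 / 2)
    (n2 : 4 * ec E X₂ Y₂ * (hX + hY) ≤ dX ^ 2 * dY ^ 2)
    (n3 : 32 * (X₂.card : ℝ) * (Y₂.card : ℝ) * (DX * DY ^ 2) *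
      (2 * hX ^ 2 + 4 * hX * hY) ≤ ε * (dX ^ 4 * dY ^ 4))
    (n4 : 32 * (X₂.card : ℝ) * (Y₂.card : ℝ) * (DY * DX ^ 2) *
      (2 * hY ^ 2 + 4 * hX * hY) ≤ ε * (dX ^ 4 * dY ^ 4))
    (n5 : (4 * (m : ℝ) ^ 4 * ε) ^ m * (DX * DY ^ 2 + DY * DX ^ 2) < 1) :
    Neck E m := by
  have hec : ec (fun (x : X₂) (y : Y₂) => E x.1 y.1) univ univ = ec E X₂ Y₂ := by
    unfold ec
    rw [← Finset.sum_coe_sort X₂]
    refine Finset.sum_congr rfl fun x _ => ?_
    rw [← Finset.sum_coe_sort Y₂]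
    rfl
  have hcX : Fintype.card X₂ = X₂.card := Fintype.card_coe X₂
  have hcY : Fintype.card Y₂ = Y₂.card := Fintype.card_coe Y₂
  have hr : Neck (fun (x : X₂) (y : Y₂) => E x.1 y.1) m := by
    refine core (fun (x : X₂) (y : Y₂) => E x.1 y.1) m hm dX dY DX DY hX hY tX tY ε hdX0 hdY0
      hDX0 hDY0 hhX hhY hε ?_ ?_ ?_ ?_ ?_ ?_ ?_ ?_ ?_ ?_ ?_ n5
    · intro x
      have := hdX x.1 x.2
      rwa [← Finset.sum_coe_sort Y₂] at this
    · intro y
      have := hdY y.1 y.2
      rwa [← Finset.sum_coe_sort X₂] at this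
    · intro x
      have := hDX x.1 x.2
      rwa [← Finset.sum_coe_sort Y₂] at this
    · intro y
      have := hDY y.1 y.2
      rwa [← Finset.sum_coe_sort X₂] at this
    · intro x
      refine le_trans (le_of_eq ?_) (htX x.1 x.2)
      rw [← Finset.sum_coe_sort Y₂]
      refine Finset.sum_congr rfl fun y _ => ?_
      rw [← Finset.sum_coe_sort X₂]
      refine Finset.sum_congr rfl fun x' _ => ?_
      congr 2
      refine bi_congr ?_
      unfold lt
      rw [← Finset.sum_coe_sort Y₂, Ne, Ne, Subtype.ext_iff]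
      rfl
    · intro y
      refine le_trans (le_of_eq ?_) (htY y.1 y.2)
      rw [← Finset.sum_coe_sort X₂]
      refine Finset.sum_congr rfl fun x _ => ?_
      rw [← Finset.sum_coe_sort Y₂]
      refine Finset.sum_congr rfl fun y' _ => ?_
      congr 2
      refine bi_congr ?_
      unfold lt
      rw [← Finset.sum_coe_sort X₂, Ne, Ne, Subtype.ext_iff]
      rfl
    · rw [hec]; exact hne
    · rw [hec, hcX, hcY]; exact n1
    · rw [hec]; exact n2
    · rw [hcX, hcY]; exact n3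
    · rw [hcX, hcY]; exact n4
  exact hr.map Subtype.val Subtype.val Subtype.val_injective Subtype.val_injective
    (fun _ _ h => h)

end

/-- the embedding lemma for finite subsets -/
theorem triple_dense_fin (m : ℕ) (hm : 2 ≤ m) : ∃ C : ℝ, 1 ≤ C ∧ ∀ (X Y : Type)
    (E : X → Y → Prop) (X' : Finset X) (Y' : Finset Y),
    C ≤ ec E X' Y' / (X'.card : ℝ) →
    C * (X'.card : ℝ) ^ 2 * (Y'.card : ℝ) ^ 3 ≤ ec E X' Y' ^ 3 →
    0 < X'.card → Neck E m := by
  obtain ⟨C, hC⟩ := triple_dense m hm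
  refine ⟨max C 1, le_max_right _ _, ?_⟩
  intro X Y E X' Y' h1 h2 h3
  have hec : ((univ.filter fun p : X' × Y' => E p.1.1 p.2.1).card : ℝ) = ec E X' Y' := by
    rw [card_filter_bi, Fintype.sum_prod_type]
    unfold ec
    rw [← Finset.sum_coe_sort X']
    refine Finset.sum_congr rfl fun x _ => ?_
    rw [← Finset.sum_coe_sort Y']
    refine Finset.sum_congr rfl fun y _ => ?_
    rw [ind_eq_bi]
  have hcX : Fintype.card X' = X'.card := Fintype.card_coe X'
  have hcY : Fintype.card Y' = Y'.card := Fintype.card_coe Y'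
  have hr : Neck (fun (x : X') (y : Y') => E x.1 y.1) m := by
    refine hC X' Y' (fun (x : X') (y : Y') => E x.1 y.1) ?_ ?_ ?_
    · rw [hec, hcX]
      exact (le_max_left _ _).trans h1
    · rw [hec, hcX, hcY]
      refine le_trans ?_ h2
      have : C ≤ max C 1 := le_max_left _ _
      gcongr
    · rw [hcX]; exact h3
  exact hr.map Subtype.val Subtype.val Subtype.val_injective Subtype.val_injective
    (fun _ _ h => h)

end Pool.Agent.Lib.MP_a2fd8c_co
end

section

/-!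
The extremal theorem: a relation with many edges contains the configuration.
-/

namespace Pool.Agent.Lib.MP_a2fd8c_co

open Finset
open scoped Classical

lemma two_pow_mul_exp_le {l : ℝ} (hl : Real.exp l = 2) (k : ℕ) {s1 s2 : ℝ}
    (h : (k : ℝ) * l + s1 ≤ s2) : (2 : ℝ) ^ k * Real.exp s1 ≤ Real.exp s2 := by
  rw [← hl, ← Real.exp_nat_mul, ← Real.exp_add]
  exact Real.exp_le_exp.2 h

/-- all analytic inequalities needed for `core_fin` -/
lemma analytic {A B R e K l : ℝ} (hcone : Cone A B R e K l) (hl : Real.exp l = 2)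
    (a c e₂ : ℝ) (ha0 : 0 ≤ a) (hc0 : 0 ≤ c) (ha : a ≤ Real.exp A) (hc : c ≤ Real.exp B)
    (he1 : Real.exp e / 2 ≤ e₂) (he2 : e₂ ≤ Real.exp e)
    (dX dY DX DY hX hY t ε : ℝ)
    (hdX : dX = Real.exp (e - A - 3 * l)) (hdY : dY = Real.exp (e - B - 3 * l))
    (hDX : DX = Real.exp (e - A + 7 * l)) (hDY : DY = Real.exp (e - B + 7 * l))
    (hhX : hX = Real.exp (LX A B e)) (hhY : hY = Real.exp (LY A B e))
    (ht : t = Real.exp (2 * e - A - B - 40 * l)) (hε : ε = Real.exp (-(9 / 1000 * B))) :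
    (2 * a * t * (DX ^ 2 * DY) + 2 * c * t * (DY ^ 2 * DX)
      + e₂ * (DX * DY * (hX + hY)) ≤ e₂ * dX ^ 2 * dY ^ 2 / 2) ∧
    (4 * e₂ * (hX + hY) ≤ dX ^ 2 * dY ^ 2) ∧
    (32 * a * c * (DX * DY ^ 2) * (2 * hX ^ 2 + 4 * hX * hY) ≤ ε * (dX ^ 4 * dY ^ 4)) ∧
    (32 * a * c * (DY * DX ^ 2) * (2 * hY ^ 2 + 4 * hX * hY) ≤ ε * (dX ^ 4 * dY ^ 4)) ∧
    ((4 * ((600 : ℕ) : ℝ) ^ 4 * ε) ^ 600 * (DX * DY ^ 2 + DY * DX ^ 2) < 1) := by
  have pdX : 0 < dX := by rw [hdX]; exact Real.exp_pos _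
  have pdY : 0 < dY := by rw [hdY]; exact Real.exp_pos _
  have pDX : 0 < DX := by rw [hDX]; exact Real.exp_pos _
  have pDY : 0 < DY := by rw [hDY]; exact Real.exp_pos _
  have phX : 0 < hX := by rw [hhX]; exact Real.exp_pos _
  have phY : 0 < hY := by rw [hhY]; exact Real.exp_pos _
  have pt : 0 < t := by rw [ht]; exact Real.exp_pos _
  have pε : 0 < ε := by rw [hε]; exact Real.exp_pos _
  have pe : 0 < Real.exp e := Real.exp_pos _
  have pA : 0 < Real.exp A := Real.exp_pos _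
  have pB : 0 < Real.exp B := Real.exp_pos _
  have pe₂ : 0 < e₂ := by linarith
  have l0 := hcone.l0
  obtain ⟨dx, edx⟩ : ∃ dx, dx = e - A - 3 * l := ⟨_, rfl⟩
  obtain ⟨dy, edy⟩ : ∃ dy, dy = e - B - 3 * l := ⟨_, rfl⟩
  obtain ⟨Dx, eDx⟩ : ∃ Dx, Dx = e - A + 7 * l := ⟨_, rfl⟩
  obtain ⟨Dy, eDy⟩ : ∃ Dy, Dy = e - B + 7 * l := ⟨_, rfl⟩
  obtain ⟨tt, ett⟩ : ∃ tt, tt = 2 * e - A - B - 40 * l := ⟨_, rfl⟩
  obtain ⟨ee, eee⟩ : ∃ ee, ee = -(9 / 1000 * B) := ⟨_, rfl⟩
  rw [← edx] at hdX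
  rw [← edy] at hdY
  rw [← eDx] at hDX
  rw [← eDy] at hDY
  rw [← ett] at ht
  rw [← eee] at hε
  -- n1
  have i1 : 32 * (Real.exp A * t * (DX ^ 2 * DY)) ≤ Real.exp e * dX ^ 2 * dY ^ 2 := by
    have h := two_pow_mul_exp_le hl 5 (s1 := A + tt +
      (Dx + Dx + Dy))
      (s2 := e + (dx + dx) + (dy + dy))
      (by push_cast; linarith)
    simp only [Real.exp_add] at h
    rw [← hdX, ← hdY, ← ht, ← hDX, ← hDY] at h
    linarith
  have i2 : 32 * (Real.exp B * t * (DY ^ 2 * DX)) ≤ Real.exp e * dX ^ 2 * dY ^ 2 := by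
    have h := two_pow_mul_exp_le hl 5 (s1 := B + tt +
      (Dy + Dy + Dx))
      (s2 := e + (dx + dx) + (dy + dy))
      (by push_cast; linarith)
    simp only [Real.exp_add] at h
    rw [← hdX, ← hdY, ← ht, ← hDX, ← hDY] at h
    linarith
  have i3 : 8 * (DX * DY * hX) ≤ dX ^ 2 * dY ^ 2 := by
    have h := two_pow_mul_exp_le hl 3 (s1 := Dx + Dy + LX A B e)
      (s2 := (dx + dx) + (dy + dy))
      (by have := num_X6 hcone; push_cast; linarith)
    simp only [Real.exp_add] at h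
    rw [← hdX, ← hdY, ← hhX, ← hDX, ← hDY] at h
    linarith
  have i4 : 8 * (DX * DY * hY) ≤ dX ^ 2 * dY ^ 2 := by
    have h := two_pow_mul_exp_le hl 3 (s1 := Dx + Dy + LY A B e)
      (s2 := (dx + dx) + (dy + dy))
      (by have := num_Y6 hcone; push_cast; linarith)
    simp only [Real.exp_add] at h
    rw [← hdX, ← hdY, ← hhY, ← hDX, ← hDY] at h
    linarith
  -- n2
  have j1 : 8 * (Real.exp e * hX) ≤ dX ^ 2 * dY ^ 2 := by
    have h := two_pow_mul_exp_le hl 3 (s1 := e + LX A B e)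
      (s2 := (dx + dx) + (dy + dy))
      (by have := num_X7 hcone; push_cast; linarith)
    simp only [Real.exp_add] at h
    rw [← hdX, ← hdY, ← hhX] at h
    linarith
  have j2 : 8 * (Real.exp e * hY) ≤ dX ^ 2 * dY ^ 2 := by
    have h := two_pow_mul_exp_le hl 3 (s1 := e + LY A B e)
      (s2 := (dx + dx) + (dy + dy))
      (by have := num_Y7 hcone; push_cast; linarith)
    simp only [Real.exp_add] at h
    rw [← hdX, ← hdY, ← hhY] at h
    linarith
  -- n3
  have m1 : 128 * (Real.exp A * Real.exp B * (DX * DY ^ 2) * hX ^ 2) ≤ ε * (dX ^ 4 * dY ^ 4) := by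
    have h := two_pow_mul_exp_le hl 7 (s1 := A + B + (Dx +
        (Dy + Dy)) + (LX A B e + LX A B e))
      (s2 := ee +
        ((dx + dx + dx + dx) +
        (dy + dy + dy + dy)))
      (by have := num_n3a hcone; push_cast; linarith)
    simp only [Real.exp_add] at h
    rw [← hdX, ← hdY, ← hhX, ← hDX, ← hDY, ← hε] at h
    linarith
  have m2 : 256 * (Real.exp A * Real.exp B * (DX * DY ^ 2) * (hX * hY)) ≤
      ε * (dX ^ 4 * dY ^ 4) := by
    have h := two_pow_mul_exp_le hl 8 (s1 := A + B + (Dx +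
        (Dy + Dy)) + (LX A B e + LY A B e))
      (s2 := ee +
        ((dx + dx + dx + dx) +
        (dy + dy + dy + dy)))
      (by have := num_n3b hcone; push_cast; linarith)
    simp only [Real.exp_add] at h
    rw [← hdX, ← hdY, ← hhX, ← hhY, ← hDX, ← hDY, ← hε] at h
    linarith
  have m3 : 128 * (Real.exp A * Real.exp B * (DY * DX ^ 2) * hY ^ 2) ≤ ε * (dX ^ 4 * dY ^ 4) := by
    have h := two_pow_mul_exp_le hl 7 (s1 := A + B + (Dy +
        (Dx + Dx)) + (LY A B e + LY A B e))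
      (s2 := ee +
        ((dx + dx + dx + dx) +
        (dy + dy + dy + dy)))
      (by have := num_n4a hcone; push_cast; linarith)
    simp only [Real.exp_add] at h
    rw [← hdX, ← hdY, ← hhY, ← hDX, ← hDY, ← hε] at h
    linarith
  have m4 : 256 * (Real.exp A * Real.exp B * (DY * DX ^ 2) * (hX * hY)) ≤
      ε * (dX ^ 4 * dY ^ 4) := by
    have h := two_pow_mul_exp_le hl 8 (s1 := A + B + (Dy +
        (Dx + Dx)) + (LX A B e + LY A B e))
      (s2 := ee +
        ((dx + dx + dx + dx) +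
        (dy + dy + dy + dy)))
      (by have := num_n4b hcone; push_cast; linarith)
    simp only [Real.exp_add] at h
    rw [← hdX, ← hdY, ← hhX, ← hhY, ← hDX, ← hDY, ← hε] at h
    linarith
  refine ⟨?_, ?_, ?_, ?_, ?_⟩
  · have f1 : 2 * a * t * (DX ^ 2 * DY) ≤ 2 * Real.exp A * t * (DX ^ 2 * DY) := by gcongr
    have f2 : 2 * c * t * (DY ^ 2 * DX) ≤ 2 * Real.exp B * t * (DY ^ 2 * DX) := by gcongr
    have f3 : e₂ * (DX * DY * (hX + hY)) ≤ e₂ * (dX ^ 2 * dY ^ 2 / 4) :=
      mul_le_mul_of_nonneg_left (by linarith) pe₂.le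
    have f4 : Real.exp e / 2 * (dX ^ 2 * dY ^ 2) ≤ e₂ * (dX ^ 2 * dY ^ 2) :=
      mul_le_mul_of_nonneg_right he1 (by positivity)
    linarith
  · have f1 : 4 * e₂ * (hX + hY) ≤ 4 * Real.exp e * (hX + hY) := by gcongr
    linarith
  · have f1 : 32 * a * c * (DX * DY ^ 2) * (2 * hX ^ 2 + 4 * hX * hY) ≤
        32 * Real.exp A * Real.exp B * (DX * DY ^ 2) * (2 * hX ^ 2 + 4 * hX * hY) := by gcongr
    linarith
  · have f1 : 32 * a * c * (DY * DX ^ 2) * (2 * hY ^ 2 + 4 * hX * hY) ≤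
        32 * Real.exp A * Real.exp B * (DY * DX ^ 2) * (2 * hY ^ 2 + 4 * hX * hY) := by gcongr
    linarith
  · have g1 : 4 * ((600 : ℕ) : ℝ) ^ 4 * ε ≤ Real.exp (39 * l - 9 / 1000 * B) := by
      have : (39 : ℝ) * l - 9 / 1000 * B = ((39 : ℕ) : ℝ) * l + ee := by
        rw [eee]; push_cast; ring
      rw [this, Real.exp_add, Real.exp_nat_mul, hl, ← hε]
      refine mul_le_mul_of_nonneg_right ?_ pε.le
      norm_num
    have g2 : (4 * ((600 : ℕ) : ℝ) ^ 4 * ε) ^ 600 ≤
        Real.exp (600 * (39 * l - 9 / 1000 * B)) := by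
      calc (4 * ((600 : ℕ) : ℝ) ^ 4 * ε) ^ 600 ≤ Real.exp (39 * l - 9 / 1000 * B) ^ 600 :=
            pow_le_pow_left₀ (by positivity) g1 600
        _ = Real.exp (((600 : ℕ) : ℝ) * (39 * l - 9 / 1000 * B)) := (Real.exp_nat_mul _ _).symm
        _ = _ := by push_cast; rfl
    set Z := Real.exp (600 * (39 * l - 9 / 1000 * B)) with hZ
    have g3 : 2 * (Z * (DX * DY ^ 2)) < 1 := by
      have h : Real.exp (l + (600 * (39 * l - 9 / 1000 * B) + (Dx +
          (Dy + Dy)))) < Real.exp 0 := by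
        refine Real.exp_lt_exp.2 ?_
        have := num_n5a hcone
        linarith
      rw [Real.exp_zero, Real.exp_add, Real.exp_add (600 * _), Real.exp_add Dx,
        Real.exp_add Dy, hl, ← hZ, ← hDX, ← hDY] at h
      nlinarith
    have g4 : 2 * (Z * (DY * DX ^ 2)) < 1 := by
      have h : Real.exp (l + (600 * (39 * l - 9 / 1000 * B) + (Dy +
          (Dx + Dx)))) < Real.exp 0 := by
        refine Real.exp_lt_exp.2 ?_
        have := num_n5b hcone
        linarith
      rw [Real.exp_zero, Real.exp_add, Real.exp_add (600 * _), Real.exp_add Dy,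
        Real.exp_add Dx, hl, ← hZ, ← hDX, ← hDY] at h
      nlinarith
    have g5 : (4 * ((600 : ℕ) : ℝ) ^ 4 * ε) ^ 600 * (DX * DY ^ 2 + DY * DX ^ 2) ≤
        Z * (DX * DY ^ 2 + DY * DX ^ 2) := mul_le_mul_of_nonneg_right g2 (by positivity)
    linarith

/-- one of the conditions for `heavy_bound` -/
lemma heavy_cond {l R x T H p q : ℝ} (hl : Real.exp l = 2)
    (h : 2 * l + R + x * q ≤ T * (1 - p) + H * p) :
    4 * Real.exp R * (Real.exp x) ^ q ≤ (Real.exp T) ^ (1 - p) * (Real.exp H) ^ p := by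
  rw [← Real.exp_mul, ← Real.exp_mul, ← Real.exp_mul, ← Real.exp_add]
  have h4 : (4 : ℝ) = Real.exp (l + l) := by rw [Real.exp_add, hl]; norm_num
  rw [h4, ← Real.exp_add, ← Real.exp_add]
  refine Real.exp_le_exp.2 ?_
  linarith

theorem main_case {X Y : Type} (C1 : ℝ) (hC1 : 1 ≤ C1)
    (htd : ∀ (X Y : Type) (E : X → Y → Prop) (X' : Finset X) (Y' : Finset Y),
      C1 ≤ ec E X' Y' / (X'.card : ℝ) →
      C1 * (X'.card : ℝ) ^ 2 * (Y'.card : ℝ) ^ 3 ≤ ec E X' Y' ^ 3 →
      0 < X'.card → Neck E 600)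
    (E : X → Y → Prop) (X' : Finset X) (Y' : Finset Y) (ρ : ℝ)
    (hρ : Real.exp (100000 * (1 + Real.log C1)) ≤ ρ)
    (hXY : Y'.card ≤ X'.card) (hY : 0 < Y'.card)
    (hsub : ∀ S ⊆ X', ∀ T ⊆ Y', ec E S T ≤ ρ * pF S.card T.card)
    (heq : ec E X' Y' = ρ * pF X'.card Y'.card) : Neck E 600 := by
  have hX : 0 < X'.card := lt_of_lt_of_le hY hXY
  have ha : (0 : ℝ) < X'.card := by exact_mod_cast hX
  have hc : (0 : ℝ) < Y'.card := by exact_mod_cast hY
  have hρ0 : 0 < ρ := (Real.exp_pos _).trans_le hρ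
  have he : 0 < ec E X' Y' := by rw [heq]; exact mul_pos hρ0 (pF_pos ha hc)
  obtain ⟨A, hA⟩ : ∃ A, (X'.card : ℝ) = Real.exp A := ⟨_, (Real.exp_log ha).symm⟩
  obtain ⟨B, hB⟩ : ∃ B, (Y'.card : ℝ) = Real.exp B := ⟨_, (Real.exp_log hc).symm⟩
  obtain ⟨R, hR⟩ : ∃ R, ρ = Real.exp R := ⟨_, (Real.exp_log hρ0).symm⟩
  obtain ⟨e, hE⟩ : ∃ e, ec E X' Y' = Real.exp e := ⟨_, (Real.exp_log he).symm⟩
  have hC0 : 0 < C1 := by linarith
  obtain ⟨K, hK, hK'⟩ : ∃ K, C1 = Real.exp K ∧ Real.log C1 = K :=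
    ⟨Real.log C1, (Real.exp_log hC0).symm, rfl⟩
  set l := Real.log 2 with hldef
  have hl : Real.exp l = 2 := Real.exp_log (by norm_num)
  have l0 : 0 < l := Real.log_pos (by norm_num)
  have l1 : l < 7 / 10 := by
    have := Real.log_two_lt_d9
    rw [hldef]; linarith
  -- the cone
  have k1 : B ≤ A := by
    rw [← Real.exp_le_exp, ← hA, ← hB]; exact_mod_cast hXY
  have k6 : 0 ≤ K := by
    rw [← hK']; exact Real.log_nonneg hC1
  have k8 : 100000 * (1 + K) ≤ R := by
    rw [← Real.exp_le_exp, ← hR]; rwa [hK'] at hρ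
  have kF : Real.exp e = Real.exp R * pF (Real.exp A) (Real.exp B) := by
    rw [← hE, ← hR, ← hA, ← hB]; exact heq
  have pA := Real.exp_pos A
  have pB := Real.exp_pos B
  have k3 : R + 9 / 10 * A + 149 / 250 * B ≤ e := by
    rw [← Real.exp_le_exp, kF]
    have h1 : Real.exp (R + 9 / 10 * A + 149 / 250 * B) =
        Real.exp R * (Real.exp A ^ (9 / 10 : ℝ) * Real.exp B ^ (149 / 250 : ℝ)) := by
      rw [← Real.exp_mul, ← Real.exp_mul, ← Real.exp_add, ← Real.exp_add]
      congr 1; ring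
    rw [h1]
    refine mul_le_mul_of_nonneg_left ?_ (Real.exp_pos _).le
    unfold pF
    have h2 : 0 ≤ Real.exp A ^ (149 / 250 : ℝ) * Real.exp B ^ (9 / 10 : ℝ) := by positivity
    have h3 : 0 ≤ Real.exp A * Real.exp B ^ (9 / 20 : ℝ) := by positivity
    have h4 : 0 ≤ Real.exp A ^ (9 / 20 : ℝ) * Real.exp B := by positivity
    linarith
  have k4 : R + A + 9 / 20 * B ≤ e := by
    rw [← Real.exp_le_exp, kF]
    have h1 : Real.exp (R + A + 9 / 20 * B) =
        Real.exp R * (Real.exp A * Real.exp B ^ (9 / 20 : ℝ)) := by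
      rw [← Real.exp_mul, ← Real.exp_add, ← Real.exp_add]
      congr 1; ring
    rw [h1]
    refine mul_le_mul_of_nonneg_left ?_ (Real.exp_pos _).le
    unfold pF
    have h2 : 0 ≤ Real.exp A ^ (149 / 250 : ℝ) * Real.exp B ^ (9 / 10 : ℝ) := by positivity
    have h3 : 0 ≤ Real.exp A ^ (9 / 10 : ℝ) * Real.exp B ^ (149 / 250 : ℝ) := by positivity
    have h4 : 0 ≤ Real.exp A ^ (9 / 20 : ℝ) * Real.exp B := by positivity
    linarith
  have k9 : e ≤ A + B := by
    rw [← Real.exp_le_exp, Real.exp_add, ← hE, ← hA, ← hB]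
    exact ec_le_card_mul E X' Y'
  have kB : 0 ≤ B := by
    rw [← Real.exp_le_exp, Real.exp_zero, ← hB]
    exact_mod_cast hY
  -- the triple dense case
  by_cases htri : C1 * (X'.card : ℝ) ^ 2 * (Y'.card : ℝ) ^ 3 ≤ ec E X' Y' ^ 3
  · refine htd X Y E X' Y' ?_ htri hX
    rw [hE, hA, ← Real.exp_sub, hK]
    refine Real.exp_le_exp.2 ?_
    linarith
  have k5 : e ≤ 2 / 3 * A + B + K := by
    have h1 := not_le.1 htri
    rw [hE, hA, hB, hK] at h1
    have h2 : Real.exp (e + e + e) < Real.exp (K + (A + A) + (B + B + B)) := by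
      simp only [Real.exp_add]
      calc Real.exp e * Real.exp e * Real.exp e = Real.exp e ^ 3 := by ring
        _ < Real.exp K * Real.exp A ^ 2 * Real.exp B ^ 3 := h1
        _ = _ := by ring
    have h3 := Real.exp_lt_exp.1 h2
    linarith
  have hcone : Cone A B R e K l := by
    refine ⟨k1, by linarith, k3, k4, k5, k6, ?_, l0, l1⟩
    linarith
  obtain ⟨X₂, hX₂, Y₂, hY₂, q1, q2, q3, q4, q5⟩ := regular_piece E X' Y' ρ hρ0 hX hY hsub heq
  have h8 : (8 : ℝ) = Real.exp (3 * l) := by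
    have := Real.exp_nat_mul l 3
    push_cast at this
    rw [this, hl]; norm_num
  have h128 : (128 : ℝ) = Real.exp (7 * l) := by
    have := Real.exp_nat_mul l 7
    push_cast at this
    rw [this, hl]; norm_num
  have edX : ec E X' Y' / X'.card / 8 = Real.exp (e - A - 3 * l) := by
    rw [hE, hA, h8, ← Real.exp_sub, ← Real.exp_sub]
  have edY : ec E X' Y' / Y'.card / 8 = Real.exp (e - B - 3 * l) := by
    rw [hE, hB, h8, ← Real.exp_sub, ← Real.exp_sub]
  have eDX : 128 * (ec E X' Y' / X'.card) = Real.exp (e - A + 7 * l) := by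
    rw [hE, hA, h128, ← Real.exp_sub, ← Real.exp_add]
    congr 1; ring
  have eDY : 128 * (ec E X' Y' / Y'.card) = Real.exp (e - B + 7 * l) := by
    rw [hE, hB, h128, ← Real.exp_sub, ← Real.exp_add]
    congr 1; ring
  rw [edX] at q2
  rw [edY] at q3
  rw [eDX] at q4
  rw [eDY] at q5
  rw [hE] at q1
  have hsub₂ : ∀ S ⊆ X₂, ∀ T ⊆ Y₂, ec E S T ≤ ρ * pF S.card T.card :=
    fun S hS T hT => hsub S (hS.trans hX₂) T (hT.trans hY₂)
  have hec₂ : ec E X₂ Y₂ ≤ Real.exp e := by rw [← hE]; exact ec_mono E hX₂ hY₂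
  have hcX₂ : (X₂.card : ℝ) ≤ Real.exp A := by
    rw [← hA]; exact_mod_cast Finset.card_le_card hX₂
  have hcY₂ : (Y₂.card : ℝ) ≤ Real.exp B := by
    rw [← hB]; exact_mod_cast Finset.card_le_card hY₂
  obtain ⟨n1, n2, n3, n4, n5⟩ := analytic hcone hl (X₂.card : ℝ) (Y₂.card : ℝ) (ec E X₂ Y₂)
    (Nat.cast_nonneg _) (Nat.cast_nonneg _) hcX₂ hcY₂ q1 hec₂ _ _ _ _ _ _ _ _ rfl rfl rfl rfl
    rfl rfl rfl rfl
  refine core_fin E X₂ Y₂ 600 (by norm_num) _ _ _ _ _ _ _ _ _ (Real.exp_pos _) (Real.exp_pos _)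
    (Real.exp_pos _) (Real.exp_pos _) (Real.exp_pos _).le (Real.exp_pos _).le (Real.exp_pos _).le
    q2 q3 q4 q5 ?_ ?_ ?_ n1 n2 n3 n4 n5
  · intro x hx
    refine heavy_bound E ρ hρ0 X₂ Y₂ hsub₂ x (Real.exp (e - A + 7 * l)) (Real.exp (LX A B e))
      (Real.exp (2 * e - A - B - 40 * l)) (Real.exp_pos _) (Real.exp_pos _) (q4 x hx) ?_ ?_ ?_ ?_ ?_
    · refine lt_of_lt_of_le ?_ (q2 x hx)
      refine Real.exp_lt_exp.2 ?_
      have := num_X5 hcone
      linarith
    · rw [hR]; exact heavy_cond hl (num_X1 hcone)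
    · rw [hR]; exact heavy_cond hl (num_X2 hcone)
    · rw [hR]
      have h := heavy_cond (p := 1) (T := 0) (H := LX A B e) (q := 9 / 20)
        (x := e - A + 7 * l) (R := R) hl (by have := num_X3 hcone; linarith)
      rw [Real.rpow_one] at h
      simpa using h
    · rw [hR]
      have h := heavy_cond (q := 1) (p := 9 / 20) (T := 2 * e - A - B - 40 * l) (H := LX A B e)
        (x := e - A + 7 * l) (R := R) hl (by have := num_X4 hcone; linarith)
      rw [Real.rpow_one] at h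
      exact h
  · intro y hy
    have hb := heavy_bound (fun y x => E x y) ρ hρ0 Y₂ X₂
      (fun S hS T hT => by
        rw [← ec_swap E T S, pF_comm]
        exact hsub₂ T hT S hS) y
      (Real.exp (e - B + 7 * l)) (Real.exp (LY A B e))
      (Real.exp (2 * e - A - B - 40 * l)) (Real.exp_pos _) (Real.exp_pos _) (q5 y hy) ?_ ?_ ?_ ?_ ?_
    · exact hb
    · refine lt_of_lt_of_le ?_ (q3 y hy)
      refine Real.exp_lt_exp.2 ?_
      have := num_Y5 hcone
      linarith
    · rw [hR]; exact heavy_cond hl (num_Y1 hcone)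
    · rw [hR]; exact heavy_cond hl (num_Y2 hcone)
    · rw [hR]
      have h := heavy_cond (p := 1) (T := 0) (H := LY A B e) (q := 9 / 20)
        (x := e - B + 7 * l) (R := R) hl (by have := num_Y3 hcone; linarith)
      rw [Real.rpow_one] at h
      simpa using h
    · rw [hR]
      have h := heavy_cond (q := 1) (p := 9 / 20) (T := 2 * e - A - B - 40 * l) (H := LY A B e)
        (x := e - B + 7 * l) (R := R) hl (by have := num_Y4 hcone; linarith)
      rw [Real.rpow_one] at h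
      exact h
  · linarith [Real.exp_pos e]

/-- the extremal theorem in terms of the potential -/
theorem potential : ∃ C : ℝ, 0 < C ∧ ∀ (X Y : Type) [Fintype X] [Fintype Y] (E : X → Y → Prop),
    C * pF (Fintype.card X) (Fintype.card Y) < ec E univ univ → Neck E 600 := by
  obtain ⟨C1, hC1, htd⟩ := triple_dense_fin 600 (by norm_num)
  refine ⟨Real.exp (100000 * (1 + Real.log C1)), Real.exp_pos _, ?_⟩
  intro X Y _ _ E hE
  set C := Real.exp (100000 * (1 + Real.log C1)) with hC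
  have hCpos : 0 < C := Real.exp_pos _
  have hpos : 0 < ec E univ univ :=
    lt_of_le_of_lt (mul_nonneg hCpos.le (pF_nonneg (Nat.cast_nonneg _) (Nat.cast_nonneg _))) hE
  have hXne : (univ : Finset X).Nonempty := by
    rw [Finset.nonempty_iff_ne_empty]
    intro h
    rw [h] at hpos
    simp [ec] at hpos
  have hYne : (univ : Finset Y).Nonempty := by
    rw [Finset.nonempty_iff_ne_empty]
    intro h
    rw [h] at hpos
    simp [ec] at hpos
  set P : Finset (Finset X × Finset Y) :=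
    univ.filter fun p => p.1.Nonempty ∧ p.2.Nonempty with hP
  obtain ⟨⟨X', Y'⟩, hmem, hmax⟩ := Finset.exists_max_image P
    (fun p => ec E p.1 p.2 / pF p.1.card p.2.card) ⟨(univ, univ), by simp [hP, hXne, hYne]⟩
  have hmem' : X'.Nonempty ∧ Y'.Nonempty := by
    simpa [hP] using hmem
  have hX : 0 < X'.card := Finset.card_pos.2 hmem'.1
  have hY : 0 < Y'.card := Finset.card_pos.2 hmem'.2
  have ha : (0 : ℝ) < X'.card := by exact_mod_cast hX
  have hc : (0 : ℝ) < Y'.card := by exact_mod_cast hY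
  set ρ := ec E X' Y' / pF X'.card Y'.card with hρ
  have hFpos : 0 < pF X'.card Y'.card := pF_pos ha hc
  have heq : ec E X' Y' = ρ * pF X'.card Y'.card := by
    rw [hρ]; field_simp
  have hρC : C ≤ ρ := by
    have h1 := hmax (univ, univ) (by simp [hP, hXne, hYne])
    simp only at h1
    refine le_trans ?_ h1
    have h2 : 0 < pF ((univ : Finset X).card) ((univ : Finset Y).card) := by
      apply pF_pos
      · exact_mod_cast Finset.card_pos.2 hXne
      · exact_mod_cast Finset.card_pos.2 hYne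
    rw [le_div_iff₀ h2, Finset.card_univ, Finset.card_univ]
    exact hE.le
  have hρ0 : 0 < ρ := hCpos.trans_le hρC
  have hsub : ∀ (S : Finset X) (T : Finset Y), ec E S T ≤ ρ * pF S.card T.card := by
    intro S T
    by_cases hS : S.Nonempty
    · by_cases hT : T.Nonempty
      · have h1 := hmax (S, T) (by simp [hP, hS, hT])
        simp only at h1
        have h2 : 0 < pF (S.card) (T.card) := by
          apply pF_pos
          · exact_mod_cast Finset.card_pos.2 hS
          · exact_mod_cast Finset.card_pos.2 hT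
        rwa [div_le_iff₀ h2] at h1
      · rw [Finset.not_nonempty_iff_eq_empty] at hT
        subst hT
        have h1 : ec E S ∅ = 0 := by simp [ec]
        rw [h1]
        exact mul_nonneg hρ0.le (pF_nonneg (Nat.cast_nonneg _) (Nat.cast_nonneg _))
    · rw [Finset.not_nonempty_iff_eq_empty] at hS
      subst hS
      have h1 : ec E ∅ T = 0 := by simp [ec]
      rw [h1]
      exact mul_nonneg hρ0.le (pF_nonneg (Nat.cast_nonneg _) (Nat.cast_nonneg _))
  rcases le_total Y'.card X'.card with hXY | hXY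
  · exact main_case C1 hC1 htd E X' Y' ρ hρC hXY hY (fun S _ T _ => hsub S T) heq
  · refine Neck.dual (by norm_num) ?_
    refine main_case C1 hC1 htd (fun y x => E x y) Y' X' ρ hρC hXY hX (fun S _ T _ => ?_) ?_
    · rw [← ec_swap E T S, pF_comm]
      exact hsub T S
    · rw [← ec_swap E X' Y', pF_comm]
      exact heq

/-- the bound for equal sides -/
theorem potential_eq : ∃ C : ℝ, ∀ (n : ℕ) (E : Fin n → Fin n → Prop),
    C * (n : ℝ) ^ ((3 : ℝ) / 2 - 1 / 250) < ec E univ univ → Neck E 600 := by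
  obtain ⟨C, hC, h⟩ := potential
  refine ⟨4 * C, ?_⟩
  intro n E hE
  refine h (Fin n) (Fin n) E (lt_of_le_of_lt ?_ hE)
  rw [Fintype.card_fin]
  rcases Nat.eq_zero_or_pos n with hn | hn
  · subst hn
    unfold pF
    norm_num
  have hn1 : (1 : ℝ) ≤ n := by exact_mod_cast hn
  have hn0 : (0 : ℝ) < n := by linarith
  have e1 : (n : ℝ) ^ (9 / 10 : ℝ) * (n : ℝ) ^ (149 / 250 : ℝ) =
      (n : ℝ) ^ ((3 : ℝ) / 2 - 1 / 250) := by
    rw [← Real.rpow_add hn0]; norm_num
  have e2 : (n : ℝ) ^ (149 / 250 : ℝ) * (n : ℝ) ^ (9 / 10 : ℝ) =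
      (n : ℝ) ^ ((3 : ℝ) / 2 - 1 / 250) := by
    rw [← Real.rpow_add hn0]; norm_num
  have e3 : (n : ℝ) * (n : ℝ) ^ (9 / 20 : ℝ) ≤ (n : ℝ) ^ ((3 : ℝ) / 2 - 1 / 250) := by
    calc (n : ℝ) * (n : ℝ) ^ (9 / 20 : ℝ) = (n : ℝ) ^ (1 : ℝ) * (n : ℝ) ^ (9 / 20 : ℝ) := by
          rw [Real.rpow_one]
      _ = (n : ℝ) ^ (1 + 9 / 20 : ℝ) := by rw [← Real.rpow_add hn0]
      _ ≤ _ := Real.rpow_le_rpow_of_exponent_le hn1 (by norm_num)
  have e4 : (n : ℝ) ^ (9 / 20 : ℝ) * (n : ℝ) ≤ (n : ℝ) ^ ((3 : ℝ) / 2 - 1 / 250) := by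
    rw [mul_comm]; exact e3
  unfold pF
  rw [e1, e2]
  have : C * ((n : ℝ) ^ ((3 : ℝ) / 2 - 1 / 250) + (n : ℝ) ^ ((3 : ℝ) / 2 - 1 / 250) +
      (n : ℝ) * (n : ℝ) ^ (9 / 20 : ℝ) + (n : ℝ) ^ (9 / 20 : ℝ) * (n : ℝ)) ≤
      C * (4 * (n : ℝ) ^ ((3 : ℝ) / 2 - 1 / 250)) :=
    mul_le_mul_of_nonneg_left (by linarith) hC.le
  linarith

end Pool.Agent.Lib.MP_a2fd8c_co
end
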